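import Pool.Agent.H952.NA.Stm

set_option autoImplicit false

namespace Pool.Agent.H952.NA

open Finset
open Pool.Agent.H98.BG (IsP H GIB)
open scoped Pointwise

theorem ball : BALL := by
  classical
  intro G _ _ A N
  let W : Finset G := (Finset.range (N + 3)).biUnion (fun k => A ^ k)
  have hW : ∀ x : G, x ∈ W ↔ ∃ k ≤ N + 2, x ∈ A ^ k := by
    intro x
    simp only [W, Finset.mem_biUnion, Finset.mem_range]
    constructor
    · rintro ⟨k, hk, hx⟩
      exact ⟨k, by omega, hx⟩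
    · rintro ⟨k, hk, hx⟩
      exact ⟨k, by omega, hx⟩
  let p : {x : G // x ∈ W} → Prop := fun v => ∃ k ≤ N + 1, v.1 ∈ A ^ k
  have hf : ∀ t : {t // t ∈ A}, ∀ v : {v : {x : G // x ∈ W} // p v}, t.1 * v.1.1 ∈ W := by
    rintro ⟨t, ht⟩ ⟨⟨v, hv⟩, k, hk, hvk⟩
    rw [hW]
    refine ⟨k + 1, by omega, ?_⟩
    rw [pow_succ']
    exact Finset.mul_mem_mul ht hvk
  let f : (t : {t // t ∈ A}) → {v : {x : G // x ∈ W} // p v} → {x : G // x ∈ W} :=
    fun t v => ⟨t.1 * v.1.1, hf t v⟩
  have hinj : ∀ t, Function.Injective (f t) := by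
    intro t v v' h
    have h1 : t.1 * v.1.1 = t.1 * v'.1.1 := congrArg Subtype.val h
    exact Subtype.ext (Subtype.ext (mul_left_cancel h1))
  refine ⟨{x : G // x ∈ W}, inferInstance, inferInstance, Subtype.val,
    fun t => (Equiv.ofInjective (f t) (hinj t)).extendSubtype, Subtype.val_injective, ?_, ?_⟩
  · intro x
    rw [← hW]
    simp
  · intro t v hv
    have h := Equiv.extendSubtype_apply_of_mem (Equiv.ofInjective (f t) (hinj t)) v hv
    rw [h]
    rfl

end Pool.Agent.H952.NA
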