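import Pool.Agent.H952.NA.Stm

/-!
# The main step of the proof
-/

set_option autoImplicit false
set_option linter.unusedSectionVars false

namespace Pool.Agent.H952.NA

open Finset
open Pool.Agent.H98.BG (IsP H GIB)
open scoped Pointwise

namespace COREL

section

variable {V Θ : Type} [Fintype V] [DecidableEq V] [Fintype Θ]

/-- the entropy is at most the logarithm of the size of the support -/
theorem H_le (gib : GIB) {α : Type} [Fintype α] [DecidableEq α] (p : α → ℝ) (S : Finset α)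
    (hp : IsP p) (hS : ∀ x, p x ≠ 0 → x ∈ S) : H p ≤ Real.log S.card := by
  have hne : S.Nonempty := by
    by_contra hcon
    rw [Finset.not_nonempty_iff_eq_empty] at hcon
    have h1 : ∑ x, p x = 0 := by
      refine Finset.sum_eq_zero fun x _ => ?_
      by_contra hx
      have := hS x hx
      rw [hcon] at this
      exact absurd this (Finset.notMem_empty x)
    rw [hp.2] at h1
    exact one_ne_zero h1
  have h0 : (0 : ℝ) < S.card := by exact_mod_cast hne.card_pos
  have h1 := gib α p (fun x => if x ∈ S then (S.card : ℝ)⁻¹ else 0) hp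
    (fun x => by split_ifs <;> positivity)
    (by
      rw [Finset.sum_ite_mem, Finset.univ_inter, Finset.sum_const, nsmul_eq_mul,
        mul_inv_cancel₀ h0.ne'])
    (fun x hx => by rw [if_pos (hS x hx)]; positivity)
  have h2 : ∑ x, p x * Real.log (if x ∈ S then (S.card : ℝ)⁻¹ else 0) =
      ∑ x, p x * Real.log ((S.card : ℝ)⁻¹) := by
    refine Finset.sum_congr rfl fun x _ => ?_
    by_cases hx : p x = 0
    · rw [hx, zero_mul, zero_mul]
    · rw [if_pos (hS x hx)]
  rw [h2, ← Finset.sum_mul, hp.2, one_mul, Real.log_inv, neg_neg] at h1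
  exact h1

theorem cv_sum (π : Θ → Equiv.Perm V) (σ : V → ℝ) (τ : Θ → ℝ) (f : V → ℝ) :
    ∑ y, cv π σ τ y * f y = ∑ t, τ t * ∑ x, σ x * f (π t x) := by
  unfold cv
  simp only [Finset.sum_mul, Finset.mul_sum]
  rw [Finset.sum_comm]
  refine Finset.sum_congr rfl fun t _ => ?_
  rw [← Equiv.sum_comp (π t)]
  refine Finset.sum_congr rfl fun x _ => ?_
  rw [Equiv.symm_apply_apply]
  ring

theorem cv_isP (π : Θ → Equiv.Perm V) (σ : V → ℝ) (τ : Θ → ℝ) (hσ : IsP σ) (hτ : IsP τ) :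
    IsP (cv π σ τ) := by
  refine ⟨fun y => Finset.sum_nonneg fun t _ => mul_nonneg (hσ.1 _) (hτ.1 _), ?_⟩
  have h := cv_sum π σ τ fun _ => 1
  simp only [mul_one] at h
  rw [h, hσ.2]
  simp only [mul_one]
  exact hτ.2

theorem cv_ge (π : Θ → Equiv.Perm V) (σ : V → ℝ) (τ : Θ → ℝ) (hσ : IsP σ) (hτ : IsP τ) :
    H σ ≤ H (cv π σ τ) := by
  have h1 : ∀ y, ∑ t, τ t * Real.negMulLog (σ ((π t).symm y)) ≤ Real.negMulLog (cv π σ τ y) := by
    intro y
    have h2 := Real.concaveOn_negMulLog.le_map_sum (t := (Finset.univ : Finset Θ)) (w := τ)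
      (p := fun t => σ ((π t).symm y)) (fun t _ => hτ.1 t) hτ.2 (fun t _ => hσ.1 _)
    simp only [smul_eq_mul] at h2
    have e : cv π σ τ y = ∑ t, τ t * σ ((π t).symm y) := by
      unfold cv
      exact Finset.sum_congr rfl fun t _ => mul_comm _ _
    rw [e]
    exact h2
  have h3 : ∑ y, ∑ t, τ t * Real.negMulLog (σ ((π t).symm y)) = H σ := by
    rw [Finset.sum_comm]
    have h4 : ∀ t, ∑ y, τ t * Real.negMulLog (σ ((π t).symm y)) = τ t * H σ := by
      intro t
      rw [← Finset.mul_sum]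
      congr 1
      exact Equiv.sum_comp (π t).symm fun x => Real.negMulLog (σ x)
    rw [Finset.sum_congr rfl fun t _ => h4 t, ← Finset.sum_mul, hτ.2, one_mul]
  rw [← h3]
  exact Finset.sum_le_sum fun y _ => h1 y

theorem un_H (A : Finset V) (hA : A.Nonempty) : H (un A) = Real.log A.card := by
  have h0 : (A.card : ℝ) ≠ 0 := by exact_mod_cast hA.card_pos.ne'
  unfold H un
  have h1 : ∀ x : V, Real.negMulLog (if x ∈ A then (A.card : ℝ)⁻¹ else 0) =
      if x ∈ A then Real.negMulLog ((A.card : ℝ)⁻¹) else 0 := by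
    intro x
    split_ifs
    · rfl
    · exact Real.negMulLog_zero
  rw [Finset.sum_congr rfl fun x _ => h1 x, Finset.sum_ite_mem, Finset.univ_inter,
    Finset.sum_const, nsmul_eq_mul, Real.negMulLog, Real.log_inv]
  field_simp

theorem unif_isP [Nonempty Θ] : IsP fun _ : Θ => (Fintype.card Θ : ℝ)⁻¹ := by
  refine ⟨fun _ => by positivity, ?_⟩
  rw [Finset.sum_const, Finset.card_univ, nsmul_eq_mul, mul_inv_cancel₀]
  exact_mod_cast Fintype.card_ne_zero

theorem unif_H [Nonempty Θ] : H (fun _ : Θ => (Fintype.card Θ : ℝ)⁻¹) =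
    Real.log (Fintype.card Θ) := by
  have h0 : (Fintype.card Θ : ℝ) ≠ 0 := by exact_mod_cast Fintype.card_ne_zero
  unfold H
  rw [Finset.sum_const, Finset.card_univ, nsmul_eq_mul, Real.negMulLog, Real.log_inv]
  field_simp

/-- the start -/
theorem base (gib : GIB) (π : Θ → Equiv.Perm V) (A : Finset V) (B : Finset (V × V))
    (E : ℕ → Finset V) (lam : ℝ) (n : ℕ) (hA : A.Nonempty) (hd : Dom π A B E lam n)
    (hσ : IsP (un A)) (τ : Θ → ℝ) (hτ : IsP τ) : H (cv π (un A) τ) - H (un A) ≤ lam := by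
  obtain ⟨P, hP1, hP2⟩ := hd.prod
  have h0 : (0 : ℝ) < A.card := by exact_mod_cast hA.card_pos
  have hc := cv_isP π (un A) τ hσ hτ
  have hsup : ∀ y, cv π (un A) τ y ≠ 0 → y ∈ P := by
    intro y hy
    unfold cv at hy
    obtain ⟨t, -, ht⟩ := Finset.exists_ne_zero_of_sum_ne_zero hy
    have h1 : un A ((π t).symm y) ≠ 0 := left_ne_zero_of_mul ht
    have h2 : (π t).symm y ∈ A := by
      by_contra h3
      exact h1 (if_neg h3)
    have h3 := hP1 t _ h2
    rwa [Equiv.apply_symm_apply] at h3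
  have h1 := H_le gib _ P hc hsup
  have hPne : P.Nonempty := by
    by_contra hcon
    rw [Finset.not_nonempty_iff_eq_empty] at hcon
    have h2 : ∑ y, cv π (un A) τ y = 0 := by
      refine Finset.sum_eq_zero fun y _ => ?_
      by_contra hy
      have := hsup y hy
      rw [hcon] at this
      exact absurd this (Finset.notMem_empty y)
    rw [hc.2] at h2
    exact one_ne_zero h2
  have h2 : (0 : ℝ) < P.card := by exact_mod_cast hPne.card_pos
  have h3 := Real.log_le_log h2 hP2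
  rw [Real.log_mul (Real.exp_pos _).ne' h0.ne', Real.log_exp] at h3
  rw [un_H A hA]
  linarith

theorem claim (gib : GIB) (stq : STQ) (sq : SEQ) (los : LOS) (π : Θ → Equiv.Perm V)
    (A : Finset V) (B : Finset (V × V)) (E : ℕ → Finset V) (lam : ℝ) (q n : ℕ) [Nonempty Θ]
    (hA : A.Nonempty) (hlam : 0 ≤ lam) (hq : 8 * lam + n + 1 ≤ q) (hd : Dom π A B E lam n) :
    ∀ j ≤ n, ∃ τ : Θ → ℝ, IsP τ ∧
      (Real.log (Fintype.card Θ) - H τ) + ((2 : ℝ) ^ j * q) *
        (H (cv π (sg A B E q j) τ) - H (sg A B E q j)) ≤ q * lam + 3 * j * (q : ℝ) ^ 2 := by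
  classical
  have hq0 : (0 : ℝ) ≤ q := Nat.cast_nonneg q
  have hn0 : (0 : ℝ) ≤ n := Nat.cast_nonneg n
  have hq1 : (1 : ℝ) ≤ q := by linarith
  have hq8 : 8 * lam + 1 ≤ (q : ℝ) := by linarith
  intro j
  induction j with
  | zero =>
    intro _
    have hs := (sq V Θ π A B E lam q n hA hq0 hd 0).1
    have e1 : sg A B E q 0 = un A := rfl
    rw [e1] at hs
    refine ⟨fun _ => (Fintype.card Θ : ℝ)⁻¹, unif_isP, ?_⟩
    have h1 := base gib π A B E lam n hA hd hs _ (unif_isP (Θ := Θ))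
    rw [e1, unif_H]
    simp only [pow_zero, one_mul, Nat.cast_zero, mul_zero, zero_mul, add_zero, sub_self, zero_add]
    exact mul_le_mul_of_nonneg_left h1 hq0
  | succ j ih =>
    intro hj
    obtain ⟨τ, hτ, hb⟩ := ih (by omega)
    have hjn : j ≤ n := by omega
    have hσ := (sq V Θ π A B E lam q n hA hq0 hd j).1
    have hσs := (sq V Θ π A B E lam q n hA hq0 hd j).2.1
    have hρ := (sq V Θ π A B E lam q n hA hq0 hd (j + 1)).1
    have hρs := (sq V Θ π A B E lam q n hA hq0 hd (j + 1)).2.1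
    have hl := (los V Θ π A B E lam q n hA hlam hq8 hd j hjn).1
    have hqN : 0 < q := by
      have : (0 : ℝ) < q := by linarith
      exact_mod_cast this
    have hm : 0 < 2 ^ j * q := by positivity
    have hqm : (q : ℝ) ≤ ((2 ^ j * q : ℕ) : ℝ) := by
      have : q ≤ 2 ^ j * q := Nat.le_mul_of_pos_left q (by positivity)
      exact_mod_cast this
    obtain ⟨τ', h1, -, h3⟩ := stq V Θ (2 ^ j * q) q ((2 : ℝ) ^ (j + 1) * q)
      (H (cv π (sg A B E q j) τ) - H (sg A B E q j)) (Real.exp (2 * lam - q))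
      (Real.log (Fintype.card Θ)) π (sg A B E q j) (sg A B E q (j + 1)) τ B
      (((Finset.univ : Finset Θ) ×ˢ E (j + 1)).image fun p => π p.1 p.2) (E (j + 2))
      hσ hτ hρ hm hq0 hqm (by positivity) le_rfl
      (fun t _ x hx s hs => hd.eqv j hjn t x hx s (hσs s hs))
      (fun x t hx _ => Finset.mem_image.2 ⟨(t, x), Finset.mem_product.2
        ⟨Finset.mem_univ _, hρs x hx⟩, rfl⟩)
      (fun y t hy _ => by
        obtain ⟨⟨t', x⟩, hx, rfl⟩ := Finset.mem_image.1 hy
        exact hd.act j hjn t' t x (Finset.mem_product.1 hx).2)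
      hl
    refine ⟨τ', h1, h3.trans ?_⟩
    have e1 : ((2 ^ j * q : ℕ) : ℝ) = (2 : ℝ) ^ j * q := by push_cast; ring
    rw [e1]
    have hqpos : (0 : ℝ) < q := by linarith
    have h2j : (0 : ℝ) < (2 : ℝ) ^ j := by positivity
    have e2 : (2 : ℝ) ^ (j + 1) * q * (Real.exp (2 * lam - q) + (q : ℝ) ^ 2 / ((2 : ℝ) ^ j * q)) =
        (2 : ℝ) ^ (j + 1) * q * Real.exp (2 * lam - q) + 2 * (q : ℝ) ^ 2 := by
      field_simp
      ring
    rw [e2]
    have h4 : (2 : ℝ) ^ (j + 1) * Real.exp (2 * lam - q) ≤ 1 := by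
      have h5 : (2 : ℝ) ^ (j + 1) ≤ 2 ^ n := pow_le_pow_right₀ (by norm_num) hj
      have h6 : (2 : ℝ) ^ n ≤ Real.exp n := by
        have h7 : (2 : ℝ) ≤ Real.exp 1 := by
          have := Real.add_one_le_exp (1 : ℝ)
          linarith
        calc (2 : ℝ) ^ n ≤ (Real.exp 1) ^ n := pow_le_pow_left₀ (by norm_num) h7 n
          _ = Real.exp n := by rw [← Real.exp_nat_mul, mul_one]
      calc (2 : ℝ) ^ (j + 1) * Real.exp (2 * lam - q) ≤ Real.exp n * Real.exp (2 * lam - q) :=
            mul_le_mul_of_nonneg_right (h5.trans h6) (Real.exp_pos _).le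
        _ = Real.exp (n + (2 * lam - q)) := (Real.exp_add _ _).symm
        _ ≤ 1 := by
          rw [Real.exp_le_one_iff]
          linarith
    have h5 : (2 : ℝ) ^ (j + 1) * q * Real.exp (2 * lam - q) ≤ q := by
      calc (2 : ℝ) ^ (j + 1) * q * Real.exp (2 * lam - q) =
            (2 : ℝ) ^ (j + 1) * Real.exp (2 * lam - q) * q := by ring
        _ ≤ 1 * q := mul_le_mul_of_nonneg_right h4 hq0
        _ = q := one_mul _
    push_cast
    nlinarith

end

end COREL

open COREL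

theorem core (gib : GIB) (stq : STQ) (sq : SEQ) (los : LOS) : CORE := by
  intro V Θ _ _ _ π A B E lam q n hΘ hA hlam hq hd hn
  classical
  have hq0 : (0 : ℝ) ≤ q := Nat.cast_nonneg q
  have hn1 : (1 : ℝ) ≤ n := by exact_mod_cast hn
  have hq1 : (1 : ℝ) ≤ q := by linarith
  have hqpos : (0 : ℝ) < q := by linarith
  have hq8 : 8 * lam + 1 ≤ (q : ℝ) := by linarith
  obtain ⟨τ, hτ, hb⟩ := claim gib stq sq los π A B E lam q n hA hlam hq hd n le_rfl
  have hσ := (sq V Θ π A B E lam q n hA hq0 hd n).1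
  have hσs := (sq V Θ π A B E lam q n hA hq0 hd n).2.1
  obtain ⟨s₀, hs0, hs1⟩ := (los V Θ π A B E lam q n hA hlam hq8 hd (n - 1) (by omega)).2
  have hs2 := (sq V Θ π A B E lam q n hA hq0 hd (n - 1)).2.1 s₀ hs0
  have e1 : n - 1 + 1 = n := by omega
  rw [e1] at hs1
  have hs3 : s₀ ∈ E n := by
    have := hd.mono (n - 1) hs2
    rwa [e1] at this
  have h1 : H τ ≤ Real.log (Fintype.card Θ) := by
    have := H_le gib τ Finset.univ hτ fun x _ => Finset.mem_univ x
    rwa [Finset.card_univ] at this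
  have h2 := cv_ge π (sg A B E q n) τ hσ hτ
  have h3 : (q : ℝ) * lam + 3 * n * (q : ℝ) ^ 2 ≤ (3 * n + 1) * (q : ℝ) ^ 2 := by
    have h6 : (q : ℝ) * lam ≤ (q : ℝ) * q := mul_le_mul_of_nonneg_left (by linarith) hq0
    nlinarith
  have h2n : (0 : ℝ) < (2 : ℝ) ^ n := by positivity
  have h4 : 0 ≤ (2 : ℝ) ^ n * q * (H (cv π (sg A B E q n) τ) - H (sg A B E q n)) :=
    mul_nonneg (by positivity) (by linarith)
  refine ⟨sg A B E q n, τ, s₀, hσ, hτ, hσs, hs3, hs1, by linarith, ?_⟩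
  rw [le_div_iff₀ h2n]
  have h5 : (2 : ℝ) ^ n * q * (H (cv π (sg A B E q n) τ) - H (sg A B E q n)) ≤
      (3 * n + 1) * (q : ℝ) ^ 2 := by linarith
  have h6 : q * ((H (cv π (sg A B E q n) τ) - H (sg A B E q n)) * 2 ^ n) ≤
      q * ((3 * n + 1) * (q : ℝ)) := by nlinarith
  exact le_of_mul_le_mul_left h6 hqpos

end Pool.Agent.H952.NA
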