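import Pool.Agent.H952.NA.Stm2
import Pool.Agent.H952.NA.CORE

/-!
# The main step of the proof, polynomial dependence on `M` (task NB8)
-/

set_option autoImplicit false
set_option linter.unusedSectionVars false

namespace Pool.Agent.H952.NA

open Finset
open Pool.Agent.H98.BG (IsP H GIB)
open scoped Pointwise

namespace NB8L

section

variable {V Θ : Type} [Fintype V] [DecidableEq V] [Fintype Θ]

/-- the start -/
theorem base (gib : GIB) (π : Θ → Equiv.Perm V) (A : Finset V) (lam : ℝ) (hA : A.Nonempty)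
    (hd : ∃ P : Finset V, (∀ t, ∀ a ∈ A, π t a ∈ P) ∧ (P.card : ℝ) ≤ Real.exp lam * A.card)
    (hσ : IsP (un A)) (τ : Θ → ℝ) (hτ : IsP τ) : H (cv π (un A) τ) - H (un A) ≤ lam := by
  obtain ⟨P, hP1, hP2⟩ := hd
  have h0 : (0 : ℝ) < A.card := by exact_mod_cast hA.card_pos
  have hc := COREL.cv_isP π (un A) τ hσ hτ
  have hsup : ∀ y, cv π (un A) τ y ≠ 0 → y ∈ P := by
    intro y hy
    unfold cv at hy
    obtain ⟨t, -, ht⟩ := Finset.exists_ne_zero_of_sum_ne_zero hy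
    have h1 : un A ((π t).symm y) ≠ 0 := left_ne_zero_of_mul ht
    have h2 : (π t).symm y ∈ A := by
      by_contra h3
      exact h1 (if_neg h3)
    have h3 := hP1 t _ h2
    rwa [Equiv.apply_symm_apply] at h3
  have h1 := COREL.H_le gib _ P hc hsup
  have hPne : P.Nonempty := by
    by_contra hcon
    rw [Finset.not_nonempty_iff_eq_empty] at hcon
    have h2 : ∑ y, cv π (un A) τ y = 0 := by
      refine Finset.sum_eq_zero fun y _ => ?_
      by_contra hy
      have := hsup y hy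
      rw [hcon] at this
      exact absurd this (Finset.notMem_empty y)
    rw [hc.2] at h2
    exact one_ne_zero h2
  have h2 : (0 : ℝ) < P.card := by exact_mod_cast hPne.card_pos
  have h3 := Real.log_le_log h2 hP2
  rw [Real.log_mul (Real.exp_pos _).ne' h0.ne', Real.log_exp] at h3
  rw [COREL.un_H A hA]
  linarith

theorem claim (gib : GIB) (stq2 : STQ2) (sq2 : SEQ2) (los2 : LOS2) (π : Θ → Equiv.Perm V)
    (A : Finset V) (B : Finset (V × V)) (E : ℕ → Finset V) (lam : ℝ) (q n : ℕ) [Nonempty Θ]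
    (hA : A.Nonempty) (hlam : 0 ≤ lam) (hq : 16 * lam + 16 ≤ q) (hd : Dom2 π A B E lam n) :
    ∀ j ≤ n, ∃ τ : Θ → ℝ, IsP τ ∧
      (Real.log (Fintype.card Θ) - H τ) + ((2 : ℝ) ^ (j + 6) * q) *
        (H (cv π (sg2 A B E q j) τ) - H (sg2 A B E q j)) ≤
          64 * q * lam + 132 * j * (q : ℝ) ^ 2 := by
  classical
  have hq0 : (0 : ℝ) ≤ q := Nat.cast_nonneg q
  have hq16 : (16 : ℝ) ≤ q := by linarith
  have hq3 : 3 ≤ q := by
    have : (3 : ℝ) ≤ q := by linarith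
    exact_mod_cast this
  intro j
  induction j with
  | zero =>
    intro _
    have hs := (sq2 V Θ π A B E lam q n hA hlam hq3 hd 0).1
    have e1 : sg2 A B E q 0 = un A := rfl
    rw [e1] at hs
    refine ⟨fun _ => (Fintype.card Θ : ℝ)⁻¹, COREL.unif_isP, ?_⟩
    have h1 := base gib π A lam hA hd.prod hs _ (COREL.unif_isP (Θ := Θ))
    rw [e1, COREL.unif_H]
    have h2 := mul_le_mul_of_nonneg_left h1 (mul_nonneg (by norm_num : (0 : ℝ) ≤ 2 ^ (0 + 6)) hq0)
    have h3 : (2 : ℝ) ^ (0 + 6) * q * lam = 64 * q * lam := by norm_num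
    rw [h3] at h2
    simp only [Nat.cast_zero, mul_zero, zero_mul, add_zero, sub_self, zero_add] at h2 ⊢
    exact h2
  | succ j ih =>
    intro hj
    obtain ⟨τ, hτ, hb⟩ := ih (by omega)
    have hjn : j ≤ n := by omega
    have hσ := (sq2 V Θ π A B E lam q n hA hlam hq3 hd j).1
    have hσs := (sq2 V Θ π A B E lam q n hA hlam hq3 hd j).2.1
    have hpos := (sq2 V Θ π A B E lam q n hA hlam hq3 hd j).2.2.2.1
    have hρ := (sq2 V Θ π A B E lam q n hA hlam hq3 hd (j + 1)).1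
    have hρs := (sq2 V Θ π A B E lam q n hA hlam hq3 hd (j + 1)).2.1
    have hl := (los2 V Θ π A B E lam q n hA hlam hq hd j hjn).1
    have hqN : 0 < q := by omega
    have hm : 0 < 2 ^ (j + 6) * q := by positivity
    obtain ⟨τ', h1, -, h3⟩ := stq2 V Θ (2 ^ (j + 6) * q) q ((2 : ℝ) ^ (j + 7) * q)
      (H (cv π (sg2 A B E q j) τ) - H (sg2 A B E q j)) (66 * (q : ℝ) / 2 ^ (j + 6))
      (Real.log (Fintype.card Θ)) π (sg2 A B E q j) (sg2 A B E q (j + 1)) τ B
      (((Finset.univ : Finset Θ) ×ˢ E (j + 1)).image fun p => π p.1 p.2) (E (j + 2))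
      hσ hτ hρ hm (by positivity) le_rfl
      (fun t _ x hx s hs => hd.eqv j hjn t x hx s (hσs s hs))
      (fun x t hx _ => Finset.mem_image.2 ⟨(t, x), Finset.mem_product.2
        ⟨Finset.mem_univ _, hρs x hx⟩, rfl⟩)
      (fun y t hy _ => by
        obtain ⟨⟨t', x⟩, hx, rfl⟩ := Finset.mem_image.1 hy
        exact hd.act j hjn t' t x (Finset.mem_product.1 hx).2)
      hpos hl
    refine ⟨τ', h1, ?_⟩
    have e0 : j + 1 + 6 = j + 7 := by omega
    rw [e0]
    refine h3.trans ?_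
    have e1 : ((2 ^ (j + 6) * q : ℕ) : ℝ) = (2 : ℝ) ^ (j + 6) * q := by push_cast; ring
    rw [e1]
    have h2j : (0 : ℝ) < (2 : ℝ) ^ (j + 6) := by positivity
    have e2 : (2 : ℝ) ^ (j + 7) * q * (66 * (q : ℝ) / 2 ^ (j + 6)) = 132 * (q : ℝ) ^ 2 := by
      have e3 : (2 : ℝ) ^ (j + 7) = 2 * 2 ^ (j + 6) := by ring
      rw [e3]
      field_simp
      ring
    rw [e2]
    push_cast
    linarith

end

end NB8L

open NB8L

theorem core2 (gib : GIB) (stq2 : STQ2) (sq2 : SEQ2) (los2 : LOS2) : CORE2 := by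
  intro V Θ _ _ _ π A B E lam q n hΘ hA hlam hq hd hn
  classical
  have hq0 : (0 : ℝ) ≤ q := Nat.cast_nonneg q
  have hn1 : (1 : ℝ) ≤ n := by exact_mod_cast hn
  have hq16 : (16 : ℝ) ≤ q := by linarith
  have hqpos : (0 : ℝ) < q := by linarith
  have hq3 : 3 ≤ q := by
    have : (3 : ℝ) ≤ q := by linarith
    exact_mod_cast this
  obtain ⟨τ, hτ, hb⟩ := NB8L.claim gib stq2 sq2 los2 π A B E lam q n hA hlam hq hd n le_rfl
  have hσ := (sq2 V Θ π A B E lam q n hA hlam hq3 hd n).1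
  have hσs := (sq2 V Θ π A B E lam q n hA hlam hq3 hd n).2.1
  obtain ⟨s₀, hs0, hs1⟩ := (los2 V Θ π A B E lam q n hA hlam hq hd (n - 1) (by omega)).2
  have hs2 := (sq2 V Θ π A B E lam q n hA hlam hq3 hd (n - 1)).2.1 s₀ hs0
  have e1 : n - 1 + 1 = n := by omega
  rw [e1] at hs1
  have hs3 : s₀ ∈ E n := by
    have := hd.mono (n - 1) hs2
    rwa [e1] at this
  have h1 : H τ ≤ Real.log (Fintype.card Θ) := by
    have := COREL.H_le gib τ Finset.univ hτ fun x _ => Finset.mem_univ x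
    rwa [Finset.card_univ] at this
  have h2 := COREL.cv_ge π (sg2 A B E q n) τ hσ hτ
  have hqq : (0 : ℝ) ≤ (q : ℝ) ^ 2 := by positivity
  have h3 : 64 * q * lam + 132 * n * (q : ℝ) ^ 2 ≤ 136 * n * (q : ℝ) ^ 2 := by
    have h6 : 64 * q * lam ≤ 4 * (q : ℝ) ^ 2 := by
      have h7 : 64 * lam ≤ 4 * (q : ℝ) := by linarith
      have h8 := mul_le_mul_of_nonneg_left h7 hq0
      nlinarith
    have h9 : 4 * (q : ℝ) ^ 2 ≤ 4 * n * (q : ℝ) ^ 2 := by nlinarith
    linarith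
  have h2n : (0 : ℝ) < (2 : ℝ) ^ n := by positivity
  have h4 : 0 ≤ (2 : ℝ) ^ (n + 6) * q *
      (H (cv π (sg2 A B E q n) τ) - H (sg2 A B E q n)) :=
    mul_nonneg (by positivity) (by linarith)
  have hnq : (0 : ℝ) ≤ n * (q : ℝ) ^ 2 := by positivity
  refine ⟨sg2 A B E q n, τ, s₀, hσ, hτ, hσs, hs3, hs1, by nlinarith, ?_⟩
  rw [le_div_iff₀ h2n]
  have h5 : (2 : ℝ) ^ (n + 6) * q * (H (cv π (sg2 A B E q n) τ) - H (sg2 A B E q n)) ≤
      136 * n * (q : ℝ) ^ 2 := by linarith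
  have e6 : (2 : ℝ) ^ (n + 6) = 64 * 2 ^ n := by ring
  rw [e6] at h5
  have h6 : (64 * q) * ((H (cv π (sg2 A B E q n) τ) - H (sg2 A B E q n)) * 2 ^ n) ≤
      (64 * q) * (3 * n * (q : ℝ)) := by
    have h7 : (64 * q) * ((H (cv π (sg2 A B E q n) τ) - H (sg2 A B E q n)) * 2 ^ n) =
      64 * 2 ^ n * q * (H (cv π (sg2 A B E q n) τ) - H (sg2 A B E q n)) := by ring
    rw [h7]
    refine h5.trans ?_
    nlinarith
  exact le_of_mul_le_mul_left h6 (by positivity)

end Pool.Agent.H952.NA
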