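import Pool.Agent.H952.NA.Stm

/-!
# Many nearly invariant translations (`FINS`, by helper120)
-/

set_option autoImplicit false

namespace Pool.Agent.H952.NA

open Finset
open Pool.Agent.H98.BG (IsP H GIB)
open scoped Pointwise

namespace FINSL

lemma point (a r : ℝ) (ha : 0 ≤ a) (hr : 0 ≤ r) (har : 0 < a → 0 < r) :
    2 * a - 2 * (√a * √r) ≤ a * Real.log a - a * Real.log r := by
  rcases ha.eq_or_lt with rfl | ha
  · simp
  have hr := har ha
  have h1 : Real.log r - Real.log a = 2 * Real.log (√(r / a)) := by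
    rw [Real.log_sqrt (by positivity), Real.log_div hr.ne' ha.ne']
    ring
  have h2 : Real.log (√(r / a)) ≤ √(r / a) - 1 :=
    Real.log_le_sub_one_of_pos (Real.sqrt_pos.2 (by positivity))
  have h3 : a * √(r / a) = √a * √r := by
    rw [Real.sqrt_div hr.le]
    have h4 : √a * √a = a := Real.mul_self_sqrt ha.le
    have h5 : √a ≠ 0 := (Real.sqrt_pos.2 ha).ne'
    field_simp
    nlinarith
  have h6 : a * (Real.log r - Real.log a) ≤ a * (2 * (√(r / a) - 1)) :=
    mul_le_mul_of_nonneg_left (by rw [h1]; linarith) ha.le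
  nlinarith

variable {V Θ : Type} [Fintype V] [DecidableEq V] [Fintype Θ]

lemma sum_perm (f : V → ℝ) (π : Equiv.Perm V) : ∑ y, f (π.symm y) = ∑ y, f y :=
  Equiv.sum_comp π.symm f

/-- the mean squared Hellinger distance is at most the increase of the entropy -/
theorem key (π : Θ → Equiv.Perm V) (σ : V → ℝ) (τ : Θ → ℝ) (hσ : IsP σ) (hτ : IsP τ) :
    ∑ t, τ t * ∑ y, (√(σ ((π t).symm y)) - √(cv π σ τ y)) ^ 2 ≤ H (cv π σ τ) - H σ := by
  set ρ := cv π σ τ with hρ
  have hρ0 : ∀ y, 0 ≤ ρ y := fun y =>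
    Finset.sum_nonneg fun t _ => mul_nonneg (hσ.1 _) (hτ.1 _)
  have hs : ∀ t, ∑ y, σ ((π t).symm y) = 1 := fun t => (sum_perm σ (π t)).trans hσ.2
  have hρ1 : ∑ y, ρ y = 1 := by
    have : ∑ y, ρ y = ∑ t, ∑ y, σ ((π t).symm y) * τ t := by
      rw [Finset.sum_comm]
      rfl
    rw [this, Finset.sum_congr rfl (fun t _ => by
      rw [← Finset.sum_mul, hs t, one_mul]), hτ.2]
  have hpos : ∀ t y, 0 < τ t → 0 < σ ((π t).symm y) → 0 < ρ y := by
    intro t y h1 h2
    refine lt_of_lt_of_le (mul_pos h2 h1) ?_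
    exact Finset.single_le_sum (f := fun t => σ ((π t).symm y) * τ t)
      (fun t _ => mul_nonneg (hσ.1 _) (hτ.1 _)) (Finset.mem_univ t)
  have hHρ : H ρ = ∑ t, ∑ y, τ t * (-(σ ((π t).symm y) * Real.log (ρ y))) := by
    rw [Finset.sum_comm]
    unfold H
    refine Finset.sum_congr rfl fun y _ => ?_
    unfold Real.negMulLog
    have h1 : ρ y = ∑ t, σ ((π t).symm y) * τ t := rfl
    calc -ρ y * Real.log (ρ y) = -((∑ t, σ ((π t).symm y) * τ t) * Real.log (ρ y)) := by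
          rw [← h1]; ring
      _ = _ := by
        rw [Finset.sum_mul, ← Finset.sum_neg_distrib]
        exact Finset.sum_congr rfl fun t _ => by ring
  have hHσ : H σ =
      ∑ t, ∑ y, τ t * (-(σ ((π t).symm y) * Real.log (σ ((π t).symm y)))) := by
    have h1 : ∀ t, ∑ y, τ t * (-(σ ((π t).symm y) * Real.log (σ ((π t).symm y)))) =
        τ t * H σ := by
      intro t
      rw [← Finset.mul_sum]
      congr 1
      unfold H
      rw [← sum_perm (fun y => Real.negMulLog (σ y)) (π t)]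
      exact Finset.sum_congr rfl fun y _ => by unfold Real.negMulLog; ring
    rw [Finset.sum_congr rfl (fun t _ => h1 t), ← Finset.sum_mul, hτ.2, one_mul]
  rw [hHρ, hHσ, ← Finset.sum_sub_distrib]
  refine Finset.sum_le_sum fun t _ => ?_
  rw [← Finset.sum_sub_distrib]
  have e : ∑ y, (√(σ ((π t).symm y)) - √(ρ y)) ^ 2 =
      ∑ y, (2 * σ ((π t).symm y) - 2 * (√(σ ((π t).symm y)) * √(ρ y))) := by
    have h1 : ∑ y, (√(σ ((π t).symm y)) - √(ρ y)) ^ 2 =
        ∑ y, ((σ ((π t).symm y) + ρ y) - 2 * (√(σ ((π t).symm y)) * √(ρ y))) := by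
      refine Finset.sum_congr rfl fun y _ => ?_
      have h2 := Real.sq_sqrt (hρ0 y)
      have h3 := Real.sq_sqrt (hσ.1 ((π t).symm y))
      calc (√(σ ((π t).symm y)) - √(ρ y)) ^ 2 = √(σ ((π t).symm y)) ^ 2 + √(ρ y) ^ 2 -
            2 * (√(σ ((π t).symm y)) * √(ρ y)) := by ring
        _ = _ := by rw [h2, h3]
    rw [h1, Finset.sum_sub_distrib, Finset.sum_add_distrib, hρ1, hs t, Finset.sum_sub_distrib,
      ← Finset.mul_sum, ← Finset.mul_sum, hs t]
    norm_num
  rw [e, Finset.mul_sum]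
  refine Finset.sum_le_sum fun y _ => ?_
  rcases (hτ.1 t).eq_or_lt with h0 | h0
  · rw [← h0]
    simp
  · have h1 := point (σ ((π t).symm y)) (ρ y) (hσ.1 _) (hρ0 _) (hpos t y h0)
    have h2 := mul_le_mul_of_nonneg_left h1 h0.le
    linarith

/-- two good permutations -/
theorem pair (π : Θ → Equiv.Perm V) (σ κ : V → ℝ) {δ : ℝ} (t t' : Θ)
    (h : ∑ y, (√(σ ((π t).symm y)) - √(κ y)) ^ 2 ≤ 2 * δ)
    (h' : ∑ y, (√(σ ((π t').symm y)) - √(κ y)) ^ 2 ≤ 2 * δ) :
    ∑ x, (√(σ (((π t')⁻¹ * π t) x)) - √(σ x)) ^ 2 ≤ 8 * δ := by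
  have h1 := sum_perm (fun x => (√(σ (((π t')⁻¹ * π t) x)) - √(σ x)) ^ 2) (π t)
  rw [← h1]
  have h2 : ∀ y, (√(σ (((π t')⁻¹ * π t) ((π t).symm y))) - √(σ ((π t).symm y))) ^ 2 ≤
      2 * (√(σ ((π t').symm y)) - √(κ y)) ^ 2 + 2 * (√(σ ((π t).symm y)) - √(κ y)) ^ 2 := by
    intro y
    have h3 : ((π t')⁻¹ * π t) ((π t).symm y) = (π t').symm y := by
      rw [Equiv.Perm.mul_apply, Equiv.apply_symm_apply]
      rfl
    rw [h3]
    nlinarith [sq_nonneg ((√(σ ((π t').symm y)) - √(κ y)) + (√(σ ((π t).symm y)) - √(κ y)))]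
  refine (Finset.sum_le_sum fun y _ => h2 y).trans ?_
  rw [Finset.sum_add_distrib, ← Finset.mul_sum, ← Finset.mul_sum]
  linarith

/-- products -/
theorem chain (f : V → ℝ) (c : ℝ) (l : List (Equiv.Perm V))
    (hl : ∀ g ∈ l, ∑ x, (f (g x) - f x) ^ 2 ≤ c) :
    ∑ x, (f (l.prod x) - f x) ^ 2 ≤ (l.length : ℝ) ^ 2 * c := by
  induction l with
  | nil => simp
  | cons g l ih =>
    have h1 := hl g (List.mem_cons_self)
    have h2 := ih (fun g' hg' => hl g' (List.mem_cons_of_mem _ hg'))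
    rcases Nat.eq_zero_or_pos l.length with h0 | h0
    · have h3 : l = [] := List.length_eq_zero_iff.1 h0
      subst h3
      simpa using h1
    · have hk : (0 : ℝ) < l.length := by exact_mod_cast h0
      obtain ⟨k, hkk⟩ : ∃ k : ℝ, k = l.length := ⟨_, rfl⟩
      rw [← hkk] at hk h2
      have h3 : ∀ x, (f ((g :: l).prod x) - f x) ^ 2 ≤
          (1 + k) * (f (g (l.prod x)) - f (l.prod x)) ^ 2 +
            (1 + 1 / k) * (f (l.prod x) - f x) ^ 2 := by
        intro x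
        rw [List.prod_cons, Equiv.Perm.mul_apply]
        have h4 : ∀ a b : ℝ, (a + b) ^ 2 ≤ (1 + k) * a ^ 2 + (1 + 1 / k) * b ^ 2 := by
          intro a b
          have h5 : 0 ≤ (k * a - b) ^ 2 / k := by positivity
          have h6 : (k * a - b) ^ 2 / k = k * a ^ 2 - 2 * a * b + 1 / k * b ^ 2 := by
            field_simp
            ring
          rw [h6] at h5
          nlinarith
        have h7 := h4 (f (g (l.prod x)) - f (l.prod x)) (f (l.prod x) - f x)
        rwa [sub_add_sub_cancel] at h7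
      refine (Finset.sum_le_sum fun x _ => h3 x).trans ?_
      rw [Finset.sum_add_distrib, ← Finset.mul_sum, ← Finset.mul_sum]
      have h4 : ∑ x, (f (g (l.prod x)) - f (l.prod x)) ^ 2 = ∑ x, (f (g x) - f x) ^ 2 :=
        Equiv.sum_comp l.prod (fun x => (f (g x) - f x) ^ 2)
      rw [h4, List.length_cons]
      push_cast
      rw [← hkk]
      have h5 : (1 + k) * ∑ x, (f (g x) - f x) ^ 2 ≤ (1 + k) * c :=
        mul_le_mul_of_nonneg_left h1 (by positivity)
      have h6 : (1 + 1 / k) * ∑ x, (f (l.prod x) - f x) ^ 2 ≤ (1 + 1 / k) * (k ^ 2 * c) :=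
        mul_le_mul_of_nonneg_left h2 (by positivity)
      have h7 : (1 + k) * c + (1 + 1 / k) * (k ^ 2 * c) = (k + 1) ^ 2 * c := by
        field_simp
        ring
      linarith

/-- a point which stays in `F` -/
theorem last (σ : V → ℝ) (hσ : IsP σ) (g : Equiv.Perm V)
    (hg : ∑ x, (√(σ (g x)) - √(σ x)) ^ 2 ≤ 1 / 16) (F : Finset V) (hF : 3 / 4 ≤ ∑ x ∈ F, σ x) :
    ∃ x, σ x ≠ 0 ∧ x ∈ F ∧ g x ∈ F := by
  by_contra hcon
  push Not at hcon
  have e1 : ∑ x, (if x ∈ F then σ x else 0) = ∑ x ∈ F, σ x := by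
    rw [Finset.sum_ite_mem, Finset.univ_inter]
  have e2 : ∑ x, (if g x ∈ F then σ (g x) else 0) = ∑ x ∈ F, σ x := by
    rw [← e1]
    exact Equiv.sum_comp g (fun x => if x ∈ F then σ x else 0)
  have h1 : ∑ x, ((if x ∈ F then σ x else 0) + (if g x ∈ F then σ x else 0)) ≤ ∑ x, σ x := by
    refine Finset.sum_le_sum fun x _ => ?_
    by_cases h0 : σ x = 0
    · simp [h0]
    · by_cases hx : x ∈ F
      · rw [if_pos hx, if_neg (hcon x h0 hx), add_zero]
      · rw [if_neg hx, zero_add]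
        split_ifs
        · exact le_rfl
        · exact hσ.1 x
  rw [Finset.sum_add_distrib, e1, hσ.2] at h1
  have h2 : ∑ x, (if g x ∈ F then σ (g x) else 0) ≤
      ∑ x, (3 / 2 * (if g x ∈ F then σ x else 0) + 3 * (√(σ (g x)) - √(σ x)) ^ 2) := by
    refine Finset.sum_le_sum fun x _ => ?_
    split_ifs
    · have h3 := Real.sq_sqrt (hσ.1 (g x))
      have h4 := Real.sq_sqrt (hσ.1 x)
      nlinarith [sq_nonneg (√(σ x) - 2 * (√(σ (g x)) - √(σ x)))]
    · nlinarith [sq_nonneg (√(σ (g x)) - √(σ x))]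
  rw [e2, Finset.sum_add_distrib, ← Finset.mul_sum, ← Finset.mul_sum] at h2
  linarith

/-- the entropy of `τ` -/
theorem ent (gib : GIB) [DecidableEq Θ] (τ : Θ → ℝ) (hτ : IsP τ) (T : Finset Θ)
    (hT : T.Nonempty) (hp : 1 / 2 ≤ ∑ t ∈ T, τ t) :
    Real.log (Fintype.card Θ) - Real.log T.card ≤
      2 * (Real.log (Fintype.card Θ) - H τ) + 2 := by
  have hT0 : (0 : ℝ) < T.card := by exact_mod_cast hT.card_pos
  have hle : (T.card : ℝ) ≤ Fintype.card Θ := by exact_mod_cast T.card_le_univ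
  have hΘ : (0 : ℝ) < Fintype.card Θ := hT0.trans_le hle
  obtain ⟨a, ha⟩ : ∃ a, a = Real.log (Fintype.card Θ) := ⟨_, rfl⟩
  obtain ⟨b, hb⟩ : ∃ b, b = Real.log T.card := ⟨_, rfl⟩
  have hab : b ≤ a := by
    rw [ha, hb]
    exact Real.log_le_log hT0 hle
  have e1 : ∑ t, (if t ∈ T then τ t else 0) = ∑ t ∈ T, τ t := by
    rw [Finset.sum_ite_mem, Finset.univ_inter]
  set r : Θ → ℝ := fun t => if t ∈ T then (2 * (T.card : ℝ))⁻¹ else (2 * (Fintype.card Θ : ℝ))⁻¹
    with hr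
  have hrpos : ∀ t, 0 < r t := by
    intro t
    rw [hr]
    dsimp only
    split_ifs <;> positivity
  have hr1 : ∑ t, r t ≤ 1 := by
    have h1 : ∑ t, r t ≤ ∑ t, ((if t ∈ T then (2 * (T.card : ℝ))⁻¹ else 0) +
        (2 * (Fintype.card Θ : ℝ))⁻¹) := by
      refine Finset.sum_le_sum fun t _ => ?_
      rw [hr]
      dsimp only
      split_ifs
      · have : (0 : ℝ) ≤ (2 * (Fintype.card Θ : ℝ))⁻¹ := by positivity
        linarith
      · linarith
    refine h1.trans ?_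
    rw [Finset.sum_add_distrib, Finset.sum_ite_mem, Finset.univ_inter, Finset.sum_const,
      Finset.sum_const, Finset.card_univ, nsmul_eq_mul, nsmul_eq_mul]
    have h2 : (T.card : ℝ) * (2 * (T.card : ℝ))⁻¹ = 1 / 2 := by field_simp
    have h3 : (Fintype.card Θ : ℝ) * (2 * (Fintype.card Θ : ℝ))⁻¹ = 1 / 2 := by field_simp
    rw [h2, h3]
    norm_num
  have h1 := gib Θ τ r hτ (fun t => (hrpos t).le) hr1 (fun t _ => hrpos t)
  have h2 : -∑ t, τ t * Real.log (r t) = Real.log 2 + a - (a - b) * ∑ t ∈ T, τ t := by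
    have h3 : ∀ t, τ t * Real.log (r t) =
        -(τ t * (Real.log 2 + a)) + (a - b) * (if t ∈ T then τ t else 0) := by
      intro t
      rw [hr]
      dsimp only
      split_ifs
      · rw [Real.log_inv, Real.log_mul (by norm_num) hT0.ne', ← hb]
        ring
      · rw [Real.log_inv, Real.log_mul (by norm_num) hΘ.ne', ← ha]
        ring
    rw [Finset.sum_congr rfl (fun t _ => h3 t), Finset.sum_add_distrib, Finset.sum_neg_distrib,
      ← Finset.sum_mul, hτ.2, ← Finset.mul_sum, e1]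
    ring
  rw [h2] at h1
  rw [← ha, ← hb]
  have h4 : Real.log 2 ≤ 1 := by
    have := Real.log_two_lt_d9
    linarith
  nlinarith [mul_le_mul_of_nonneg_left hp (sub_nonneg.2 hab)]

end FINSL

open FINSL in
theorem fins (gib : GIB) : FINS := by
  intro V Θ _ _ _ _ π σ τ δ hσ hτ h
  set D : Θ → ℝ := fun t => ∑ y, (√(σ ((π t).symm y)) - √(cv π σ τ y)) ^ 2 with hD
  have hD0 : ∀ t, 0 ≤ D t := fun t => Finset.sum_nonneg fun y _ => sq_nonneg _
  have hkey : ∑ t, τ t * D t ≤ δ := (key π σ τ hσ hτ).trans h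
  have hδ : 0 ≤ δ := (Finset.sum_nonneg fun t _ => mul_nonneg (hτ.1 t) (hD0 t)).trans hkey
  set T : Finset Θ := Finset.univ.filter fun t => D t ≤ 2 * δ with hT
  have hmem : ∀ t, t ∈ T ↔ D t ≤ 2 * δ := fun t => by
    rw [hT, Finset.mem_filter]
    exact ⟨fun h => h.2, fun h => ⟨Finset.mem_univ _, h⟩⟩
  have hsplit : ∑ t ∈ T, τ t + ∑ t ∈ Tᶜ, τ t = 1 := by
    rw [Finset.sum_add_sum_compl, hτ.2]
  have hp : 1 / 2 ≤ ∑ t ∈ T, τ t := by
    have h1 : ∑ t ∈ Tᶜ, τ t * D t ≤ δ :=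
      (Finset.sum_le_univ_sum_of_nonneg fun t => mul_nonneg (hτ.1 t) (hD0 t)).trans hkey
    rcases hδ.eq_or_lt with h0 | h0
    · have h2 : ∑ t ∈ Tᶜ, τ t = 0 := by
        refine Finset.sum_eq_zero fun t ht => ?_
        have h3 : ∑ t ∈ Tᶜ, τ t * D t = 0 := le_antisymm (by rw [← h0] at h1; exact h1)
          (Finset.sum_nonneg fun t _ => mul_nonneg (hτ.1 t) (hD0 t))
        have h4 := (Finset.sum_eq_zero_iff_of_nonneg
          (fun t _ => mul_nonneg (hτ.1 t) (hD0 t))).1 h3 t ht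
        have h5 : D t ≠ 0 := by
          intro h6
          refine (Finset.mem_compl.1 ht) ((hmem t).2 ?_)
          rw [h6]
          linarith
        rcases mul_eq_zero.1 h4 with h6 | h6
        · exact h6
        · exact absurd h6 h5
      linarith
    · have h2 : (∑ t ∈ Tᶜ, τ t) * (2 * δ) ≤ ∑ t ∈ Tᶜ, τ t * D t := by
        rw [Finset.sum_mul]
        refine Finset.sum_le_sum fun t ht => mul_le_mul_of_nonneg_left ?_ (hτ.1 t)
        have h3 : ¬ D t ≤ 2 * δ := fun h4 => (Finset.mem_compl.1 ht) ((hmem t).2 h4)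
        exact (not_le.1 h3).le
      have h3 : (∑ t ∈ Tᶜ, τ t) * (2 * δ) ≤ (1 / 2) * (2 * δ) := by linarith
      have h4 := le_of_mul_le_mul_right h3 (by linarith)
      linarith
  have hTne : T.Nonempty := by
    by_contra h1
    rw [Finset.not_nonempty_iff_eq_empty] at h1
    rw [h1, Finset.sum_empty] at hp
    norm_num at hp
  refine ⟨T, hTne, ent gib τ hτ T hTne hp, ?_⟩
  intro M g hM hg F hF
  refine last σ hσ _ ?_ F hF
  have h1 := chain (fun x => √(σ x)) (8 * δ) (List.ofFn g) (by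
    intro g' hg'
    rw [List.mem_ofFn] at hg'
    obtain ⟨i, rfl⟩ := hg'
    obtain ⟨t, ht, t', ht', he⟩ := hg i
    rw [he]
    exact pair π σ (cv π σ τ) t t' ((hmem t).1 ht) ((hmem t').1 ht'))
  rw [List.length_ofFn] at h1
  refine h1.trans ?_
  linarith

end Pool.Agent.H952.NA
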