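import Pool.Agent.H952.NA.Stm

/-!
# The group
-/

set_option autoImplicit false
set_option linter.unusedSectionVars false

namespace Pool.Agent.H952.NA

open Finset
open Pool.Agent.H98.BG (IsP H GIB)
open scoped Pointwise

section

variable {G : Type} [Group G] [DecidableEq G]

theorem card_pow_le (A : Finset G) (K : ℝ) (hA : A.Nonempty) (hs : A⁻¹ = A) (hK : 1 ≤ K)
    (h3 : ((A ^ 3).card : ℝ) ≤ K * A.card) (k m : ℕ) (hk : k ≤ m + 2) :
    ((A ^ k).card : ℝ) ≤ K ^ (m + 1) * A.card := by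
  have h0 : (0 : ℝ) < A.card := by exact_mod_cast hA.card_pos
  rcases lt_or_ge k 3 with h | h
  · have h1 : (A ^ k).card ≤ (A ^ 3).card := by
      have e : A ^ 3 = A ^ k * A ^ (3 - k) := by
        rw [← pow_add]
        congr 1
        omega
      rw [e]
      exact Finset.card_le_card_mul_right (hA.pow)
    have h2 : ((A ^ k).card : ℝ) ≤ (A ^ 3).card := by exact_mod_cast h1
    have h4 : K ≤ K ^ (m + 1) := by
      conv_lhs => rw [← pow_one K]
      exact pow_le_pow_right₀ hK (by omega)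
    calc ((A ^ k).card : ℝ) ≤ K * A.card := h2.trans h3
      _ ≤ K ^ (m + 1) * A.card := mul_le_mul_of_nonneg_right h4 h0.le
  · have h1 := Finset.small_pow_of_small_tripling h h3 hs
    refine h1.trans ?_
    exact mul_le_mul_of_nonneg_right (pow_le_pow_right₀ hK (by omega)) h0.le

theorem mem_pow_succ_left {A : Finset G} {k : ℕ} {t x : G} (ht : t ∈ A) (hx : x ∈ A ^ k) :
    t * x ∈ A ^ (k + 1) := by
  rw [pow_succ']
  exact Finset.mul_mem_mul ht hx

theorem inv_mem' {A : Finset G} (hs : A⁻¹ = A) {t : G} (ht : t ∈ A) : t⁻¹ ∈ A := by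
  rw [← hs]
  exact Finset.inv_mem_inv ht

theorem inv_pow_mem {A : Finset G} (hs : A⁻¹ = A) {k : ℕ} {t : G} (ht : t ∈ A ^ k) :
    t⁻¹ ∈ A ^ k := by
  have h : (A ^ k)⁻¹ = A ^ k := by rw [← inv_pow, hs]
  rw [← h]
  exact Finset.inv_mem_inv ht

end

/-- the data of `BALL` -/
structure Ball {G : Type} [Group G] [DecidableEq G] (A : Finset G) (N : ℕ) (V : Type)
    (ι : V → G) (π : {t // t ∈ A} → Equiv.Perm V) : Prop where
  inj : Function.Injective ι
  range : ∀ x : G, (∃ k ≤ N + 2, x ∈ A ^ k) ↔ x ∈ Set.range ι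
  act : ∀ (t : {t // t ∈ A}) (v : V), (∃ k ≤ N + 1, ι v ∈ A ^ k) → ι (π t v) = t.1 * ι v

section

variable {G : Type} [Group G] [DecidableEq G] {A : Finset G} {N : ℕ} {V : Type} [Fintype V]
  [DecidableEq V] {ι : V → G} {π : {t // t ∈ A} → Equiv.Perm V}

theorem Ball.act_symm (hb : Ball A N V ι π) (hs : A⁻¹ = A) (t : {t // t ∈ A}) (y : V) (k : ℕ)
    (hk : k ≤ N) (hy : ι y ∈ A ^ k) : ι ((π t).symm y) = t.1⁻¹ * ι y := by
  have h1 : t.1⁻¹ * ι y ∈ A ^ (k + 1) := mem_pow_succ_left (inv_mem' hs t.2) hy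
  obtain ⟨v, hv⟩ := (hb.range _).1 ⟨k + 1, by omega, h1⟩
  have h2 := hb.act t v ⟨k + 1, by omega, by rw [hv]; exact h1⟩
  rw [hv, mul_inv_cancel_left] at h2
  have h3 : π t v = y := hb.inj h2
  rw [← h3, Equiv.symm_apply_apply]
  rw [hv, h3]

/-- products of the permutations -/
theorem Ball.prod (hb : Ball A N V ι π) (hs : A⁻¹ = A) :
    ∀ (l : List ({t // t ∈ A} × {t // t ∈ A})) (x : V) (k : ℕ), k + 2 * l.length ≤ N →
      ι x ∈ A ^ k →
      ι ((l.map fun p => (π p.2)⁻¹ * π p.1).prod x) =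
        (l.map fun p => (p.2.1)⁻¹ * p.1.1).prod * ι x ∧
      (l.map fun p => (p.2.1)⁻¹ * p.1.1).prod * ι x ∈ A ^ (k + 2 * l.length) := by
  intro l
  induction l with
  | nil =>
    intro x k hk hx
    simpa using hx
  | cons p l ih =>
    intro x k hk hx
    simp only [List.length_cons] at hk
    obtain ⟨h1, h2⟩ := ih x k (by omega) hx
    simp only [List.map_cons, List.prod_cons, List.length_cons, Equiv.Perm.mul_apply]
    set y := (l.map fun p => (π p.2)⁻¹ * π p.1).prod x with hy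
    have h3 : ι y ∈ A ^ (k + 2 * l.length) := by rw [h1]; exact h2
    have h4 := hb.act p.1 y ⟨k + 2 * l.length, by omega, h3⟩
    have h5 : ι (π p.1 y) ∈ A ^ (k + 2 * l.length + 1) := by
      rw [h4]
      exact mem_pow_succ_left p.1.2 h3
    have h6 := hb.act_symm hs p.2 (π p.1 y) (k + 2 * l.length + 1) (by omega) h5
    have h7 : (π p.2)⁻¹ (π p.1 y) = (π p.2).symm (π p.1 y) := rfl
    constructor
    · rw [h7, h6, h4, h1]
      simp only [mul_assoc]
    · have h8 : (p.2.1)⁻¹ * ι (π p.1 y) ∈ A ^ (k + 2 * l.length + 1 + 1) :=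
        mem_pow_succ_left (inv_mem' hs p.2.2) h5
      rw [h4, h1] at h8
      have e : k + 2 * l.length + 1 + 1 = k + 2 * (l.length + 1) := by ring
      rw [e] at h8
      simpa only [mul_assoc] using h8

/-- the elements of `V` in `A ^ k` -/
noncomputable def EV (A : Finset G) (ι : V → G) (k : ℕ) : Finset V :=
  univ.filter fun v => ι v ∈ A ^ k

/-- the relation -/
noncomputable def BV (A : Finset G) (ι : V → G) : Finset (V × V) :=
  univ.filter fun p => (ι p.1)⁻¹ * ι p.2 ∈ A ^ 2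

theorem mem_EV (k : ℕ) (v : V) : v ∈ EV A ι k ↔ ι v ∈ A ^ k := by
  simp [EV]

theorem mem_BV (x y : V) : (x, y) ∈ BV A ι ↔ (ι x)⁻¹ * ι y ∈ A ^ 2 := by
  simp [BV]

theorem card_EV (hb : Ball A N V ι π) (k : ℕ) : (EV A ι k).card ≤ (A ^ k).card := by
  apply Finset.card_le_card_of_injOn ι
  · intro v hv
    exact (mem_EV k v).1 hv
  · intro x _ y _ h
    exact hb.inj h

theorem card_EV_eq (hb : Ball A N V ι π) (k : ℕ) (hk : k ≤ N + 2) :
    (EV A ι k).card = (A ^ k).card := by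
  have h : (EV A ι k).image ι = A ^ k := by
    ext x
    rw [mem_image]
    constructor
    · rintro ⟨v, hv, rfl⟩
      exact (mem_EV k v).1 hv
    · intro hx
      obtain ⟨v, rfl⟩ := (hb.range x).1 ⟨k, hk, hx⟩
      exact ⟨v, (mem_EV k v).2 hx, rfl⟩
  rw [← h, card_image_of_injective _ hb.inj]

theorem dom (hb : Ball A N V ι π) (hA : A.Nonempty) (hs : A⁻¹ = A) (K : ℝ) (hK : 1 ≤ K)
    (h3 : ((A ^ 3).card : ℝ) ≤ K * A.card) (n : ℕ) (hN : 2 * n + 5 ≤ N) :
    Dom π (EV A ι 1) (BV A ι) (fun i => EV A ι (2 * i + 1)) ((2 * n + 4 : ℕ) * Real.log K) n := by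
  have hK0 : 0 < K := by linarith
  have hcA : (EV A ι 1).card = A.card := by
    rw [card_EV_eq hb 1 (by omega), pow_one]
  have hexp : ∀ j : ℕ, Real.exp ((j : ℝ) * Real.log K) = K ^ j := by
    intro j
    rw [Real.exp_nat_mul, Real.exp_log hK0]
  obtain ⟨a0, ha0⟩ := hA
  refine ⟨?_, ?_, ?_, ?_, ?_, ?_, ?_, ?_, ?_⟩
  · simp
  · intro i x hx
    rw [mem_EV] at hx ⊢
    have h1 := mem_pow_succ_left (inv_mem' hs ha0) (mem_pow_succ_left ha0 hx)
    rw [inv_mul_cancel_left] at h1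
    exact h1
  · intro x hx y hy
    rw [mem_EV, pow_one] at hx hy
    rw [mem_BV, pow_two]
    exact Finset.mul_mem_mul (inv_mem' hs hx) hy
  · intro x y
    rw [mem_BV, mem_BV]
    constructor
    · intro h
      have := inv_pow_mem hs h
      rwa [mul_inv_rev, inv_inv] at this
    · intro h
      have := inv_pow_mem hs h
      rwa [mul_inv_rev, inv_inv] at this
  · intro i s hx x h
    rw [mem_EV] at hx ⊢
    rw [mem_BV] at h
    have h1 := Finset.mul_mem_mul hx (inv_pow_mem hs h)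
    rw [mul_inv_rev, inv_inv, mul_inv_cancel_left, ← pow_add] at h1
    exact h1
  · intro i hi t t' x hx
    rw [mem_EV] at hx ⊢
    have h1 := hb.act t x ⟨2 * (i + 1) + 1, by omega, hx⟩
    have h2 : ι (π t x) ∈ A ^ (2 * (i + 1) + 1 + 1) := by
      rw [h1]
      exact mem_pow_succ_left t.2 hx
    rw [hb.act_symm hs t' (π t x) _ (by omega) h2]
    exact mem_pow_succ_left (inv_mem' hs t'.2) h2
  · intro i hi t x hx s hs'
    rw [mem_EV] at hx hs'
    rw [mem_BV, mem_BV, hb.act t x ⟨_, by omega, hx⟩, hb.act t s ⟨_, by omega, hs'⟩]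
    rw [mul_inv_rev, mul_assoc, inv_mul_cancel_left]
  · refine ⟨EV A ι 2, ?_, ?_⟩
    · intro t a ha
      rw [mem_EV] at ha ⊢
      rw [hb.act t a ⟨1, by omega, ha⟩]
      exact mem_pow_succ_left t.2 ha
    · rw [hcA, hexp]
      have h1 := card_EV hb 2
      have h2 : ((EV A ι 2).card : ℝ) ≤ (A ^ 2).card := by exact_mod_cast h1
      exact h2.trans (card_pow_le A K ⟨a0, ha0⟩ hs hK h3 2 (2 * n + 3) (by omega))
  · intro i hi
    rw [hcA, hexp]
    have h1 := card_EV hb (2 * i + 1)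
    have h2 : ((EV A ι (2 * i + 1)).card : ℝ) ≤ (A ^ (2 * i + 1)).card := by exact_mod_cast h1
    exact h2.trans (card_pow_le A K ⟨a0, ha0⟩ hs hK h3 (2 * i + 1) (2 * n + 3) (by omega))

end

/-- the group version with parameters -/
theorem grp (ball : BALL) (core : CORE) (fins : FINS) (G : Type) [Group G] [DecidableEq G]
    (A : Finset G) (K : ℝ) (M n q : ℕ) (hA : A.Nonempty) (hs : A⁻¹ = A) (hK : 1 ≤ K)
    (h3 : ((A ^ 3).card : ℝ) ≤ K * A.card) (hn : 1 ≤ n)
    (hq : 8 * ((2 * n + 4 : ℕ) * Real.log K) + n + 1 ≤ q)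
    (hM : 128 * (M : ℝ) ^ 2 * ((3 * n + 1) * (q : ℝ) / 2 ^ n) ≤ 1) :
    ∃ S : Finset G, 1 ∈ S ∧ S⁻¹ = S ∧ S ^ M ⊆ A ^ 4 ∧
      Real.log A.card - (2 * ((3 * n + 1) * (q : ℝ) ^ 2) + 2) ≤ Real.log S.card := by
  obtain ⟨V, _, _, ι, π, h1, h2, h4⟩ := ball G A (2 * n + 2 * M + 10)
  have hb : Ball A (2 * n + 2 * M + 10) V ι π := ⟨h1, h2, h4⟩
  have hd := dom hb hA hs K hK h3 n (by omega)
  have hlam : 0 ≤ ((2 * n + 4 : ℕ) : ℝ) * Real.log K :=
    mul_nonneg (Nat.cast_nonneg _) (Real.log_nonneg hK)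
  have hAV : (EV A ι 1).Nonempty := by
    rw [← Finset.card_pos, card_EV_eq hb 1 (by omega), pow_one]
    exact hA.card_pos
  have hne : Nonempty {t // t ∈ A} := ⟨⟨hA.choose, hA.choose_spec⟩⟩
  obtain ⟨σ, τ, s₀, hσ, hτ, hσE, hs₀, hF, hD, hc⟩ := core V {t // t ∈ A} π (EV A ι 1) (BV A ι)
    (fun i => EV A ι (2 * i + 1)) ((2 * n + 4 : ℕ) * Real.log K) q n hne hAV hlam hq hd hn
  obtain ⟨T, hTne, hT, hprod⟩ := fins V {t // t ∈ A} π σ τ _ hσ hτ hc
  have hcard : Fintype.card {t // t ∈ A} = A.card := Fintype.card_coe A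
  rw [hcard] at hT hD
  set S : Finset G := (T ×ˢ T).image fun p => (ι s₀)⁻¹ * ((p.2.1)⁻¹ * p.1.1) * ι s₀ with hS
  have hmem : ∀ x ∈ S, ∃ p ∈ T ×ˢ T, (ι s₀)⁻¹ * ((p.2.1)⁻¹ * p.1.1) * ι s₀ = x := by
    intro x hx
    rw [hS, mem_image] at hx
    exact hx
  obtain ⟨t0, ht0⟩ := hTne
  refine ⟨S, ?_, ?_, ?_, ?_⟩
  · rw [hS, mem_image]
    exact ⟨(t0, t0), mem_product.2 ⟨ht0, ht0⟩, by simp⟩
  · ext x
    rw [Finset.mem_inv']
    constructor
    · intro hx
      obtain ⟨p, hp, he⟩ := hmem _ hx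
      rw [hS, mem_image]
      refine ⟨(p.2, p.1), mem_product.2 ⟨(mem_product.1 hp).2, (mem_product.1 hp).1⟩, ?_⟩
      rw [← inv_inv x, ← he]
      simp [mul_assoc]
    · intro hx
      obtain ⟨p, hp, he⟩ := hmem _ hx
      rw [hS, mem_image]
      refine ⟨(p.2, p.1), mem_product.2 ⟨(mem_product.1 hp).2, (mem_product.1 hp).1⟩, ?_⟩
      rw [← he]
      simp [mul_assoc]
  · intro x hx
    obtain ⟨f, hf⟩ := Finset.mem_pow.1 hx
    choose p hp hpe using fun i : Fin M => hmem _ (f i).2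
    -- the permutations
    obtain ⟨y, hy0, hyF, hgF⟩ := hprod M (fun i => (π (p i).2)⁻¹ * π (p i).1) hM
      (fun i => ⟨(p i).1, (mem_product.1 (hp i)).1, (p i).2, (mem_product.1 (hp i)).2, rfl⟩)
      (univ.filter fun y => (s₀, y) ∈ BV A ι) (by
        rw [Finset.sum_filter]
        exact hF)
    rw [mem_filter] at hyF hgF
    have hyE := hσE y hy0
    rw [mem_EV] at hyE
    have hl : List.ofFn (fun i => (π (p i).2)⁻¹ * π (p i).1) =
        (List.ofFn p).map fun p => (π p.2)⁻¹ * π p.1 := by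
      rw [List.map_ofFn]
      rfl
    have hl2 : ((List.ofFn p).map fun p => (p.2.1)⁻¹ * p.1.1) =
        List.ofFn (fun i => ((p i).2.1)⁻¹ * (p i).1.1) := by
      rw [List.map_ofFn]
      rfl
    have hpr := hb.prod hs (List.ofFn p) y (2 * n + 1) (by rw [List.length_ofFn]; omega) hyE
    rw [← hl, hl2] at hpr
    set u : G := (List.ofFn (fun i => ((p i).2.1)⁻¹ * (p i).1.1)).prod with hu
    have h5 := (mem_BV s₀ y).1 hyF.2
    have h6 := (mem_BV s₀ _).1 hgF.2
    rw [hpr.1] at h6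
    -- the conjugate
    have h7 : x = (ι s₀)⁻¹ * u * ι s₀ := by
      rw [← hf]
      have h8 : ∀ l : List ({t // t ∈ A} × {t // t ∈ A}),
          (l.map fun p => (ι s₀)⁻¹ * ((p.2.1)⁻¹ * p.1.1) * ι s₀).prod =
            (ι s₀)⁻¹ * (l.map fun p => (p.2.1)⁻¹ * p.1.1).prod * ι s₀ := by
        intro l
        induction l with
        | nil => simp
        | cons a l ih =>
          rw [List.map_cons, List.prod_cons, ih, List.map_cons, List.prod_cons]
          simp [mul_assoc]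
      have h9 : List.ofFn (fun i => ((f i : S) : G)) =
          (List.ofFn p).map fun p => (ι s₀)⁻¹ * ((p.2.1)⁻¹ * p.1.1) * ι s₀ := by
        rw [List.map_ofFn]
        congr 1
        funext i
        exact (hpe i).symm
      rw [h9, h8, hl2]
    have h8 : x = (ι s₀)⁻¹ * (u * ι y) * ((ι s₀)⁻¹ * ι y)⁻¹ := by
      rw [h7]
      simp [mul_assoc]
    rw [h8, show 4 = 2 + 2 from rfl, pow_add]
    exact Finset.mul_mem_mul h6 (inv_pow_mem hs h5)
  · have hTS : T.card ≤ S.card := by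
      apply Finset.card_le_card_of_injOn (fun t => (ι s₀)⁻¹ * ((t0.1)⁻¹ * t.1) * ι s₀)
      · intro t ht
        rw [hS, Finset.mem_coe, mem_image]
        exact ⟨(t, t0), mem_product.2 ⟨ht, ht0⟩, rfl⟩
      · intro x _ y _ h
        have := mul_left_cancel (mul_left_cancel (mul_right_cancel h))
        exact Subtype.ext this
    have hT0 : (0 : ℝ) < T.card := by
      exact_mod_cast Finset.card_pos.2 ⟨t0, ht0⟩
    have h10 : Real.log T.card ≤ Real.log S.card :=
      Real.log_le_log hT0 (by exact_mod_cast hTS)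
    linarith

end Pool.Agent.H952.NA
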