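import Pool.Agent.H952.NA.Grp

/-!
# The choice of the parameters; commuting sets
-/

set_option autoImplicit false
set_option linter.unusedSectionVars false

namespace Pool.Agent.H952.NA

open Finset
open Pool.Agent.H98.BG (IsP H GIB)
open scoped Pointwise

/-- large sets with `S ^ M ⊆ A ^ 4` -/
def POW : Prop := ∃ C : ℝ, 1 ≤ C ∧ ∀ (G : Type) [Group G] [DecidableEq G] (A : Finset G) (K : ℝ)
  (M : ℕ), A.Nonempty → A⁻¹ = A → 1 ≤ K → ((A ^ 3).card : ℝ) ≤ K * A.card → 1 ≤ M →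
  ∃ S : Finset G, 1 ∈ S ∧ S⁻¹ = S ∧ S ^ M ⊆ A ^ 4 ∧
    (A.card : ℝ) * Real.exp (-(C * (1 + Real.log K) ^ 2 *
      (1 + Real.log M + Real.log (1 + Real.log K)) ^ 3)) ≤ S.card

theorem exp13 : (393216 : ℝ) ≤ Real.exp 13 := by
  have h1 : (2.718 : ℝ) ≤ Real.exp 1 := by
    have := Real.exp_one_gt_d9
    linarith
  have h2 : (2.718 : ℝ) ^ 13 ≤ Real.exp 1 ^ 13 := pow_le_pow_left₀ (by norm_num) h1 13
  have h3 : Real.exp 1 ^ 13 = Real.exp 13 := by
    rw [← Real.exp_nat_mul]
    norm_num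
  rw [h3] at h2
  exact le_trans (by norm_num) h2

theorem param (n : ℕ) (M L lamb : ℝ) (hM : 1 ≤ M) (hL : 1 ≤ L)
    (hl : lamb = 1 + Real.log M + Real.log L) (hn : 40 * lamb ≤ n) :
    12288 * (n : ℝ) ^ 2 * M ^ 2 * L ≤ 2 ^ n := by
  have hM0 : 0 < M := by linarith
  have hL0 : 0 < L := by linarith
  have hlM : 0 ≤ Real.log M := Real.log_nonneg hM
  have hlL : 0 ≤ Real.log L := Real.log_nonneg hL
  have hl1 : 1 ≤ lamb := by rw [hl]; linarith
  have hn0 : (0 : ℝ) ≤ n := Nat.cast_nonneg n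
  have h1 : (n : ℝ) ^ 2 ≤ 32 * Real.exp (n / 4) := by
    have := Real.quadratic_le_exp_of_nonneg (x := (n : ℝ) / 4) (by positivity)
    nlinarith
  have h2 : M ^ 2 * L ≤ Real.exp (n / 20) := by
    have e : M ^ 2 * L = Real.exp (2 * Real.log M + Real.log L) := by
      rw [Real.exp_add, Real.exp_log hL0, two_mul, Real.exp_add, Real.exp_log hM0]
      ring
    rw [e]
    apply Real.exp_le_exp.2
    linarith
  have h3 : (393216 : ℝ) ≤ Real.exp (13 * n / 40) := by
    refine exp13.trans (Real.exp_le_exp.2 ?_)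
    linarith
  have h4 : (2 : ℝ) ^ n = Real.exp (n * Real.log 2) := by
    rw [Real.exp_nat_mul, Real.exp_log (by norm_num)]
  have h5 : Real.exp (13 * n / 40) * Real.exp (n / 4) * Real.exp (n / 20) ≤ (2 : ℝ) ^ n := by
    rw [h4, ← Real.exp_add, ← Real.exp_add]
    apply Real.exp_le_exp.2
    have := Real.log_two_gt_d9
    nlinarith
  calc 12288 * (n : ℝ) ^ 2 * M ^ 2 * L = 12288 * (n : ℝ) ^ 2 * (M ^ 2 * L) := by ring
    _ ≤ 12288 * (32 * Real.exp (n / 4)) * Real.exp (n / 20) := by gcongr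
    _ = 393216 * Real.exp (n / 4) * Real.exp (n / 20) := by ring
    _ ≤ Real.exp (13 * n / 40) * Real.exp (n / 4) * Real.exp (n / 20) := by gcongr
    _ ≤ 2 ^ n := h5

theorem pow (ball : BALL) (core : CORE) (fins : FINS) : POW := by
  refine ⟨400000000, by norm_num, ?_⟩
  intro G _ _ A K M hA hs hK h3 hM
  set L : ℝ := 1 + Real.log K with hLdef
  have hlK : 0 ≤ Real.log K := Real.log_nonneg hK
  have hL : 1 ≤ L := by linarith
  have hMr : (1 : ℝ) ≤ M := by exact_mod_cast hM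
  have hlM : 0 ≤ Real.log M := Real.log_nonneg hMr
  have hlL : 0 ≤ Real.log L := Real.log_nonneg hL
  set lamb : ℝ := 1 + Real.log M + Real.log L with hlamb
  have hlamb1 : 1 ≤ lamb := by linarith
  set n : ℕ := ⌈40 * lamb⌉₊ with hn
  have hn1 : 40 * lamb ≤ n := Nat.le_ceil _
  have hn2 : (n : ℝ) ≤ 41 * lamb := by
    have := (Nat.ceil_lt_add_one (a := 40 * lamb) (by linarith)).le
    linarith
  have hn40 : (40 : ℝ) ≤ n := by linarith
  have hnN : 1 ≤ n := by
    have : (1 : ℝ) ≤ n := by linarith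
    exact_mod_cast this
  set q : ℕ := ⌈8 * ((2 * n + 4 : ℕ) * Real.log K) + n + 1⌉₊ with hq
  have hq1 : 8 * ((2 * n + 4 : ℕ) * Real.log K) + n + 1 ≤ q := Nat.le_ceil _
  have hq2 : (q : ℝ) ≤ 24 * n * L := by
    have h1 := (Nat.ceil_lt_add_one (a := 8 * ((2 * n + 4 : ℕ) * Real.log K) + n + 1)
      (by positivity)).le
    rw [← hq] at h1
    have h2 : (((2 * n + 4 : ℕ) : ℝ)) = 2 * n + 4 := by push_cast; ring
    rw [h2] at h1
    have h4 : (2 * (n : ℝ) + 4) * Real.log K ≤ 3 * n * Real.log K :=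
      mul_le_mul_of_nonneg_right (by linarith) hlK
    rw [hLdef]
    nlinarith
  have hq0 : (0 : ℝ) ≤ q := Nat.cast_nonneg q
  have hn0 : (0 : ℝ) ≤ n := Nat.cast_nonneg n
  have hpar := param n M L lamb hMr hL hlamb hn1
  have h2n : (0 : ℝ) < 2 ^ n := by positivity
  obtain ⟨S, h1, h2, h4, h5⟩ := grp ball core fins G A K M n q hA hs hK h3 hnN hq1 (by
    rw [← mul_div_assoc, div_le_one h2n]
    calc 128 * (M : ℝ) ^ 2 * ((3 * n + 1) * q) ≤ 128 * (M : ℝ) ^ 2 * ((4 * n) * (24 * n * L)) := by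
          gcongr
          linarith
      _ = 12288 * (n : ℝ) ^ 2 * M ^ 2 * L := by ring
      _ ≤ 2 ^ n := hpar)
  refine ⟨S, h1, h2, h4, ?_⟩
  have hA0 : (0 : ℝ) < A.card := by exact_mod_cast hA.card_pos
  have hS0 : (0 : ℝ) < S.card := by exact_mod_cast Finset.card_pos.2 ⟨1, h1⟩
  have h6 : 2 * ((3 * n + 1) * (q : ℝ) ^ 2) + 2 ≤ 400000000 * L ^ 2 * lamb ^ 3 := by
    have a1 : (q : ℝ) ^ 2 ≤ (24 * n * L) ^ 2 := pow_le_pow_left₀ hq0 hq2 2
    have a2 : (3 * (n : ℝ) + 1) * (q : ℝ) ^ 2 ≤ (4 * n) * (24 * n * L) ^ 2 := by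
      gcongr
      linarith
    have a3 : (n : ℝ) ^ 3 ≤ (41 * lamb) ^ 3 := pow_le_pow_left₀ hn0 hn2 3
    have a4 : (2304 : ℝ) * n ^ 3 * L ^ 2 ≤ 2304 * (41 * lamb) ^ 3 * L ^ 2 := by gcongr
    have a5 : (1 : ℝ) ≤ L ^ 2 * lamb ^ 3 := by
      have b1 : (1 : ℝ) ≤ L ^ 2 := one_le_pow₀ hL
      have b2 : (1 : ℝ) ≤ lamb ^ 3 := one_le_pow₀ hlamb1
      nlinarith
    nlinarith
  have h7 : Real.log A.card + -(400000000 * L ^ 2 * lamb ^ 3) ≤ Real.log S.card := by linarith
  have h8 := Real.exp_le_exp.2 h7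
  rwa [Real.exp_add, Real.exp_log hA0, Real.exp_log hS0] at h8

theorem one_mem4 {G : Type} [Group G] [DecidableEq G] (A : Finset G) (hs : A⁻¹ = A) {a b : G}
    (ha : a ∈ A) (hb : b ∈ A) : (1 : G) ∈ A ^ 4 ∧ a⁻¹ * b ∈ A ^ 4 := by
  have ha' := inv_mem' hs ha
  have h2 : (1 : G) ∈ A ^ 2 := by
    rw [pow_two]
    have := Finset.mul_mem_mul ha ha'
    rwa [mul_inv_cancel] at this
  have h3 : a⁻¹ * b ∈ A ^ 2 := by
    rw [pow_two]
    exact Finset.mul_mem_mul ha' hb
  rw [show 4 = 2 + 2 from rfl, pow_add]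
  constructor
  · have := Finset.mul_mem_mul h2 h2
    rwa [one_mul] at this
  · have := Finset.mul_mem_mul h2 h3
    rwa [one_mul] at this

/-- large commuting sets in `A ^ 4` -/
def COMM : Prop := ∃ c : ℝ, 0 < c ∧ ∀ (G : Type) [Group G] [DecidableEq G] (A : Finset G) (K : ℝ),
  A.Nonempty → A⁻¹ = A → 1 ≤ K → ((A ^ 3).card : ℝ) ≤ K * A.card →
  (∀ g ∈ A ^ 4, g ≠ 1 → ∀ i : ℕ, 0 < i →
    (i : ℝ) < Real.exp (c * Real.log A.card ^ (1 / 3 : ℝ) / Real.log (2 * K)) → g ^ i ≠ 1) →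
  ∃ T : Finset G, T ⊆ A ^ 4 ∧ (∀ x ∈ T, ∀ y ∈ T, x * y = y * x) ∧
    Real.exp (c * Real.log A.card ^ (1 / 3 : ℝ) / Real.log (2 * K)) ≤ T.card

theorem ineq (C L l y u a : ℝ) (hC : 1 ≤ C) (hL : 1 ≤ L) (hl : 69 / 100 * L ≤ l)
    (hu : 69 / 100 < u) (hy : u = (1 / (10 * C)) * y / l) (ha0 : 0 ≤ a)
    (ha : a ≤ 2 + u + Real.log L) : C * L ^ 2 * a ^ 3 < y ^ 3 := by
  have hL0 : 0 < L := by linarith
  have hl0 : 0 < l := by nlinarith
  have hC0 : 0 < C := by linarith
  have hy' : y = 10 * C * l * u := by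
    rw [hy]
    field_simp
  obtain ⟨v, hv1, hv⟩ : ∃ v : ℝ, 1 ≤ v ∧ v ^ 3 = L := by
    refine ⟨L ^ (1 / 3 : ℝ), Real.one_le_rpow hL (by norm_num), ?_⟩
    rw [← Real.rpow_natCast, ← Real.rpow_mul hL0.le]
    norm_num
  have hv0 : 0 < v := by linarith
  have h1 : Real.log L ≤ 3 * (v - 1) := by
    rw [← hv, Real.log_pow]
    have := Real.log_le_sub_one_of_pos hv0
    push_cast
    linarith
  have h2 : a ≤ u * (5 * v) := by
    have h3 : 2 + u + Real.log L ≤ u * (5 * v) := by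
      nlinarith
    linarith
  have h3 : a ^ 3 ≤ (u * (5 * v)) ^ 3 := pow_le_pow_left₀ ha0 h2 3
  have h4 : (u * (5 * v)) ^ 3 = 125 * u ^ 3 * L := by
    rw [← hv]
    ring
  have hu0 : 0 < u := by linarith
  have h5 : (69 / 100 * L) ^ 3 ≤ l ^ 3 := pow_le_pow_left₀ (by positivity) hl 3
  have h6 : C * L ^ 2 * a ^ 3 ≤ C * L ^ 2 * (125 * u ^ 3 * L) := by
    rw [← h4]
    gcongr
  have h7 : C ≤ C ^ 3 := by
    nlinarith [mul_nonneg hC0.le (sub_nonneg.2 hC), sq_nonneg (C - 1)]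
  have h8 : y ^ 3 = 1000 * C ^ 3 * l ^ 3 * u ^ 3 := by rw [hy']; ring
  have h9 : 1000 * C * (69 / 100 * L) ^ 3 * u ^ 3 ≤ y ^ 3 := by
    rw [h8]
    gcongr
  have h10 : C * L ^ 2 * (125 * u ^ 3 * L) < 1000 * C * (69 / 100 * L) ^ 3 * u ^ 3 := by
    have h11 : 0 < C * L ^ 3 * u ^ 3 := by positivity
    nlinarith
  linarith

theorem comm (pow : POW) : COMM := by
  obtain ⟨C, hC, hpow⟩ := pow
  have hC0 : 0 < C := by linarith
  refine ⟨1 / (10 * C), by positivity, ?_⟩
  intro G _ _ A K hA hs hK h3 hord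
  set X : ℝ := Real.log A.card with hX
  have hA0 : (0 : ℝ) < A.card := by exact_mod_cast hA.card_pos
  have hA1 : (1 : ℝ) ≤ A.card := by exact_mod_cast hA.card_pos
  have hX0 : 0 ≤ X := Real.log_nonneg hA1
  set y : ℝ := X ^ (1 / 3 : ℝ) with hy
  have hy0 : 0 ≤ y := Real.rpow_nonneg hX0 _
  have hy3 : y ^ 3 = X := by
    rw [hy, ← Real.rpow_natCast, ← Real.rpow_mul hX0]
    norm_num
  set u : ℝ := 1 / (10 * C) * y / Real.log (2 * K) with hu
  have hlK : 0 ≤ Real.log K := Real.log_nonneg hK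
  have hl : Real.log (2 * K) = Real.log 2 + Real.log K :=
    Real.log_mul (by norm_num) (by linarith)
  have hl2 := Real.log_two_gt_d9
  have hu0 : 0 ≤ u := by
    rw [hu]
    apply div_nonneg (by positivity)
    rw [hl]
    linarith
  obtain ⟨a, ha⟩ := hA
  rcases le_or_gt u (69 / 100) with hu1 | hu1
  · -- small sets
    have hE : Real.exp u ≤ 2 := by
      calc Real.exp u ≤ Real.exp (Real.log 2) := Real.exp_le_exp.2 (by linarith)
        _ = 2 := Real.exp_log (by norm_num)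
    by_cases h1 : A.card = 1
    · refine ⟨{1}, ?_, ?_, ?_⟩
      · intro x hx
        rw [mem_singleton] at hx
        rw [hx]
        exact (one_mem4 A hs ha ha).1
      · intro x hx z hz
        rw [mem_singleton] at hx hz
        rw [hx, hz]
      · have hXz : X = 0 := by rw [hX, h1]; simp
        have hyz : y = 0 := by
          rw [hy, hXz]
          exact Real.zero_rpow (by norm_num)
        rw [hu, hyz]
        simp
    · obtain ⟨b, hb, hab⟩ : ∃ b ∈ A, b ≠ a := by
        by_contra hcon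
        push Not at hcon
        apply h1
        rw [Finset.card_eq_one]
        refine ⟨a, ?_⟩
        ext z
        rw [mem_singleton]
        exact ⟨fun hz => hcon z hz, fun hz => hz ▸ ha⟩
      have hne : (1 : G) ≠ a⁻¹ * b := by
        intro h
        apply hab
        have := congrArg (fun z => a * z) h
        simpa using this.symm
      refine ⟨{1, a⁻¹ * b}, ?_, ?_, ?_⟩
      · intro x hx
        rw [mem_insert, mem_singleton] at hx
        rcases hx with rfl | rfl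
        · exact (one_mem4 A hs ha hb).1
        · exact (one_mem4 A hs ha hb).2
      · intro x hx z hz
        rw [mem_insert, mem_singleton] at hx hz
        rcases hx with rfl | rfl <;> rcases hz with rfl | rfl <;> simp
      · rw [Finset.card_pair hne]
        push_cast
        exact hE
  · -- large sets
    set E : ℝ := Real.exp u with hE
    have hE1 : 1 ≤ E := Real.one_le_exp hu0
    set M : ℕ := ⌈E⌉₊ with hM
    have hM1 : E ≤ M := Nat.le_ceil _
    have hM2 : (M : ℝ) ≤ E + 1 := (Nat.ceil_lt_add_one (by linarith)).le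
    have hM3 : 1 ≤ M := by
      have : (1 : ℝ) ≤ M := by linarith
      exact_mod_cast this
    obtain ⟨S, h1S, hSs, hSM, hScard⟩ := hpow G A K M ⟨a, ha⟩ hs hK h3 hM3
    set L : ℝ := 1 + Real.log K with hLdef
    have hL : 1 ≤ L := by linarith
    have hlogM : Real.log M ≤ 1 + u := by
      have h4 : (M : ℝ) ≤ 2 * E := by linarith
      have h5 := Real.log_le_log (by linarith : (0 : ℝ) < M) h4
      rw [Real.log_mul (by norm_num) (by linarith), hE, Real.log_exp] at h5
      have := Real.log_two_lt_d9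
      linarith
    have hlogM0 : 0 ≤ Real.log M := Real.log_nonneg (by exact_mod_cast hM3)
    have hlogL0 : 0 ≤ Real.log L := Real.log_nonneg hL
    have hkey := ineq C L (Real.log (2 * K)) y u (1 + Real.log M + Real.log L) hC hL
      (by rw [hl, hLdef]; nlinarith) hu1 hu (by linarith) (by linarith)
    rw [hy3] at hkey
    have hS1 : 1 < S.card := by
      have h4 : (A.card : ℝ) = Real.exp X := by rw [hX, Real.exp_log hA0]
      rw [h4, ← Real.exp_add] at hScard
      have h5 : (1 : ℝ) < S.card := by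
        refine lt_of_lt_of_le ?_ hScard
        exact Real.one_lt_exp_iff.2 (by linarith)
      exact_mod_cast h5
    obtain ⟨s, hs1, hs2⟩ : ∃ s ∈ S, s ≠ 1 := by
      by_contra hcon
      push Not at hcon
      have : S ⊆ {1} := fun z hz => mem_singleton.2 (hcon z hz)
      have := Finset.card_le_card this
      rw [card_singleton] at this
      omega
    have hs4 : s ∈ A ^ 4 := by
      apply hSM
      have h4 : s ^ 1 * 1 ^ (M - 1) ∈ S ^ 1 * S ^ (M - 1) :=
        Finset.mul_mem_mul (Finset.pow_mem_pow hs1) (Finset.pow_mem_pow h1S)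
      rwa [one_pow, mul_one, ← pow_add, Nat.add_sub_cancel' hM3, pow_one] at h4
    refine ⟨(range M).image fun i => s ^ i, ?_, ?_, ?_⟩
    · intro x hx
      obtain ⟨i, hi, rfl⟩ := mem_image.1 hx
      rw [mem_range] at hi
      apply hSM
      have h4 : s ^ i * 1 ^ (M - i) ∈ S ^ i * S ^ (M - i) :=
        Finset.mul_mem_mul (Finset.pow_mem_pow hs1) (Finset.pow_mem_pow h1S)
      rwa [one_pow, mul_one, ← pow_add, Nat.add_sub_cancel' hi.le] at h4
    · intro x hx z hz
      obtain ⟨i, -, rfl⟩ := mem_image.1 hx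
      obtain ⟨j, -, rfl⟩ := mem_image.1 hz
      rw [← pow_add, ← pow_add, add_comm]
    · rw [Finset.card_image_of_injOn]
      · rw [card_range]
        exact hM1
      · intro i hi j hj hij
        rw [Finset.mem_coe, mem_range] at hi hj
        simp only at hij
        by_contra hne
        rcases Nat.lt_or_gt_of_ne hne with h | h
        · have h5 : s ^ (j - i) = 1 := by
            have : s ^ i * s ^ (j - i) = s ^ i * 1 := by
              rw [← pow_add, Nat.add_sub_cancel' h.le, mul_one, hij]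
            exact mul_left_cancel this
          refine hord s hs4 hs2 (j - i) (by omega) ?_ h5
          exact Nat.lt_ceil.1 (lt_of_le_of_lt (Nat.sub_le j i) hj)
        · have h5 : s ^ (i - j) = 1 := by
            have : s ^ j * s ^ (i - j) = s ^ j * 1 := by
              rw [← pow_add, Nat.add_sub_cancel' h.le, mul_one, hij]
            exact mul_left_cancel this
          refine hord s hs4 hs2 (i - j) (by omega) ?_ h5
          exact Nat.lt_ceil.1 (lt_of_le_of_lt (Nat.sub_le i j) hi)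

end Pool.Agent.H952.NA
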