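import Pool.Agent.H952.NA.Stm2
import Pool.Agent.H952.NA.Pow

/-!
# The group; polynomial dependence on `M`
-/

set_option autoImplicit false
set_option linter.unusedSectionVars false

namespace Pool.Agent.H952.NA

open Finset
open Pool.Agent.H98.BG (IsP H GIB)
open scoped Pointwise

section

variable {G : Type} [Group G] [DecidableEq G] {A : Finset G} {N : ℕ} {V : Type} [Fintype V]
  [DecidableEq V] {ι : V → G} {π : {t // t ∈ A} → Equiv.Perm V}

theorem dom2 (hb : Ball A N V ι π) (hA : A.Nonempty) (hs : A⁻¹ = A) (K : ℝ) (hK : 1 ≤ K)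
    (h3 : ((A ^ 3).card : ℝ) ≤ K * A.card) (n : ℕ) (hN : 2 * n + 5 ≤ N) :
    Dom2 π (EV A ι 1) (BV A ι) (fun i => EV A ι (2 * i + 1)) (Real.log K) n := by
  have hK0 : 0 < K := by linarith
  have hcA : (EV A ι 1).card = A.card := by
    rw [card_EV_eq hb 1 (by omega), pow_one]
  have hd := dom hb hA hs K hK h3 n hN
  have hA2 : ((A ^ 2).card : ℝ) ≤ Real.exp (Real.log K) * A.card := by
    rw [Real.exp_log hK0]
    have := card_pow_le A K hA hs hK h3 2 0 (by omega)
    rwa [zero_add, pow_one] at this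
  refine ⟨hd.base, hd.mono, hd.full, hd.symm, hd.nbr, hd.act, hd.eqv, ?_, ?_, ?_⟩
  · refine ⟨EV A ι 2, ?_, ?_⟩
    · intro t a ha
      rw [mem_EV] at ha ⊢
      rw [hb.act t a ⟨1, by omega, ha⟩]
      exact mem_pow_succ_left t.2 ha
    · rw [hcA]
      have h1 := card_EV hb 2
      have h2 : ((EV A ι 2).card : ℝ) ≤ (A ^ 2).card := by exact_mod_cast h1
      exact h2.trans hA2
  · intro s
    rw [hcA]
    have h1 : (univ.filter fun x => (x, s) ∈ BV A ι).card ≤ (A ^ 2).card := by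
      apply Finset.card_le_card_of_injOn (fun x => (ι x)⁻¹ * ι s)
      · intro x hx
        exact (mem_BV x s).1 (mem_filter.1 hx).2
      · intro x _ y _ h
        have := mul_right_cancel h
        exact hb.inj (inv_injective this)
    have h2 : (((univ.filter fun x => (x, s) ∈ BV A ι).card : ℕ) : ℝ) ≤ (A ^ 2).card := by
      exact_mod_cast h1
    exact h2.trans hA2
  · intro i hi
    rw [hcA]
    have h1 := card_EV hb (2 * i + 1)
    have h2 : ((EV A ι (2 * i + 1)).card : ℝ) ≤ (A ^ (2 * i + 1)).card := by exact_mod_cast h1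
    have h4 := card_pow_le A K hA hs hK h3 (2 * i + 1) (2 * i) (by omega)
    have h5 : Real.exp ((2 * (i : ℝ) + 1) * Real.log K) = K ^ (2 * i + 1) := by
      have e : (2 * (i : ℝ) + 1) = ((2 * i + 1 : ℕ) : ℝ) := by push_cast; ring
      rw [e, Real.exp_nat_mul, Real.exp_log hK0]
    rw [h5]
    exact h2.trans h4

end

/-- the group version with parameters -/
theorem grp2 (ball : BALL) (core : CORE2) (fins : FINS) (G : Type) [Group G] [DecidableEq G]
    (A : Finset G) (K : ℝ) (M n q : ℕ) (hA : A.Nonempty) (hs : A⁻¹ = A) (hK : 1 ≤ K)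
    (h3 : ((A ^ 3).card : ℝ) ≤ K * A.card) (hn : 1 ≤ n)
    (hq : 16 * Real.log K + 16 ≤ q)
    (hM : 128 * (M : ℝ) ^ 2 * (3 * n * (q : ℝ) / 2 ^ n) ≤ 1) :
    ∃ S : Finset G, 1 ∈ S ∧ S⁻¹ = S ∧ S ^ M ⊆ A ^ 4 ∧
      Real.log A.card - (2 * (140 * n * (q : ℝ) ^ 2) + 2) ≤ Real.log S.card := by
  obtain ⟨V, _, _, ι, π, h1, h2, h4⟩ := ball G A (2 * n + 2 * M + 10)
  have hb : Ball A (2 * n + 2 * M + 10) V ι π := ⟨h1, h2, h4⟩
  have hd := dom2 hb hA hs K hK h3 n (by omega)
  have hAV : (EV A ι 1).Nonempty := by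
    rw [← Finset.card_pos, card_EV_eq hb 1 (by omega), pow_one]
    exact hA.card_pos
  have hne : Nonempty {t // t ∈ A} := ⟨⟨hA.choose, hA.choose_spec⟩⟩
  obtain ⟨σ, τ, s₀, hσ, hτ, hσE, hs₀, hF, hD, hc⟩ := core V {t // t ∈ A} π (EV A ι 1) (BV A ι)
    (fun i => EV A ι (2 * i + 1)) (Real.log K) q n hne hAV (Real.log_nonneg hK) hq hd hn
  obtain ⟨T, hTne, hT, hprod⟩ := fins V {t // t ∈ A} π σ τ _ hσ hτ hc
  have hcard : Fintype.card {t // t ∈ A} = A.card := Fintype.card_coe A
  rw [hcard] at hT hD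
  set S : Finset G := (T ×ˢ T).image fun p => (ι s₀)⁻¹ * ((p.2.1)⁻¹ * p.1.1) * ι s₀ with hS
  have hmem : ∀ x ∈ S, ∃ p ∈ T ×ˢ T, (ι s₀)⁻¹ * ((p.2.1)⁻¹ * p.1.1) * ι s₀ = x := by
    intro x hx
    rw [hS, mem_image] at hx
    exact hx
  obtain ⟨t0, ht0⟩ := hTne
  refine ⟨S, ?_, ?_, ?_, ?_⟩
  · rw [hS, mem_image]
    exact ⟨(t0, t0), mem_product.2 ⟨ht0, ht0⟩, by simp⟩
  · ext x
    rw [Finset.mem_inv']
    constructor
    · intro hx
      obtain ⟨p, hp, he⟩ := hmem _ hx
      rw [hS, mem_image]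
      refine ⟨(p.2, p.1), mem_product.2 ⟨(mem_product.1 hp).2, (mem_product.1 hp).1⟩, ?_⟩
      rw [← inv_inv x, ← he]
      simp [mul_assoc]
    · intro hx
      obtain ⟨p, hp, he⟩ := hmem _ hx
      rw [hS, mem_image]
      refine ⟨(p.2, p.1), mem_product.2 ⟨(mem_product.1 hp).2, (mem_product.1 hp).1⟩, ?_⟩
      rw [← he]
      simp [mul_assoc]
  · intro x hx
    obtain ⟨f, hf⟩ := Finset.mem_pow.1 hx
    choose p hp hpe using fun i : Fin M => hmem _ (f i).2
    -- the permutations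
    obtain ⟨y, hy0, hyF, hgF⟩ := hprod M (fun i => (π (p i).2)⁻¹ * π (p i).1) hM
      (fun i => ⟨(p i).1, (mem_product.1 (hp i)).1, (p i).2, (mem_product.1 (hp i)).2, rfl⟩)
      (univ.filter fun y => (s₀, y) ∈ BV A ι) (by
        rw [Finset.sum_filter]
        exact hF)
    rw [mem_filter] at hyF hgF
    have hyE := hσE y hy0
    rw [mem_EV] at hyE
    have hl : List.ofFn (fun i => (π (p i).2)⁻¹ * π (p i).1) =
        (List.ofFn p).map fun p => (π p.2)⁻¹ * π p.1 := by
      rw [List.map_ofFn]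
      rfl
    have hl2 : ((List.ofFn p).map fun p => (p.2.1)⁻¹ * p.1.1) =
        List.ofFn (fun i => ((p i).2.1)⁻¹ * (p i).1.1) := by
      rw [List.map_ofFn]
      rfl
    have hpr := hb.prod hs (List.ofFn p) y (2 * n + 1) (by rw [List.length_ofFn]; omega) hyE
    rw [← hl, hl2] at hpr
    set u : G := (List.ofFn (fun i => ((p i).2.1)⁻¹ * (p i).1.1)).prod with hu
    have h5 := (mem_BV s₀ y).1 hyF.2
    have h6 := (mem_BV s₀ _).1 hgF.2
    rw [hpr.1] at h6
    -- the conjugate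
    have h7 : x = (ι s₀)⁻¹ * u * ι s₀ := by
      rw [← hf]
      have h8 : ∀ l : List ({t // t ∈ A} × {t // t ∈ A}),
          (l.map fun p => (ι s₀)⁻¹ * ((p.2.1)⁻¹ * p.1.1) * ι s₀).prod =
            (ι s₀)⁻¹ * (l.map fun p => (p.2.1)⁻¹ * p.1.1).prod * ι s₀ := by
        intro l
        induction l with
        | nil => simp
        | cons a l ih =>
          rw [List.map_cons, List.prod_cons, ih, List.map_cons, List.prod_cons]
          simp [mul_assoc]
      have h9 : List.ofFn (fun i => ((f i : S) : G)) =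
          (List.ofFn p).map fun p => (ι s₀)⁻¹ * ((p.2.1)⁻¹ * p.1.1) * ι s₀ := by
        rw [List.map_ofFn]
        congr 1
        funext i
        exact (hpe i).symm
      rw [h9, h8, hl2]
    have h8 : x = (ι s₀)⁻¹ * (u * ι y) * ((ι s₀)⁻¹ * ι y)⁻¹ := by
      rw [h7]
      simp [mul_assoc]
    rw [h8, show 4 = 2 + 2 from rfl, pow_add]
    exact Finset.mul_mem_mul h6 (inv_pow_mem hs h5)
  · have hTS : T.card ≤ S.card := by
      apply Finset.card_le_card_of_injOn (fun t => (ι s₀)⁻¹ * ((t0.1)⁻¹ * t.1) * ι s₀)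
      · intro t ht
        rw [hS, Finset.mem_coe, mem_image]
        exact ⟨(t, t0), mem_product.2 ⟨ht, ht0⟩, rfl⟩
      · intro x _ y _ h
        have := mul_left_cancel (mul_left_cancel (mul_right_cancel h))
        exact Subtype.ext this
    have hT0 : (0 : ℝ) < T.card := by
      exact_mod_cast Finset.card_pos.2 ⟨t0, ht0⟩
    have h10 : Real.log T.card ≤ Real.log S.card :=
      Real.log_le_log hT0 (by exact_mod_cast hTS)
    linarith

/-- large sets with `S ^ M ⊆ A ^ 4`, polynomial dependence on `M` -/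
def POW2 : Prop := ∃ C : ℝ, 1 ≤ C ∧ ∀ (G : Type) [Group G] [DecidableEq G] (A : Finset G)
  (K : ℝ) (M : ℕ), A.Nonempty → A⁻¹ = A → 1 ≤ K → ((A ^ 3).card : ℝ) ≤ K * A.card → 1 ≤ M →
  ∃ S : Finset G, 1 ∈ S ∧ S⁻¹ = S ∧ S ^ M ⊆ A ^ 4 ∧
    (A.card : ℝ) * Real.exp (-(C * (1 + Real.log K) ^ 2 *
      (1 + Real.log M + Real.log (1 + Real.log K)))) ≤ S.card

theorem pow2 (ball : BALL) (core : CORE2) (fins : FINS) : POW2 := by
  refine ⟨4000000, by norm_num, ?_⟩
  intro G _ _ A K M hA hs hK h3 hM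
  set L : ℝ := 1 + Real.log K with hLdef
  have hlK : 0 ≤ Real.log K := Real.log_nonneg hK
  have hL : 1 ≤ L := by linarith
  have hMr : (1 : ℝ) ≤ M := by exact_mod_cast hM
  have hlM : 0 ≤ Real.log M := Real.log_nonneg hMr
  have hlL : 0 ≤ Real.log L := Real.log_nonneg hL
  set lamb : ℝ := 1 + Real.log M + Real.log L with hlamb
  have hlamb1 : 1 ≤ lamb := by linarith
  set n : ℕ := ⌈40 * lamb⌉₊ with hn
  have hn1 : 40 * lamb ≤ n := Nat.le_ceil _
  have hn2 : (n : ℝ) ≤ 41 * lamb := by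
    have := (Nat.ceil_lt_add_one (a := 40 * lamb) (by linarith)).le
    linarith
  have hn40 : (40 : ℝ) ≤ n := by linarith
  have hnN : 1 ≤ n := by
    have : (1 : ℝ) ≤ n := by linarith
    exact_mod_cast this
  set q : ℕ := ⌈16 * Real.log K + 16⌉₊ with hq
  have hq1 : 16 * Real.log K + 16 ≤ q := Nat.le_ceil _
  have hq2 : (q : ℝ) ≤ 17 * L := by
    have h1 := (Nat.ceil_lt_add_one (a := 16 * Real.log K + 16) (by positivity)).le
    rw [← hq] at h1
    rw [hLdef]
    linarith
  have hq0 : (0 : ℝ) ≤ q := Nat.cast_nonneg q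
  have hn0 : (0 : ℝ) ≤ n := Nat.cast_nonneg n
  have hpar := param n M L lamb hMr hL hlamb hn1
  have h2n : (0 : ℝ) < 2 ^ n := by positivity
  obtain ⟨S, h1, h2, h4, h5⟩ := grp2 ball core fins G A K M n q hA hs hK h3 hnN hq1 (by
    rw [← mul_div_assoc, div_le_one h2n]
    calc 128 * (M : ℝ) ^ 2 * (3 * n * q) ≤ 128 * (M : ℝ) ^ 2 * ((3 * n) * (17 * L)) := by
          gcongr
      _ = 6528 * (n : ℝ) * M ^ 2 * L := by ring
      _ ≤ 12288 * (n : ℝ) ^ 2 * M ^ 2 * L := by
          have h6 : 6528 * (n : ℝ) ≤ 12288 * (n : ℝ) ^ 2 := by nlinarith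
          gcongr
      _ ≤ 2 ^ n := hpar)
  refine ⟨S, h1, h2, h4, ?_⟩
  have hA0 : (0 : ℝ) < A.card := by exact_mod_cast hA.card_pos
  have hS0 : (0 : ℝ) < S.card := by exact_mod_cast Finset.card_pos.2 ⟨1, h1⟩
  have h6 : 2 * (140 * n * (q : ℝ) ^ 2) + 2 ≤ 4000000 * L ^ 2 * lamb := by
    have a1 : (q : ℝ) ^ 2 ≤ (17 * L) ^ 2 := pow_le_pow_left₀ hq0 hq2 2
    have a2 : 140 * (n : ℝ) * (q : ℝ) ^ 2 ≤ 140 * (41 * lamb) * (17 * L) ^ 2 := by
      gcongr
    have b1 : (1 : ℝ) ≤ L ^ 2 := one_le_pow₀ hL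
    have a5 : (1 : ℝ) ≤ L ^ 2 * lamb := by nlinarith
    nlinarith
  have h7 : Real.log A.card + -(4000000 * L ^ 2 * lamb) ≤ Real.log S.card := by linarith
  have h8 := Real.exp_le_exp.2 h7
  rwa [Real.exp_add, Real.exp_log hA0, Real.exp_log hS0] at h8

/-- powers of one element -/
theorem powers {G : Type} [Group G] [DecidableEq G] (A S : Finset G) (M : ℕ) (R : ℝ)
    (h1S : 1 ∈ S) (hSM : S ^ M ⊆ A ^ 4) (hS1 : 1 < S.card) (hRM : R ≤ M) (hMR : (M : ℝ) - 1 < R)
    (hM : 1 ≤ M)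
    (hord : ∀ g ∈ A ^ 4, g ≠ 1 → ∀ i : ℕ, 0 < i → (i : ℝ) < R → g ^ i ≠ 1) :
    ∃ T : Finset G, T ⊆ A ^ 4 ∧ (∀ x ∈ T, ∀ y ∈ T, x * y = y * x) ∧ R ≤ T.card := by
  obtain ⟨s, hs1, hs2⟩ : ∃ s ∈ S, s ≠ 1 := by
    by_contra hcon
    push Not at hcon
    have : S ⊆ {1} := fun z hz => mem_singleton.2 (hcon z hz)
    have := Finset.card_le_card this
    rw [card_singleton] at this
    omega
  have hs4 : s ∈ A ^ 4 := by
    apply hSM
    have h4 : s ^ 1 * 1 ^ (M - 1) ∈ S ^ 1 * S ^ (M - 1) :=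
      Finset.mul_mem_mul (Finset.pow_mem_pow hs1) (Finset.pow_mem_pow h1S)
    rwa [one_pow, mul_one, ← pow_add, Nat.add_sub_cancel' hM, pow_one] at h4
  have hlt : ∀ k : ℕ, k < M → (k : ℝ) < R := by
    intro k hk
    have h1 : (k : ℝ) + 1 ≤ M := by exact_mod_cast hk
    linarith
  refine ⟨(range M).image fun i => s ^ i, ?_, ?_, ?_⟩
  · intro x hx
    obtain ⟨i, hi, rfl⟩ := mem_image.1 hx
    rw [mem_range] at hi
    apply hSM
    have h4 : s ^ i * 1 ^ (M - i) ∈ S ^ i * S ^ (M - i) :=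
      Finset.mul_mem_mul (Finset.pow_mem_pow hs1) (Finset.pow_mem_pow h1S)
    rwa [one_pow, mul_one, ← pow_add, Nat.add_sub_cancel' hi.le] at h4
  · intro x hx z hz
    obtain ⟨i, -, rfl⟩ := mem_image.1 hx
    obtain ⟨j, -, rfl⟩ := mem_image.1 hz
    rw [← pow_add, ← pow_add, add_comm]
  · rw [Finset.card_image_of_injOn]
    · rw [card_range]
      exact hRM
    · intro i hi j hj hij
      rw [Finset.mem_coe, mem_range] at hi hj
      simp only at hij
      by_contra hne
      rcases Nat.lt_or_gt_of_ne hne with h | h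
      · have h5 : s ^ (j - i) = 1 := by
          have : s ^ i * s ^ (j - i) = s ^ i * 1 := by
            rw [← pow_add, Nat.add_sub_cancel' h.le, mul_one, hij]
          exact mul_left_cancel this
        exact hord s hs4 hs2 (j - i) (by omega) (hlt _ (by omega)) h5
      · have h5 : s ^ (i - j) = 1 := by
          have : s ^ j * s ^ (i - j) = s ^ j * 1 := by
            rw [← pow_add, Nat.add_sub_cancel' h.le, mul_one, hij]
          exact mul_left_cancel this
        exact hord s hs4 hs2 (i - j) (by omega) (hlt _ (by omega)) h5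

/-- large commuting sets in `A ^ 4` -/
def COMM2 : Prop := ∃ c : ℝ, 0 < c ∧ ∀ (G : Type) [Group G] [DecidableEq G] (A : Finset G)
  (K : ℝ), A.Nonempty → A⁻¹ = A → 1 ≤ K → ((A ^ 3).card : ℝ) ≤ K * A.card →
  (∀ g ∈ A ^ 4, g ≠ 1 → ∀ i : ℕ, 0 < i →
    (i : ℝ) < (A.card : ℝ) ^ (c / Real.log (2 * K) ^ 2) / (1 + Real.log K) → g ^ i ≠ 1) →
  ∃ T : Finset G, T ⊆ A ^ 4 ∧ (∀ x ∈ T, ∀ y ∈ T, x * y = y * x) ∧
    (A.card : ℝ) ^ (c / Real.log (2 * K) ^ 2) / (1 + Real.log K) ≤ T.card

theorem comm2 (pow : POW2) : COMM2 := by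
  obtain ⟨C, hC, hpow⟩ := pow
  have hC0 : 0 < C := by linarith
  refine ⟨1 / (10 * C), by positivity, ?_⟩
  intro G _ _ A K hA hs hK h3 hord
  set X : ℝ := Real.log A.card with hX
  have hA0 : (0 : ℝ) < A.card := by exact_mod_cast hA.card_pos
  have hA1 : (1 : ℝ) ≤ A.card := by exact_mod_cast hA.card_pos
  have hX0 : 0 ≤ X := Real.log_nonneg hA1
  have hlK : 0 ≤ Real.log K := Real.log_nonneg hK
  have hl : Real.log (2 * K) = Real.log 2 + Real.log K :=
    Real.log_mul (by norm_num) (by linarith)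
  have hl2 := Real.log_two_gt_d9
  have hl3 := Real.log_two_lt_d9
  set l : ℝ := Real.log (2 * K) with hldef
  set L : ℝ := 1 + Real.log K with hLdef
  have hL : 1 ≤ L := by linarith
  have hL0 : 0 < L := by linarith
  have hlL : 69 / 100 * L ≤ l := by rw [hl, hLdef]; nlinarith
  have hl0 : 0 < l := by nlinarith
  have hlogL0 : 0 ≤ Real.log L := Real.log_nonneg hL
  set u : ℝ := X / (10 * C * l ^ 2) with hu
  have hu0 : 0 ≤ u := by positivity
  have hpw : (A.card : ℝ) ^ (1 / (10 * C) / l ^ 2) = Real.exp u := by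
    rw [Real.rpow_def_of_pos hA0, hu]
    congr 1
    rw [← hX]
    field_simp
  rw [hpw] at hord ⊢
  set R : ℝ := Real.exp u / L with hR
  have hLl : L ^ 2 ≤ 2101 / 1000 * l ^ 2 := by nlinarith
  obtain ⟨a, ha⟩ := hA
  have hone := one_mem4 A hs ha ha
  rcases le_or_gt X (3 * C * L ^ 2) with hX3 | hX3
  · -- small sets
    have hu1 : u ≤ 6303 / 10000 := by
      rw [hu, div_le_iff₀ (by positivity)]
      nlinarith
    have hE : Real.exp u ≤ 2 := by
      calc Real.exp u ≤ Real.exp (Real.log 2) := Real.exp_le_exp.2 (by linarith)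
        _ = 2 := Real.exp_log (by norm_num)
    have hRE : R ≤ Real.exp u := div_le_self (Real.exp_pos _).le hL
    by_cases h1 : A.card = 1
    · refine ⟨{1}, ?_, ?_, ?_⟩
      · intro x hx
        rw [mem_singleton] at hx
        rw [hx]
        exact hone.1
      · intro x hx z hz
        rw [mem_singleton] at hx hz
        rw [hx, hz]
      · have hXz : X = 0 := by rw [hX, h1]; simp
        have huz : u = 0 := by rw [hu, hXz, zero_div]
        rw [huz, Real.exp_zero] at hRE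
        rw [card_singleton]
        exact_mod_cast hRE
    · obtain ⟨b, hb, hab⟩ : ∃ b ∈ A, b ≠ a := by
        by_contra hcon
        push Not at hcon
        apply h1
        rw [Finset.card_eq_one]
        refine ⟨a, ?_⟩
        ext z
        rw [mem_singleton]
        exact ⟨fun hz => hcon z hz, fun hz => hz ▸ ha⟩
      have hne : (1 : G) ≠ a⁻¹ * b := by
        intro h
        apply hab
        have := congrArg (fun z => a * z) h
        simpa using this.symm
      refine ⟨{1, a⁻¹ * b}, ?_, ?_, ?_⟩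
      · intro x hx
        rw [mem_insert, mem_singleton] at hx
        rcases hx with rfl | rfl
        · exact (one_mem4 A hs ha hb).1
        · exact (one_mem4 A hs ha hb).2
      · intro x hx z hz
        rw [mem_insert, mem_singleton] at hx hz
        rcases hx with rfl | rfl <;> rcases hz with rfl | rfl <;> simp
      · rw [Finset.card_pair hne]
        push_cast
        linarith
  · -- large sets
    rcases le_or_gt R 1 with hR1 | hR1
    · refine ⟨{1}, ?_, ?_, ?_⟩
      · intro x hx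
        rw [mem_singleton] at hx
        rw [hx]
        exact hone.1
      · intro x hx z hz
        rw [mem_singleton] at hx hz
        rw [hx, hz]
      · rw [card_singleton]
        exact_mod_cast hR1
    set M : ℕ := ⌈R⌉₊ with hM
    have hM1 : R ≤ M := Nat.le_ceil _
    have hM2 : (M : ℝ) < R + 1 := Nat.ceil_lt_add_one (by linarith)
    have hM3 : 1 ≤ M := by
      have : (1 : ℝ) ≤ M := by linarith
      exact_mod_cast this
    obtain ⟨S, h1S, hSs, hSM, hScard⟩ := hpow G A K M ⟨a, ha⟩ hs hK h3 hM3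
    have hlogM : Real.log M ≤ 694 / 1000 + u - Real.log L := by
      have h4 : (M : ℝ) ≤ 2 * R := by linarith
      have h5 := Real.log_le_log (by linarith : (0 : ℝ) < M) h4
      rw [Real.log_mul (by norm_num) (by linarith), hR, Real.log_div (Real.exp_pos _).ne' hL0.ne',
        Real.log_exp] at h5
      linarith
    have hkey : C * L ^ 2 * (1 + Real.log M + Real.log L) < X := by
      have h4 : 1 + Real.log M + Real.log L ≤ 17 / 10 + u := by linarith
      have h5 : C * L ^ 2 * (1 + Real.log M + Real.log L) ≤ C * L ^ 2 * (17 / 10 + u) :=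
        mul_le_mul_of_nonneg_left h4 (by positivity)
      have h6 : C * L ^ 2 * u ≤ 2101 / 10000 * X := by
        have h7 : C * l ^ 2 * u = X / 10 := by
          rw [hu]
          field_simp
        have h8 : C * L ^ 2 * u ≤ C * (2101 / 1000 * l ^ 2) * u := by gcongr
        nlinarith
      nlinarith
    have hS1 : 1 < S.card := by
      have h4 : (A.card : ℝ) = Real.exp X := by rw [hX, Real.exp_log hA0]
      rw [h4, ← Real.exp_add] at hScard
      have h5 : (1 : ℝ) < S.card := by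
        refine lt_of_lt_of_le ?_ hScard
        exact Real.one_lt_exp_iff.2 (by linarith)
      exact_mod_cast h5
    exact powers A S M R h1S hSM hS1 hM1 (by linarith) hM3 hord

end Pool.Agent.H952.NA
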