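import Pool.Agent.H952.NA.Stm2

/-! Proof of NB5 (HOL2): Hölder and Jensen. -/

set_option autoImplicit false

namespace Pool.Agent.H952.NA

open Finset
open Pool.Agent.H98.BG (IsP H GIB)
open scoped Pointwise

namespace NB5L

theorem holder {V : Type} [Fintype V] (q : ℕ) (hq : 1 ≤ q) (σ g : V → ℝ) (hσ : ∀ x, 0 ≤ σ x)
    (hg : ∀ x, 0 ≤ g x) :
    (∑ x, σ x * g x) ^ (q + 1) ≤ (∑ x, σ x ^ (1 + 1 / (q : ℝ))) ^ q * ∑ x, g x ^ (q + 1) := by
  have hq0 : (0 : ℝ) < q := by exact_mod_cast hq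
  have hpq : Real.HolderConjugate (1 + 1 / (q : ℝ)) ((q : ℝ) + 1) := by
    rw [Real.holderConjugate_iff]
    refine ⟨?_, ?_⟩
    · have : 0 < 1 / (q : ℝ) := by positivity
      linarith
    · field_simp
  have h := Real.inner_le_Lp_mul_Lq_of_nonneg univ hpq (fun x _ => hσ x) (fun x _ => hg x)
  have e : ∑ x, g x ^ ((q : ℝ) + 1) = ∑ x, g x ^ (q + 1) := sum_congr rfl fun x _ => by
    rw [← Real.rpow_natCast, Nat.cast_add, Nat.cast_one]
  rw [e] at h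
  have hS : 0 ≤ ∑ x, σ x ^ (1 + 1 / (q : ℝ)) := sum_nonneg fun x _ => Real.rpow_nonneg (hσ x) _
  have hG : 0 ≤ ∑ x, g x ^ (q + 1) := sum_nonneg fun x _ => pow_nonneg (hg x) _
  have h0 : 0 ≤ ∑ x, σ x * g x := sum_nonneg fun x _ => mul_nonneg (hσ x) (hg x)
  set S := ∑ x, σ x ^ (1 + 1 / (q : ℝ)) with hSd
  set G := ∑ x, g x ^ (q + 1) with hGd
  refine (pow_le_pow_left₀ h0 h (q + 1)).trans (le_of_eq ?_)
  have e1 : 1 / (1 + 1 / (q : ℝ)) * ((q + 1 : ℕ) : ℝ) = q := by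
    push_cast
    field_simp
  have e2 : 1 / ((q : ℝ) + 1) * ((q + 1 : ℕ) : ℝ) = 1 := by
    push_cast
    field_simp
  rw [mul_pow, ← Real.rpow_natCast (S ^ (1 / (1 + 1 / (q : ℝ)))), ← Real.rpow_mul hS,
    ← Real.rpow_natCast (G ^ (1 / ((q : ℝ) + 1))), ← Real.rpow_mul hG, e1, e2,
    Real.rpow_natCast, Real.rpow_one]

theorem spos {V : Type} [Fintype V] (r : ℝ) (σ : V → ℝ) (h : IsP σ) :
    0 < ∑ x, σ x ^ r := by
  have h1 : ∃ x, 0 < σ x := by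
    by_contra hcon
    push Not at hcon
    have h2 : ∑ x, σ x = 0 := sum_eq_zero fun x _ => le_antisymm (hcon x) (h.1 x)
    rw [h.2] at h2
    exact one_ne_zero h2
  obtain ⟨x, hx⟩ := h1
  exact sum_pos' (fun y _ => Real.rpow_nonneg (h.1 y) _) ⟨x, mem_univ x, Real.rpow_pos_of_pos hx _⟩

theorem first {V : Type} [Fintype V] (q : ℕ) (σ f g σ' : V → ℝ) (a : ℝ) (hq : 1 ≤ q)
    (hσ : IsP σ) (hf : ∀ x, 0 ≤ f x) (hg : ∀ x, 0 ≤ g x) (hZ : 0 < ∑ x, f x ^ q)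
    (hσ' : ∀ x, σ' x = f x ^ q / ∑ y, f y ^ q) (hs : ∑ x, σ x * g x = ∑ x, σ' x * f x)
    (h : a * (∑ x, σ x ^ (1 + 1 / (q : ℝ))) ^ q ≤ ∑ x, f x ^ (q + 1)) :
    a * (∑ x, σ' x ^ (1 + 1 / (q : ℝ))) ^ q ≤ ∑ x, g x ^ (q + 1) := by
  have hq0 : (0 : ℝ) < q := by exact_mod_cast hq
  have hF : 0 ≤ ∑ x, f x ^ (q + 1) := sum_nonneg fun x _ => pow_nonneg (hf x) _
  have hS := spos (1 + 1 / (q : ℝ)) σ hσ
  have hh := holder q hq σ g hσ.1 hg
  rw [hs] at hh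
  set Z := ∑ x, f x ^ q with hZd
  set F := ∑ x, f x ^ (q + 1) with hFd
  set S := ∑ x, σ x ^ (1 + 1 / (q : ℝ)) with hSd
  set G := ∑ x, g x ^ (q + 1) with hGd
  have e3 : ∑ x, σ' x * f x = F / Z := by
    rw [hFd, sum_div]
    refine sum_congr rfl fun x _ => ?_
    rw [hσ', pow_succ]
    ring
  have e1 : ∑ x, σ' x ^ (1 + 1 / (q : ℝ)) = F / Z ^ (1 + 1 / (q : ℝ)) := by
    rw [hFd, sum_div]
    refine sum_congr rfl fun x _ => ?_
    rw [hσ', Real.div_rpow (pow_nonneg (hf x) _) hZ.le, ← Real.rpow_natCast (f x) q,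
      ← Real.rpow_mul (hf x), ← Real.rpow_natCast (f x) (q + 1)]
    congr 2
    push_cast
    field_simp
  have e2 : (F / Z ^ (1 + 1 / (q : ℝ))) ^ q = F ^ q / Z ^ (q + 1) := by
    rw [div_pow, ← Real.rpow_natCast (Z ^ (1 + 1 / (q : ℝ))) q, ← Real.rpow_mul hZ.le,
      ← Real.rpow_natCast Z (q + 1)]
    congr 2
    push_cast
    field_simp
  rw [e1, e2]
  rw [e3] at hh
  have hSq : 0 < S ^ q := pow_pos hS q
  have hZq : 0 < Z ^ (q + 1) := pow_pos hZ _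
  refine le_of_mul_le_mul_left ?_ hSq
  calc S ^ q * (a * (F ^ q / Z ^ (q + 1))) = (a * S ^ q) * (F ^ q / Z ^ (q + 1)) := by ring
    _ ≤ F * (F ^ q / Z ^ (q + 1)) :=
        mul_le_mul_of_nonneg_right h (div_nonneg (pow_nonneg hF _) hZq.le)
    _ = (F / Z) ^ (q + 1) := by
        rw [div_pow, pow_succ F q]
        ring
    _ ≤ S ^ q * G := hh

theorem second {V : Type} [Fintype V] (q : ℕ) (σ : V → ℝ) (hq : 1 ≤ q) (hσ : IsP σ) :
    Real.exp (-H σ) ≤ (∑ x, σ x ^ (1 + 1 / (q : ℝ))) ^ q := by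
  have hq0 : (0 : ℝ) < q := by exact_mod_cast hq
  have hS := spos (1 + 1 / (q : ℝ)) σ hσ
  set S := ∑ x, σ x ^ (1 + 1 / (q : ℝ)) with hSd
  rw [← Real.le_log_iff_exp_le (pow_pos hS q), Real.log_pow]
  have h1 : ∀ x, σ x * (1 / (q : ℝ) * Real.log (σ x)) - σ x * Real.log S ≤
      σ x ^ (1 + 1 / (q : ℝ)) / S - σ x := by
    intro x
    rcases eq_or_lt_of_le (hσ.1 x) with h0 | h0
    · rw [← h0, Real.zero_rpow (by positivity)]
      simp
    · have hp : 0 < σ x ^ (1 / (q : ℝ)) := Real.rpow_pos_of_pos h0 _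
      have h2 := Real.log_le_sub_one_of_pos (div_pos hp hS)
      rw [Real.log_div hp.ne' hS.ne', Real.log_rpow h0] at h2
      have h3 := mul_le_mul_of_nonneg_left h2 h0.le
      have e : σ x ^ (1 + 1 / (q : ℝ)) = σ x * σ x ^ (1 / (q : ℝ)) := by
        rw [Real.rpow_add h0, Real.rpow_one]
      rw [e]
      calc σ x * (1 / (q : ℝ) * Real.log (σ x)) - σ x * Real.log S
          = σ x * (1 / (q : ℝ) * Real.log (σ x) - Real.log S) := by ring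
        _ ≤ σ x * (σ x ^ (1 / (q : ℝ)) / S - 1) := h3
        _ = _ := by ring
  have h2 := sum_le_sum fun x (_ : x ∈ (univ : Finset V)) => h1 x
  rw [sum_sub_distrib, sum_sub_distrib, ← sum_mul, ← sum_div, hσ.2, ← hSd, div_self hS.ne',
    sub_self, one_mul] at h2
  have h3 : ∑ x, σ x * (1 / (q : ℝ) * Real.log (σ x)) = 1 / (q : ℝ) * -H σ := by
    unfold H
    rw [← sum_neg_distrib, mul_sum]
    refine sum_congr rfl fun x _ => ?_
    unfold Real.negMulLog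
    ring
  rw [h3] at h2
  have h4 : 1 / (q : ℝ) * -H σ ≤ Real.log S := by linarith
  rw [one_div, inv_mul_le_iff₀ hq0] at h4
  exact h4

end NB5L

theorem hol2 : HOL2 := by
  intro V _ q σ f g σ' a hq hσ hf hg hZ _ hσ' hs
  exact ⟨NB5L.first q σ f g σ' a hq hσ hf hg hZ hσ' hs, NB5L.second q σ hq hσ⟩

end Pool.Agent.H952.NA
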