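import Pool.Agent.H952.NA.Stm

/-!
# The losses are small
-/

set_option autoImplicit false

namespace Pool.Agent.H952.NA

open Finset
open Pool.Agent.H98.BG (IsP H GIB)
open scoped Pointwise

namespace LOSL

/-- the entropy of a law on `X` -/
theorem H_le_log_card {V : Type} [Fintype V] [DecidableEq V] (gib : GIB) (X : Finset V)
    (p : V → ℝ) (hp : IsP p) (hX : X.Nonempty) (hs : ∀ x, p x ≠ 0 → x ∈ X) :
    H p ≤ Real.log X.card := by
  have hX0 : (0 : ℝ) < X.card := by exact_mod_cast hX.card_pos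
  obtain ⟨r, hr⟩ : ∃ r : V → ℝ, r = fun x => if x ∈ X then ((X.card : ℝ))⁻¹ else 0 := ⟨_, rfl⟩
  have hrx : ∀ x ∈ X, r x = ((X.card : ℝ))⁻¹ := by
    intro x hx
    rw [hr]
    exact if_pos hx
  have h0 : ∀ x, 0 ≤ r x := by
    intro x
    by_cases hx : x ∈ X
    · rw [hrx x hx]
      exact (inv_pos.2 hX0).le
    · rw [hr]
      exact (if_neg hx).ge
  have h1 : ∑ x, r x ≤ 1 := by
    have h2 : ∑ x, r x = ∑ x ∈ X, ((X.card : ℝ))⁻¹ := by
      rw [hr, Finset.sum_ite_mem, Finset.univ_inter]
    rw [h2, Finset.sum_const, nsmul_eq_mul, mul_inv_cancel₀ hX0.ne']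
  have h2 : ∀ x, p x ≠ 0 → 0 < r x := by
    intro x hx
    rw [hrx x (hs x hx)]
    exact inv_pos.2 hX0
  have h3 := gib V p r hp h0 h1 h2
  have h4 : ∑ x, p x * Real.log (r x) = -Real.log X.card := by
    have h5 : ∑ x, p x * Real.log (r x) = ∑ x, p x * (-Real.log X.card) := by
      refine Finset.sum_congr rfl fun x _ => ?_
      by_cases hx : p x = 0
      · rw [hx, zero_mul, zero_mul]
      · rw [hrx x (hs x hx), Real.log_inv]
    rw [h5, ← Finset.sum_mul, hp.2, one_mul]
  rw [h4, neg_neg] at h3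
  exact h3

end LOSL

open LOSL

theorem los (gib : GIB) (vr : VAR) (sq : SEQ) : LOS := by
  intro V Θ _ _ _ π A B E lam q n hA hlam hq hD i hi
  have hq0 : 0 ≤ q := by linarith
  have hqp : 0 < q := by linarith
  obtain ⟨hP, -, hs, hZ, hlog⟩ := sq V Θ π A B E lam q n hA hq0 hD i
  have hlog := hlog hi
  have hA0 : (0 : ℝ) < A.card := by exact_mod_cast hA.card_pos
  obtain ⟨s, hsdef⟩ : ∃ s : V → ℝ, s = sg A B E q i := ⟨_, rfl⟩
  have hs1 : sg A B E q (i + 1) = WL q B (E (i + 1)) s := by
    rw [hsdef]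
    rfl
  rw [hs1]
  rw [← hsdef] at hP hs hZ hlog ⊢
  obtain ⟨Z, hZd⟩ : ∃ Z, Z = ZZ q B (E (i + 1)) s := ⟨_, rfl⟩
  obtain ⟨W, hWd⟩ : ∃ W, W = ∑ x ∈ E (i + 2), Real.exp (q * pr s B x) := ⟨_, rfl⟩
  rw [← hZd] at hZ hlog
  rw [← hWd]
  -- the size of `A`
  have hAZ : (A.card : ℝ) ≤ Z * Real.exp (lam - q) := by
    have h1 : Real.log A.card ≤ Real.log Z + (lam - q) := by linarith
    have h2 := Real.exp_le_exp.2 h1
    rwa [Real.exp_log hA0, Real.exp_add, Real.exp_log hZ] at h2
  have hcard : ((E (i + 2)).card : ℝ) ≤ Z * Real.exp (2 * lam - q) := by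
    refine (hD.card (i + 2) (by omega)).trans ?_
    calc Real.exp lam * A.card ≤ Real.exp lam * (Z * Real.exp (lam - q)) :=
          mul_le_mul_of_nonneg_left hAZ (Real.exp_pos _).le
      _ = Z * Real.exp (2 * lam - q) := by
          have : Real.exp (2 * lam - q) = Real.exp lam * Real.exp (lam - q) := by
            rw [← Real.exp_add]
            congr 1
            ring
          rw [this]
          ring
  have hsub : E (i + 1) ⊆ E (i + 2) := hD.mono (i + 1)
  have hWZ : W ≤ Z * (1 + Real.exp (2 * lam - q)) := by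
    have h1 : W = ∑ x ∈ E (i + 2) \ E (i + 1), Real.exp (q * pr s B x) + Z := by
      rw [hWd, hZd]
      unfold ZZ
      exact (Finset.sum_sdiff hsub).symm
    have h2 : ∑ x ∈ E (i + 2) \ E (i + 1), Real.exp (q * pr s B x) =
        ((E (i + 2) \ E (i + 1)).card : ℝ) := by
      rw [Finset.card_eq_sum_ones, Nat.cast_sum]
      refine Finset.sum_congr rfl fun x hx => ?_
      have h3 : pr s B x = 0 := by
        by_contra hne
        exact (Finset.mem_sdiff.1 hx).2 (hs x hne)
      rw [h3, mul_zero, Real.exp_zero, Nat.cast_one]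
    have h3 : ((E (i + 2) \ E (i + 1)).card : ℝ) ≤ (E (i + 2)).card := by
      exact_mod_cast Finset.card_le_card Finset.sdiff_subset
    rw [h1, h2]
    linarith
  have hZW : Z ≤ W := by
    rw [hZd, hWd]
    unfold ZZ
    exact Finset.sum_le_sum_of_subset_of_nonneg hsub fun _ _ _ => (Real.exp_pos _).le
  have hW0 : 0 < W := hZ.trans_le hZW
  have hne : (E (i + 1)).Nonempty := by
    by_contra h
    rw [Finset.not_nonempty_iff_eq_empty] at h
    rw [hZd, h] at hZ
    unfold ZZ at hZ
    rw [Finset.sum_empty] at hZ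
    exact lt_irrefl _ hZ
  obtain ⟨-, hWP, h1, -, hsym⟩ := vr V q B (E (i + 1)) s hD.symm hP hne
  rw [← hZd] at h1
  constructor
  · have h2 : Real.log W ≤ Real.log Z + Real.exp (2 * lam - q) := by
      have h3 : Real.log (W / Z) ≤ W / Z - 1 := Real.log_le_sub_one_of_pos (div_pos hW0 hZ)
      rw [Real.log_div hW0.ne' hZ.ne'] at h3
      have h4 : W / Z ≤ 1 + Real.exp (2 * lam - q) := by
        rw [div_le_iff₀ hZ]
        linarith
      linarith
    linarith
  · -- the mean
    have hE1 : (0 : ℝ) < (E (i + 1)).card := by exact_mod_cast hne.card_pos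
    have hH : H (WL q B (E (i + 1)) s) ≤ lam + Real.log A.card := by
      have h2 : H (WL q B (E (i + 1)) s) ≤ Real.log (E (i + 1)).card := by
        refine H_le_log_card gib _ _ hWP hne fun x hx => ?_
        by_contra hn
        apply hx
        unfold WL
        rw [if_neg hn]
      have h3 : Real.log (E (i + 1)).card ≤ Real.log (Real.exp lam * A.card) :=
        Real.log_le_log hE1 (hD.card (i + 1) (by omega))
      rw [Real.log_mul (Real.exp_pos _).ne' hA0.ne', Real.log_exp] at h3
      exact h2.trans h3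
    rw [hsym] at h1
    by_contra hcon
    push Not at hcon
    obtain ⟨g, hg⟩ : ∃ g : V → ℝ, g = pr (WL q B (E (i + 1)) s) B := ⟨_, rfl⟩
    rw [← hg] at h1 hcon
    have h5 : ∑ y, s y * g y < 3 / 4 := by
      have h6 : ∑ y, s y * g y < ∑ y, s y * (3 / 4) := by
        refine Finset.sum_lt_sum (fun y _ => ?_) ?_
        · by_cases hy : s y = 0
          · rw [hy, zero_mul, zero_mul]
          · exact mul_le_mul_of_nonneg_left (hcon y hy).le (hP.1 y)
        · have h7 : ∃ y, s y ≠ 0 := by
            by_contra h8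
            push Not at h8
            have h9 := hP.2
            rw [Finset.sum_congr rfl fun y _ => h8 y, Finset.sum_const_zero] at h9
            exact zero_ne_one h9
          obtain ⟨y, hy⟩ := h7
          exact ⟨y, Finset.mem_univ _, mul_lt_mul_of_pos_left (hcon y hy)
            (lt_of_le_of_ne (hP.1 y) (Ne.symm hy))⟩
      rw [← Finset.sum_mul, hP.2, one_mul] at h6
      exact h6
    have h6 : q * ∑ y, s y * g y < q * (3 / 4) := mul_lt_mul_of_pos_left h5 hqp
    linarith

end Pool.Agent.H952.NA
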