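import Pool.Agent.H952.NA.Stm2

/-!
# The losses are small, second version (helper383)
-/

set_option autoImplicit false

namespace Pool.Agent.H952.NA

open Finset
open Pool.Agent.H98.BG (IsP H GIB)
open scoped Pointwise

namespace NB7L

theorem exp_one_le : Real.exp 1 ≤ 3 := by
  have := Real.exp_one_lt_d9
  linarith

theorem two_le_exp : 2 ≤ Real.exp 1 := by
  have := Real.exp_one_gt_d9
  linarith

theorem exp_two_le : Real.exp 2 ≤ 8 := by
  have h1 : Real.exp 2 = Real.exp 1 ^ 2 := by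
    rw [← Real.exp_nat_mul]
    norm_num
  have h2 := Real.exp_one_lt_d9
  have h3 : Real.exp 1 ^ 2 ≤ 2.7182818286 ^ 2 :=
    pow_le_pow_left₀ (Real.exp_pos 1).le h2.le 2
  rw [h1]
  exact h3.trans (by norm_num)

theorem exp_half_le : Real.exp (1 / 2) ≤ 2 := by
  have h1 : Real.exp (1 / 2) ^ 2 = Real.exp 1 := by
    rw [← Real.exp_nat_mul]
    norm_num
  have h2 := exp_one_le
  have h3 := Real.exp_pos (1 / 2)
  nlinarith

/-- the bound for one point -/
theorem point (q i : ℕ) (hq : 2 ≤ q) (p Y m a : ℝ) (hm : m = 2 ^ (i + 6) * q)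
    (ha : a = q / 2 ^ (i + 6)) (h0 : 0 ≤ p)
    (h1 : (q : ℝ) / m ≤ p → Y ≤ p ^ q * Real.exp (2 * (q : ℝ) ^ 2 / (m * p)))
    (h2 : p < (q : ℝ) / m → Y ≤ Real.exp 1 * (Real.exp 1 * (q : ℝ) / m) ^ q) :
    Y ≤ p ^ q * Real.exp (64 * a) + 2048 * a * p * (1 / 4) ^ q +
      Real.exp 1 * (1 / (16 * 2 ^ i)) ^ q := by
  have hq0 : (0 : ℝ) < q := by exact_mod_cast (by omega : 0 < q)
  have h26 : (0 : ℝ) < 2 ^ (i + 6) := by positivity
  have hm0 : 0 < m := by rw [hm]; positivity
  have ha0 : 0 < a := by rw [ha]; positivity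
  have t1 : 0 ≤ p ^ q * Real.exp (64 * a) := by positivity
  have t2 : 0 ≤ 2048 * a * p * (1 / 4) ^ q := by positivity
  have t3 : 0 ≤ Real.exp 1 * (1 / (16 * 2 ^ i)) ^ q := by positivity
  rcases lt_or_ge p ((q : ℝ) / m) with h | h
  · have h3 : Real.exp 1 * (q : ℝ) / m ≤ 1 / (16 * 2 ^ i) := by
      rw [hm, div_le_div_iff₀ (by positivity) (by positivity), pow_add]
      have h4 := exp_one_le
      have h5 : Real.exp 1 * (q * (16 * 2 ^ i)) ≤ 3 * (q * (16 * 2 ^ i)) :=
        mul_le_mul_of_nonneg_right h4 (by positivity)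
      have h6 : (0 : ℝ) ≤ q * 2 ^ i := by positivity
      nlinarith
    have h4 : (Real.exp 1 * (q : ℝ) / m) ^ q ≤ (1 / (16 * 2 ^ i)) ^ q :=
      pow_le_pow_left₀ (by positivity) h3 q
    have h5 := mul_le_mul_of_nonneg_left h4 (Real.exp_pos 1).le
    have h6 := h2 h
    linarith
  · have hp : 0 < p := lt_of_lt_of_le (by positivity) h
    have hY := h1 h
    have hy : 2 * (q : ℝ) ^ 2 / (m * p) = 2 * a / p := by
      rw [hm, ha]
      field_simp
    rw [hy] at hY
    rcases le_or_gt (1 / 32) p with h32 | h32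
    · have h3 : 2 * a / p ≤ 64 * a := by
        rw [div_le_iff₀ hp]
        nlinarith
      have h4 : p ^ q * Real.exp (2 * a / p) ≤ p ^ q * Real.exp (64 * a) :=
        mul_le_mul_of_nonneg_left (Real.exp_le_exp.2 h3) (by positivity)
      linarith
    · have h3 : 2 * a / p ≤ 2 * q := by
        rw [div_le_iff₀ hp]
        rw [div_le_iff₀ hm0] at h
        have h4 : a = q * q / m := by
          rw [ha, hm]
          field_simp
        have h5 : a ≤ q * p := by
          rw [h4, div_le_iff₀ hm0]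
          nlinarith
        linarith
      have hy0 : 0 < 2 * a / p := by positivity
      obtain ⟨y, hyd⟩ : ∃ y, y = 2 * a / p := ⟨_, rfl⟩
      have h4 : Real.exp y ≤ 1 + y * Real.exp y := by
        have h5 := Real.add_one_le_exp (-y)
        have h6 : Real.exp (-y) * Real.exp y = 1 := by
          rw [← Real.exp_add, neg_add_cancel, Real.exp_zero]
        have h7 := mul_le_mul_of_nonneg_right h5 (Real.exp_pos y).le
        rw [h6] at h7
        linarith
      obtain ⟨r, rfl⟩ : ∃ r, q = r + 2 := ⟨q - 2, by omega⟩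
      have h5 : Real.exp y ≤ Real.exp 2 ^ (r + 2) := by
        rw [← Real.exp_nat_mul]
        apply Real.exp_le_exp.2
        rw [hyd]
        linarith
      have h6 : p ^ (r + 2) * y = 2 * a * p * p ^ r := by
        rw [hyd, pow_add]
        field_simp
      have h7 : p ^ r ≤ (1 / 32) ^ r := pow_le_pow_left₀ hp.le h32.le r
      have h8 : p ^ r * Real.exp 2 ^ (r + 2) ≤ 1024 * (1 / 4) ^ (r + 2) := by
        have h9 : Real.exp 2 ^ (r + 2) ≤ 8 ^ (r + 2) :=
          pow_le_pow_left₀ (Real.exp_pos 2).le exp_two_le _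
        calc p ^ r * Real.exp 2 ^ (r + 2) ≤ (1 / 32) ^ r * 8 ^ (r + 2) :=
              mul_le_mul h7 h9 (by positivity) (by positivity)
          _ = 1024 * ((1 / 32) * 8) ^ (r + 2) := by
              rw [mul_pow, pow_add (1 / 32 : ℝ) r 2]
              ring
          _ = 1024 * (1 / 4) ^ (r + 2) := by norm_num
      have h9 : p ^ (r + 2) * Real.exp y ≤ p ^ (r + 2) + 2048 * a * p * (1 / 4) ^ (r + 2) := by
        calc p ^ (r + 2) * Real.exp y ≤ p ^ (r + 2) * (1 + y * Real.exp y) :=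
              mul_le_mul_of_nonneg_left h4 (by positivity)
          _ = p ^ (r + 2) + p ^ (r + 2) * y * Real.exp y := by ring
          _ = p ^ (r + 2) + 2 * a * p * p ^ r * Real.exp y := by rw [h6]
          _ ≤ p ^ (r + 2) + 2 * a * p * p ^ r * Real.exp 2 ^ (r + 2) := by
              have := mul_le_mul_of_nonneg_left h5 (by positivity : 0 ≤ 2 * a * p * p ^ r)
              linarith
          _ = p ^ (r + 2) + 2 * a * p * (p ^ r * Real.exp 2 ^ (r + 2)) := by ring
          _ ≤ p ^ (r + 2) + 2 * a * p * (1024 * (1 / 4) ^ (r + 2)) := by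
              have := mul_le_mul_of_nonneg_left h8 (by positivity : 0 ≤ 2 * a * p)
              linarith
          _ = _ := by ring
      have h10 : p ^ (r + 2) ≤ p ^ (r + 2) * Real.exp (64 * a) :=
        le_mul_of_one_le_right (by positivity) (Real.one_le_exp (by positivity))
      rw [← hyd] at hY
      linarith

/-- the second term -/
theorem num2 (q : ℕ) (lam : ℝ) (hlam : 0 ≤ lam) (hq : 16 * lam + 16 ≤ q) :
    2048 * (1 / 4) ^ q * Real.exp (4 * lam) ≤ 1 := by
  have h1 : Real.exp (16 * lam + 16) ≤ 4 ^ q := by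
    calc Real.exp (16 * lam + 16) ≤ Real.exp (q * 1) := Real.exp_le_exp.2 (by linarith)
      _ = Real.exp 1 ^ q := Real.exp_nat_mul 1 q
      _ ≤ 4 ^ q := pow_le_pow_left₀ (Real.exp_pos 1).le (by linarith [exp_one_le]) q
  have h2 : (2048 : ℝ) ≤ Real.exp 16 := by
    have h3 : Real.exp 16 = Real.exp 1 ^ 16 := by
      rw [← Real.exp_nat_mul]
      norm_num
    rw [h3]
    calc (2048 : ℝ) ≤ 2 ^ 16 := by norm_num
      _ ≤ Real.exp 1 ^ 16 := pow_le_pow_left₀ (by norm_num) two_le_exp 16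
  have h3 : 2048 * Real.exp (4 * lam) ≤ 4 ^ q := by
    calc 2048 * Real.exp (4 * lam) ≤ Real.exp 16 * Real.exp (4 * lam) :=
          mul_le_mul_of_nonneg_right h2 (Real.exp_pos _).le
      _ = Real.exp (16 + 4 * lam) := (Real.exp_add _ _).symm
      _ ≤ Real.exp (16 * lam + 16) := Real.exp_le_exp.2 (by linarith)
      _ ≤ 4 ^ q := h1
  have h4 : (1 / 4 : ℝ) ^ q = (4 ^ q)⁻¹ := by rw [one_div, inv_pow]
  have h5 : (0 : ℝ) < 4 ^ q := by positivity
  rw [h4, mul_right_comm, ← div_eq_mul_inv, div_le_one h5]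
  exact h3

/-- the third term -/
theorem num3 (q i : ℕ) (lam : ℝ) (hlam : 0 ≤ lam) (hq : 16 * lam + 16 ≤ q) :
    Real.exp ((2 * i + 8) * lam) * (Real.exp 1 * (1 / (16 * 2 ^ i)) ^ q) ≤
      q / 2 ^ (i + 6) := by
  have hi0 : (0 : ℝ) ≤ i := Nat.cast_nonneg i
  have hil : 0 ≤ (i : ℝ) * lam := mul_nonneg hi0 hlam
  have h1 : Real.exp ((i + 4) * (8 * lam + 8)) ≤ (16 * 2 ^ i) ^ q := by
    calc Real.exp ((i + 4) * (8 * lam + 8)) ≤ Real.exp (((i + 4) * q : ℕ) * (1 / 2)) := by
          apply Real.exp_le_exp.2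
          push_cast
          have h2 : ((i : ℝ) + 4) * (16 * lam + 16) ≤ ((i : ℝ) + 4) * q :=
            mul_le_mul_of_nonneg_left hq (by linarith)
          linarith
      _ = Real.exp (1 / 2) ^ ((i + 4) * q) := Real.exp_nat_mul _ _
      _ ≤ 2 ^ ((i + 4) * q) := pow_le_pow_left₀ (Real.exp_pos _).le exp_half_le _
      _ = (16 * 2 ^ i) ^ q := by
          rw [pow_mul, pow_add]
          congr 1
          norm_num
          ring
  have h2 : (2 : ℝ) ^ (i + 6) ≤ Real.exp (i + 6) := by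
    calc (2 : ℝ) ^ (i + 6) ≤ Real.exp 1 ^ (i + 6) :=
          pow_le_pow_left₀ (by norm_num) two_le_exp _
      _ = Real.exp (((i + 6 : ℕ) : ℝ) * 1) := (Real.exp_nat_mul _ _).symm
      _ = Real.exp (i + 6) := by
          push_cast
          rw [mul_one]
  have h3 : Real.exp ((2 * i + 8) * lam) * Real.exp 1 * 2 ^ (i + 6) ≤ (16 * 2 ^ i) ^ q := by
    calc Real.exp ((2 * i + 8) * lam) * Real.exp 1 * 2 ^ (i + 6)
        ≤ Real.exp ((2 * i + 8) * lam) * Real.exp 1 * Real.exp (i + 6) :=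
          mul_le_mul_of_nonneg_left h2 (by positivity)
      _ = Real.exp ((2 * i + 8) * lam + 1 + (i + 6)) := by
          rw [Real.exp_add ((2 * (i : ℝ) + 8) * lam + 1) ((i : ℝ) + 6),
            Real.exp_add ((2 * (i : ℝ) + 8) * lam) 1]
      _ ≤ Real.exp ((i + 4) * (8 * lam + 8)) := by
          apply Real.exp_le_exp.2
          nlinarith
      _ ≤ _ := h1
  have h4 : (1 / (16 * 2 ^ i) : ℝ) ^ q = ((16 * 2 ^ i) ^ q)⁻¹ := by rw [one_div, inv_pow]
  have h5 : (0 : ℝ) < (16 * 2 ^ i) ^ q := by positivity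
  have h6 : (1 : ℝ) ≤ q := by linarith
  rw [h4, le_div_iff₀ (by positivity)]
  have h7 : Real.exp ((2 * i + 8) * lam) * (Real.exp 1 * ((16 * 2 ^ i) ^ q)⁻¹) * 2 ^ (i + 6) =
      Real.exp ((2 * i + 8) * lam) * Real.exp 1 * 2 ^ (i + 6) / (16 * 2 ^ i) ^ q := by
    rw [div_eq_mul_inv]
    ring
  rw [h7]
  refine le_trans ?_ h6
  rw [div_le_one h5]
  exact h3

variable {V : Type} [Fintype V] [DecidableEq V]

theorem pr_nonneg {σ : V → ℝ} (hσ : IsP σ) (B : Finset (V × V)) (x : V) : 0 ≤ pr σ B x := by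
  unfold pr
  refine Finset.sum_nonneg fun s _ => ?_
  split_ifs
  · exact hσ.1 s
  · exact le_rfl

theorem ems_pos {m : ℕ} (B : Finset (V × V)) (z : Fin m → V) (x : V) : 0 < ems B z x := by
  unfold ems
  have h1 : (0 : ℝ) ≤ ∑ i, if (x, z i) ∈ B then (1 : ℝ) else 0 := by
    refine Finset.sum_nonneg fun i _ => ?_
    split_ifs <;> norm_num
  positivity

theorem Ex_pos {m : ℕ} {σ : V → ℝ} (hσ : IsP σ) (φ : (Fin m → V) → ℝ) (hφ : ∀ s, 0 < φ s) :
    0 < Ex σ φ := by
  unfold Ex
  obtain ⟨x, hx⟩ : ∃ x, 0 < σ x := by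
    by_contra hcon
    push Not at hcon
    have h1 : ∑ x, σ x ≤ 0 := Finset.sum_nonpos fun x _ => hcon x
    rw [hσ.2] at h1
    linarith
  refine Finset.sum_pos' (fun s _ => ?_) ⟨fun _ => x, Finset.mem_univ _, ?_⟩
  · exact mul_nonneg (Finset.prod_nonneg fun i _ => hσ.1 _) (hφ s).le
  · exact mul_pos (Finset.prod_pos fun i _ => hx) (hφ _)

theorem symm_sum {B : Finset (V × V)} (hB : ∀ x y, (x, y) ∈ B ↔ (y, x) ∈ B) (σ ρ : V → ℝ) :
    ∑ x, ρ x * pr σ B x = ∑ s, σ s * pr ρ B s := by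
  unfold pr
  have h1 : ∀ x, ρ x * ∑ s, (if (x, s) ∈ B then σ s else 0) =
      ∑ s, if (x, s) ∈ B then ρ x * σ s else 0 := by
    intro x
    rw [Finset.mul_sum]
    refine Finset.sum_congr rfl fun s _ => ?_
    split_ifs
    · rfl
    · rw [mul_zero]
  have h2 : ∀ s, σ s * ∑ x, (if (s, x) ∈ B then ρ x else 0) =
      ∑ x, if (x, s) ∈ B then ρ x * σ s else 0 := by
    intro s
    rw [Finset.mul_sum]
    refine Finset.sum_congr rfl fun x _ => ?_
    by_cases hx : (s, x) ∈ B
    · rw [if_pos hx, if_pos ((hB s x).1 hx), mul_comm]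
    · rw [if_neg hx, if_neg (fun h => hx ((hB s x).2 h)), mul_zero]
  rw [Finset.sum_congr rfl fun x _ => h1 x, Finset.sum_congr rfl fun s _ => h2 s,
    Finset.sum_comm]

end NB7L

open NB7L

theorem los2 (mom2 : MOM2) (sq2 : SEQ2) : LOS2 := by
  intro V Θ _ _ _ π A B E lam q n hA hlam hq hD i hi
  have hq16 : (16 : ℝ) ≤ q := by linarith
  have hq16' : 16 ≤ q := by exact_mod_cast hq16
  obtain ⟨hP, -, hs, hρp, hZ, hlogZ, hH, hDD, hsum⟩ := sq2 V Θ π A B E lam q n hA hlam (by omega) hD i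
  obtain ⟨hP', -⟩ := sq2 V Θ π A B E lam q n hA hlam (by omega) hD (i + 1)
  obtain ⟨σ, hσ⟩ : ∃ σ : V → ℝ, σ = sg2 A B E q i := ⟨_, rfl⟩
  obtain ⟨ρ, hρ⟩ : ∃ ρ : V → ℝ, ρ = sg2 A B E q (i + 1) := ⟨_, rfl⟩
  rw [← hρ] at hρp hH hDD hP'
  rw [← hσ] at hP hs hρp hZ hlogZ hH hDD hsum
  rw [← hρ, ← hσ]
  obtain ⟨Z, hZd⟩ : ∃ Z, Z = Z2 q B (E (i + 1)) σ := ⟨_, rfl⟩
  rw [← hZd] at hZ hlogZ hH
  have hA0 : (0 : ℝ) < A.card := by exact_mod_cast hA.card_pos
  have hAZ : (A.card : ℝ) ≤ Real.exp (3 * lam) * Z := by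
    have h1 : Real.log A.card ≤ 3 * lam + Real.log Z := by linarith
    have h2 := Real.exp_le_exp.2 h1
    rwa [Real.exp_log hA0, Real.exp_add, Real.exp_log hZ] at h2
  constructor
  · obtain ⟨a, ha⟩ : ∃ a : ℝ, a = (q : ℝ) / 2 ^ (i + 6) := ⟨_, rfl⟩
    have ha0 : 0 < a := by rw [ha]; positivity
    obtain ⟨W, hW⟩ : ∃ W, W = ∑ x ∈ E (i + 2),
      Ex σ (fun s : Fin (2 ^ (i + 6) * q) → V => ems B s x ^ q) := ⟨_, rfl⟩
    rw [← hW]
    have hpt : ∀ x, Ex σ (fun s : Fin (2 ^ (i + 6) * q) → V => ems B s x ^ q) ≤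
        pr σ B x ^ q * Real.exp (64 * a) + 2048 * a * pr σ B x * (1 / 4) ^ q +
          Real.exp 1 * (1 / (16 * 2 ^ i)) ^ q := by
      intro x
      have hm1 : 0 < 2 ^ (i + 6) * q := Nat.mul_pos (by positivity) (by omega)
      have hm2 : q ≤ 2 ^ (i + 6) * q := Nat.le_mul_of_pos_left _ (by positivity)
      obtain ⟨h1, h2⟩ := mom2 V (2 ^ (i + 6) * q) q σ B x hP hm1 (by omega) hm2
      exact point q i (by omega) (pr σ B x) _ ((2 ^ (i + 6) * q : ℕ) : ℝ) a (by push_cast; ring)
        ha (pr_nonneg hP B x) h1 h2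
    have hsub : E (i + 1) ⊆ E (i + 2) := hD.mono (i + 1)
    have hne : (E (i + 2)).Nonempty := by
      by_contra h
      rw [Finset.not_nonempty_iff_eq_empty] at h
      have h1 : E (i + 1) = ∅ := Finset.subset_empty.1 (h ▸ hsub)
      rw [hZd, h1] at hZ
      unfold Z2 at hZ
      rw [Finset.sum_empty] at hZ
      exact lt_irrefl _ hZ
    have hW0 : 0 < W := by
      rw [hW]
      exact Finset.sum_pos (fun x _ => Ex_pos hP _ fun s => pow_pos (ems_pos B s x) q) hne
    have hZ2 : ∑ x ∈ E (i + 2), pr σ B x ^ q = Z := by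
      rw [hZd]
      unfold Z2
      refine (Finset.sum_subset hsub fun x _ hx => ?_).symm
      have h3 : pr σ B x = 0 := by
        by_contra h
        exact hx (hs x h)
      rw [h3]
      exact zero_pow (by omega)
    have hp1 : ∑ x ∈ E (i + 2), pr σ B x ≤ Real.exp lam * A.card := by
      refine le_trans ?_ hsum
      exact Finset.sum_le_sum_of_subset_of_nonneg (Finset.subset_univ _)
        fun x _ _ => pr_nonneg hP B x
    have hcard : ((E (i + 2)).card : ℝ) ≤ Real.exp ((2 * i + 5) * lam) * A.card := by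
      refine (hD.card (i + 2) (by omega)).trans (le_of_eq ?_)
      congr 2
      push_cast
      ring
    have hWle : W ≤ Z * Real.exp (64 * a) + 2048 * a * (1 / 4) ^ q * (Real.exp lam * A.card) +
        Real.exp ((2 * i + 5) * lam) * A.card * (Real.exp 1 * (1 / (16 * 2 ^ i)) ^ q) := by
      rw [hW]
      refine (Finset.sum_le_sum fun x _ => hpt x).trans ?_
      rw [Finset.sum_add_distrib, Finset.sum_add_distrib, ← Finset.sum_mul, hZ2,
        Finset.sum_const, nsmul_eq_mul]
      have e1 : ∑ x ∈ E (i + 2), 2048 * a * pr σ B x * (1 / 4) ^ q =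
          2048 * a * (1 / 4) ^ q * ∑ x ∈ E (i + 2), pr σ B x := by
        rw [Finset.mul_sum]
        exact Finset.sum_congr rfl fun x _ => by ring
      rw [e1]
      have e2 := mul_le_mul_of_nonneg_left hp1
        (by positivity : (0 : ℝ) ≤ 2048 * a * (1 / 4) ^ q)
      have e3 := mul_le_mul_of_nonneg_right hcard
        (by positivity : (0 : ℝ) ≤ Real.exp 1 * (1 / (16 * 2 ^ i)) ^ q)
      linarith
    have hT2 : 2048 * a * (1 / 4) ^ q * (Real.exp lam * A.card) ≤ a * Z := by
      have e1 := num2 q lam hlam hq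
      calc 2048 * a * (1 / 4) ^ q * (Real.exp lam * A.card)
          ≤ 2048 * a * (1 / 4) ^ q * (Real.exp lam * (Real.exp (3 * lam) * Z)) := by
            refine mul_le_mul_of_nonneg_left ?_ (by positivity)
            exact mul_le_mul_of_nonneg_left hAZ (Real.exp_pos _).le
        _ = (2048 * (1 / 4) ^ q * Real.exp (4 * lam)) * (a * Z) := by
            have e2 : Real.exp (4 * lam) = Real.exp lam * Real.exp (3 * lam) := by
              rw [← Real.exp_add]
              congr 1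
              ring
            rw [e2]
            ring
        _ ≤ 1 * (a * Z) := mul_le_mul_of_nonneg_right e1 (by positivity)
        _ = a * Z := one_mul _
    have hT3 : Real.exp ((2 * i + 5) * lam) * A.card * (Real.exp 1 * (1 / (16 * 2 ^ i)) ^ q) ≤
        a * Z := by
      have e1 := num3 q i lam hlam hq
      rw [← ha] at e1
      calc Real.exp ((2 * i + 5) * lam) * A.card * (Real.exp 1 * (1 / (16 * 2 ^ i)) ^ q)
          ≤ Real.exp ((2 * i + 5) * lam) * (Real.exp (3 * lam) * Z) *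
            (Real.exp 1 * (1 / (16 * 2 ^ i)) ^ q) := by
            refine mul_le_mul_of_nonneg_right ?_ (by positivity)
            exact mul_le_mul_of_nonneg_left hAZ (Real.exp_pos _).le
        _ = Real.exp ((2 * i + 8) * lam) * (Real.exp 1 * (1 / (16 * 2 ^ i)) ^ q) * Z := by
            have e2 : Real.exp ((2 * i + 8) * lam) =
                Real.exp ((2 * i + 5) * lam) * Real.exp (3 * lam) := by
              rw [← Real.exp_add]
              congr 1
              ring
            rw [e2]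
            ring
        _ ≤ a * Z := mul_le_mul_of_nonneg_right e1 hZ.le
    have hWZ : W ≤ Z * Real.exp (66 * a) := by
      have e1 : Real.exp (66 * a) = Real.exp (64 * a) * Real.exp (2 * a) := by
        rw [← Real.exp_add]
        congr 1
        ring
      have e2 : 2 * a + 1 ≤ Real.exp (2 * a) := Real.add_one_le_exp _
      have e3 : 1 ≤ Real.exp (64 * a) := Real.one_le_exp (by positivity)
      have e4 : Real.exp (64 * a) + 2 * a ≤ Real.exp (66 * a) := by
        rw [e1]
        nlinarith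
      have e5 := mul_le_mul_of_nonneg_left e4 hZ.le
      nlinarith
    have h3 : Real.log W ≤ Real.log Z + 66 * a := by
      have e1 := Real.log_le_log hW0 hWZ
      rwa [Real.log_mul hZ.ne' (Real.exp_pos _).ne', Real.log_exp] at e1
    have h4 : 66 * (q : ℝ) / 2 ^ (i + 6) = 66 * a := by
      rw [ha, mul_div_assoc]
    rw [hH, h4]
    linarith
  · have hD1 : -(∑ x, ρ x * Real.log (pr σ B x)) ≤ 1 / 4 := by
      by_contra hcon
      push Not at hcon
      have e1 : ((q : ℝ) - 1) * (1 / 4) <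
          ((q : ℝ) - 1) * -(∑ x, ρ x * Real.log (pr σ B x)) :=
        mul_lt_mul_of_pos_left hcon (by linarith)
      linarith
    have hmean : 3 / 4 ≤ ∑ x, ρ x * pr σ B x := by
      have e1 : ∑ x, ρ x * Real.log (pr σ B x) ≤ ∑ x, (ρ x * pr σ B x - ρ x) := by
        refine Finset.sum_le_sum fun x _ => ?_
        by_cases hx : ρ x = 0
        · rw [hx, zero_mul, zero_mul, sub_zero]
        · have e2 := Real.log_le_sub_one_of_pos (hρp x hx)
          have e3 := mul_le_mul_of_nonneg_left e2 (hP'.1 x)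
          linarith
      rw [Finset.sum_sub_distrib, hP'.2] at e1
      linarith
    rw [symm_sum hD.symm] at hmean
    by_contra hcon
    push Not at hcon
    have h5 : ∑ y, σ y * pr ρ B y < 3 / 4 := by
      have h6 : ∑ y, σ y * pr ρ B y < ∑ y, σ y * (3 / 4) := by
        refine Finset.sum_lt_sum (fun y _ => ?_) ?_
        · by_cases hy : σ y = 0
          · rw [hy, zero_mul, zero_mul]
          · exact mul_le_mul_of_nonneg_left (hcon y hy).le (hP.1 y)
        · have h7 : ∃ y, σ y ≠ 0 := by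
            by_contra h8
            push Not at h8
            have h9 := hP.2
            rw [Finset.sum_congr rfl fun y _ => h8 y, Finset.sum_const_zero] at h9
            exact zero_ne_one h9
          obtain ⟨y, hy⟩ := h7
          exact ⟨y, Finset.mem_univ _, mul_lt_mul_of_pos_left (hcon y hy)
            (lt_of_le_of_ne (hP.1 y) (Ne.symm hy))⟩
      rw [← Finset.sum_mul, hP.2, one_mul] at h6
      exact h6
    linarith

end Pool.Agent.H952.NA
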