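import Pool.Agent.H952.NA.Stm2

/-!
# The mean of `-log ems` (`LOG2`)
-/

set_option autoImplicit false

namespace Pool.Agent.H952.NA

open Finset
open Pool.Agent.H98.BG (IsP H GIB)
open scoped Pointwise

namespace NB2L

variable {V : Type} [Fintype V] [DecidableEq V]

/-- the number of hits -/
noncomputable def kk {m : ℕ} (B : Finset (V × V)) (x : V) (s : Fin m → V) : ℝ :=
  ∑ i, if (x, s i) ∈ B then (1 : ℝ) else 0

omit [Fintype V] in
theorem kk_nonneg {m : ℕ} (B : Finset (V × V)) (x : V) (s : Fin m → V) : 0 ≤ kk B x s := by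
  unfold kk
  refine sum_nonneg fun i _ => ?_
  split_ifs
  · exact zero_le_one
  · exact le_rfl

omit [DecidableEq V] in
theorem sum_prod {σ : V → ℝ} (hσ : IsP σ) (m : ℕ) :
    ∑ s : Fin m → V, ∏ i, σ (s i) = 1 := by
  have hsp : ∑ s : Fin m → V, ∏ i, σ (s i) = ∏ _i : Fin m, ∑ g : V, σ g := by
    rw [prod_univ_sum]
    simp only [Fintype.piFinset_univ]
  rw [hsp, prod_const, hσ.2, one_pow]

theorem one_coord (m : ℕ) (σ : V → ℝ) (B : Finset (V × V)) (x : V) (i : Fin (m + 1)) :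
    ∑ z : Fin (m + 1) → V, (∏ j, σ (z j)) * ((if (x, z i) ∈ B then (1 : ℝ) else 0) / kk B x z) =
      pr σ B x * Ex σ (fun s : Fin m → V => (kk B x s + 1)⁻¹) := by
  rw [← (Fin.insertNthEquiv (fun _ => V) i).sum_comp, Fintype.sum_prod_type]
  unfold pr Ex
  rw [Finset.sum_mul_sum]
  refine sum_congr rfl fun a _ => sum_congr rfl fun s _ => ?_
  have h1 : ∏ j, σ ((Fin.insertNthEquiv (fun _ => V) i) (a, s) j) = σ a * ∏ j, σ (s j) := by
    rw [Fin.prod_univ_succAbove _ i]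
    simp [Fin.insertNthEquiv]
  have h2 : kk B x ((Fin.insertNthEquiv (fun _ => V) i) (a, s)) =
      (if (x, a) ∈ B then (1 : ℝ) else 0) + kk B x s := by
    unfold kk
    rw [Fin.sum_univ_succAbove _ i]
    simp [Fin.insertNthEquiv]
  have h3 : (Fin.insertNthEquiv (fun _ => V) i) (a, s) i = a := by
    simp [Fin.insertNthEquiv]
  rw [h1, h2, h3]
  split_ifs
  · rw [add_comm (1 : ℝ), one_div]
    ring
  · simp

theorem key {σ : V → ℝ} (hσ : IsP σ) (m : ℕ) (B : Finset (V × V)) (x : V) :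
    pr σ B x * (((m : ℝ) + 1) * Ex σ (fun s : Fin m → V => (kk B x s + 1)⁻¹)) ≤ 1 := by
  have h1 : ∑ i : Fin (m + 1), ∑ z : Fin (m + 1) → V, (∏ j, σ (z j)) *
      ((if (x, z i) ∈ B then (1 : ℝ) else 0) / kk B x z) =
      pr σ B x * (((m : ℝ) + 1) * Ex σ (fun s : Fin m → V => (kk B x s + 1)⁻¹)) := by
    simp_rw [one_coord]
    rw [sum_const, card_univ, Fintype.card_fin, nsmul_eq_mul]
    push_cast
    ring
  rw [← h1, sum_comm]
  refine (sum_le_sum fun z _ => ?_).trans (sum_prod hσ (m + 1)).le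
  rw [← mul_sum, ← sum_div]
  have h2 : (∑ i, if (x, z i) ∈ B then (1 : ℝ) else 0) / kk B x z ≤ 1 := div_self_le_one _
  have h3 : 0 ≤ ∏ j, σ (z j) := prod_nonneg fun j _ => hσ.1 _
  exact mul_le_of_le_one_right h3 h2

end NB2L

open NB2L in
theorem log2 : LOG2 := by
  intro V _ _ m σ B x hσ hm hp
  have hE : ∀ s : Fin m → V, ems B s x = (kk B x s + 1) / (m + 1) := fun s => rfl
  have hk := key hσ m B x
  have h1 : Ex σ (fun s : Fin m → V => -Real.log (ems B s x)) ≤
      ∑ s : Fin m → V, (∏ i, σ (s i)) * (pr σ B x * ((m : ℝ) + 1) * (kk B x s + 1)⁻¹ +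
        (-1 - Real.log (pr σ B x))) := by
    unfold Ex
    refine sum_le_sum fun s _ => mul_le_mul_of_nonneg_left ?_ (prod_nonneg fun j _ => hσ.1 _)
    have hk0 : 0 < kk B x s + 1 := by have := kk_nonneg B x s; linarith
    have hm0 : (0 : ℝ) < (m : ℝ) + 1 := by positivity
    have he : 0 < ems B s x := by rw [hE]; positivity
    have h2 := Real.log_le_sub_one_of_pos (div_pos hp he)
    rw [Real.log_div hp.ne' he.ne'] at h2
    have h3 : pr σ B x / ems B s x = pr σ B x * ((m : ℝ) + 1) * (kk B x s + 1)⁻¹ := by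
      rw [hE]
      field_simp
    rw [h3] at h2
    linarith
  have h4 : ∑ s : Fin m → V, (∏ i, σ (s i)) * (pr σ B x * ((m : ℝ) + 1) * (kk B x s + 1)⁻¹) =
      pr σ B x * (((m : ℝ) + 1) * Ex σ (fun s : Fin m → V => (kk B x s + 1)⁻¹)) := by
    unfold Ex
    rw [mul_sum, mul_sum]
    refine sum_congr rfl fun s _ => ?_
    ring
  have h5 : ∑ s : Fin m → V, (∏ i, σ (s i)) * (pr σ B x * ((m : ℝ) + 1) * (kk B x s + 1)⁻¹ +
        (-1 - Real.log (pr σ B x))) =
      ∑ s : Fin m → V, (∏ i, σ (s i)) * (pr σ B x * ((m : ℝ) + 1) * (kk B x s + 1)⁻¹) +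
        (-1 - Real.log (pr σ B x)) := by
    have h6 : ∑ s : Fin m → V, (∏ i, σ (s i)) * (-1 - Real.log (pr σ B x)) =
        -1 - Real.log (pr σ B x) := by
      rw [← sum_mul, sum_prod hσ m, one_mul]
    conv_rhs => rw [← h6]
    rw [← sum_add_distrib]
    refine sum_congr rfl fun s _ => ?_
    rw [mul_add]
  rw [h5, h4] at h1
  linarith

end Pool.Agent.H952.NA
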