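import Pool.Agent.H952.NA.Stm

/-!
# The moment generating function of the empirical frequency (`MGF`)
-/

set_option autoImplicit false

namespace Pool.Agent.H952.NA

open Finset
open Pool.Agent.H98.BG (IsP H GIB)
open scoped Pointwise

namespace MgfL

theorem exp_le {u : ℝ} (h0 : 0 ≤ u) (h1 : u ≤ 1) : Real.exp u - 1 ≤ u + u ^ 2 := by
  have h := Real.abs_exp_sub_one_sub_id_le (x := u) (by rw [abs_of_nonneg h0]; exact h1)
  have := (abs_le.1 h).2
  linarith

theorem pr_mem {V : Type} [Fintype V] [DecidableEq V] {σ : V → ℝ} (hσ : IsP σ)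
    (B : Finset (V × V)) (x : V) : 0 ≤ pr σ B x ∧ pr σ B x ≤ 1 := by
  constructor
  · unfold pr
    refine sum_nonneg fun s _ => ?_
    split_ifs
    · exact hσ.1 s
    · exact le_rfl
  · rw [← hσ.2]
    unfold pr
    refine sum_le_sum fun s _ => ?_
    split_ifs
    · exact le_rfl
    · exact hσ.1 s

end MgfL

open MgfL in
theorem mgf : MGF := by
  intro V _ _ m q σ B x hσ hm hq hqm
  have hmr : (0 : ℝ) < m := by exact_mod_cast hm
  set u : ℝ := q / m with hu
  have hu0 : 0 ≤ u := div_nonneg hq hmr.le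
  have hu1 : u ≤ 1 := by rw [hu, div_le_one hmr]; exact hqm
  obtain ⟨hf0, hf1⟩ := pr_mem hσ B x
  have h1 : ∀ s : Fin m → V, (∏ i, σ (s i)) * Real.exp (q * em B s x) =
      ∏ i, (σ (s i) * Real.exp (u * if (x, s i) ∈ B then 1 else 0)) := by
    intro s
    rw [prod_mul_distrib, ← Real.exp_sum, ← mul_sum]
    congr 2
    unfold em
    rw [hu]
    ring
  have h2 : Ex σ (fun s : Fin m → V => Real.exp (q * em B s x)) =
      (1 + pr σ B x * (Real.exp u - 1)) ^ m := by
    unfold Ex
    simp_rw [h1]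
    have hsp : ∑ s : Fin m → V, ∏ i, (σ (s i) * Real.exp (u * if (x, s i) ∈ B then 1 else 0)) =
        ∏ _i : Fin m, ∑ g : V, σ g * Real.exp (u * if (x, g) ∈ B then 1 else 0) := by
      rw [prod_univ_sum]
      simp only [Fintype.piFinset_univ]
    rw [hsp, prod_const, card_univ, Fintype.card_fin]
    congr 1
    have h3 : ∀ g, σ g * Real.exp (u * if (x, g) ∈ B then 1 else 0) =
        σ g + (if (x, g) ∈ B then σ g else 0) * (Real.exp u - 1) := by
      intro g
      split_ifs
      · rw [mul_one]; ring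
      · simp
    simp_rw [h3]
    rw [sum_add_distrib, hσ.2, ← sum_mul]
    rfl
  rw [h2]
  have h4 : 1 + pr σ B x * (Real.exp u - 1) ≤ Real.exp (pr σ B x * (u + u ^ 2)) := by
    have h5 := exp_le hu0 hu1
    have h6 := Real.add_one_le_exp (pr σ B x * (u + u ^ 2))
    have h7 := mul_le_mul_of_nonneg_left h5 hf0
    linarith
  have h5 : 0 ≤ 1 + pr σ B x * (Real.exp u - 1) := by
    have h6 : 1 ≤ Real.exp u := Real.one_le_exp hu0
    have h7 := mul_nonneg hf0 (sub_nonneg.2 h6)
    linarith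
  refine (pow_le_pow_left₀ h5 h4 m).trans ?_
  rw [← Real.exp_nat_mul]
  apply Real.exp_le_exp.2
  have e : (m : ℝ) * (pr σ B x * (u + u ^ 2)) = q * pr σ B x + pr σ B x * (q ^ 2 / m) := by
    rw [hu]
    field_simp
  rw [e]
  have h8 : pr σ B x * (q ^ 2 / m) ≤ 1 * (q ^ 2 / m) :=
    mul_le_mul_of_nonneg_right hf1 (by positivity)
  linarith

end Pool.Agent.H952.NA
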