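import Pool.Agent.H952.NA.Stm

/-!
# The mean entropy (`NS`)
-/

set_option autoImplicit false
set_option linter.unusedSectionVars false

namespace Pool.Agent.H952.NA

open Finset
open Pool.Agent.H98.BG (IsP H GIB)
open scoped Pointwise

namespace NSL

variable {V Θ : Type} [Fintype V] [DecidableEq V] [Fintype Θ]

theorem sum_prod {m : ℕ} (f : Fin m → V → ℝ) :
    ∑ s : Fin m → V, ∏ i, f i (s i) = ∏ i, ∑ g, f i g := by
  have h := Finset.prod_univ_sum (fun _ : Fin m => (Finset.univ : Finset V)) f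
  rw [Fintype.piFinset_univ] at h
  exact h.symm

theorem Ex_add {m : ℕ} (σ : V → ℝ) (φ ψ : (Fin m → V) → ℝ) :
    Ex σ (fun s => φ s + ψ s) = Ex σ φ + Ex σ ψ := by
  unfold Ex
  rw [← Finset.sum_add_distrib]
  exact Finset.sum_congr rfl (fun s _ => mul_add _ _ _)

theorem Ex_smul {m : ℕ} (σ : V → ℝ) (c : ℝ) (φ : (Fin m → V) → ℝ) :
    Ex σ (fun s => c * φ s) = c * Ex σ φ := by
  unfold Ex
  rw [Finset.mul_sum]
  exact Finset.sum_congr rfl (fun s _ => by ring)

theorem Ex_sum {m : ℕ} (σ : V → ℝ) {ι : Type} (I : Finset ι) (φ : ι → (Fin m → V) → ℝ) :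
    Ex σ (fun s => ∑ i ∈ I, φ i s) = ∑ i ∈ I, Ex σ (φ i) := by
  unfold Ex
  rw [Finset.sum_comm]
  exact Finset.sum_congr rfl (fun s _ => Finset.mul_sum _ _ _)

theorem Ex_mono {m : ℕ} (σ : V → ℝ) (hσ : ∀ g, 0 ≤ σ g) (φ ψ : (Fin m → V) → ℝ)
    (h : ∀ s, φ s ≤ ψ s) : Ex σ φ ≤ Ex σ ψ := by
  unfold Ex
  exact Finset.sum_le_sum (fun s _ =>
    mul_le_mul_of_nonneg_left (h s) (Finset.prod_nonneg (fun i _ => hσ (s i))))

theorem Ex_const {m : ℕ} (σ : V → ℝ) (hσ : ∑ g, σ g = 1) (c : ℝ) :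
    Ex (m := m) σ (fun _ => c) = c := by
  unfold Ex
  rw [← Finset.sum_mul, sum_prod (fun _ => σ), hσ]
  simp

theorem Ex_one {m : ℕ} (σ : V → ℝ) (hσ : ∑ g, σ g = 1) (Y : V → ℝ) (i : Fin m) :
    Ex σ (fun s : Fin m → V => Y (s i)) = ∑ g, σ g * Y g := by
  unfold Ex
  have h1 : ∀ s : Fin m → V, (∏ j, σ (s j)) * Y (s i) =
      ∏ j, (σ (s j) * (if j = i then Y (s j) else 1)) := by
    intro s
    rw [Finset.prod_mul_distrib, Finset.prod_ite_eq' Finset.univ i (fun j => Y (s j))]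
    simp
  simp_rw [h1]
  rw [sum_prod (fun j g => σ g * (if j = i then Y g else 1))]
  rw [Finset.prod_eq_single i]
  · simp
  · intro j _ hj
    simp [hj, hσ]
  · simp

/-- the mean of the empirical frequency -/
theorem Ex_em {m : ℕ} (σ : V → ℝ) (hσ : IsP σ) (B : Finset (V × V)) (x : V) (hm : 0 < m) :
    Ex σ (fun s : Fin m → V => em B s x) = pr σ B x := by
  have hm0 : (m : ℝ) ≠ 0 := by exact_mod_cast hm.ne'
  have hpr : ∑ g, σ g * (if (x, g) ∈ B then (1 : ℝ) else 0) = pr σ B x := by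
    unfold pr
    exact Finset.sum_congr rfl (fun g _ => by split_ifs <;> simp)
  have hem : (fun s : Fin m → V => em B s x) = fun s : Fin m → V =>
      (1 / (m : ℝ)) * ∑ i, (if (x, s i) ∈ B then (1 : ℝ) else 0) := by
    funext s
    unfold em
    ring
  rw [hem, Ex_smul, Ex_sum]
  have h1 : ∀ i ∈ (Finset.univ : Finset (Fin m)),
      Ex σ (fun s : Fin m → V => if (x, s i) ∈ B then (1 : ℝ) else 0) = pr σ B x := fun i _ => by
    rw [Ex_one σ hσ.2 (fun g => if (x, g) ∈ B then (1 : ℝ) else 0) i, hpr]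
  rw [Finset.sum_congr rfl h1, Finset.sum_const, Finset.card_univ, Fintype.card_fin, nsmul_eq_mul]
  field_simp

theorem Wt_nonneg {m : ℕ} (π : Θ → Equiv.Perm V) {σ : V → ℝ} {τ : Θ → ℝ} (hσ : IsP σ)
    (hτ : IsP τ) (z : Fin m → V) (t : Θ) : 0 ≤ Wt π σ τ z t := by
  unfold Wt
  exact mul_nonneg (hτ.1 t) (prod_nonneg fun i _ => hσ.1 _)

theorem Pz_nonneg {m : ℕ} (π : Θ → Equiv.Perm V) {σ : V → ℝ} {τ : Θ → ℝ} (hσ : IsP σ)
    (hτ : IsP τ) (z : Fin m → V) : 0 ≤ Pz π σ τ z :=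
  sum_nonneg fun t _ => Wt_nonneg π hσ hτ z t

theorem post_isP {m : ℕ} (π : Θ → Equiv.Perm V) {σ : V → ℝ} {τ : Θ → ℝ} (hσ : IsP σ)
    (hτ : IsP τ) (z : Fin m → V) (h : 0 < Pz π σ τ z) : IsP (post π σ τ z) := by
  refine ⟨fun t => div_nonneg (Wt_nonneg π hσ hτ z t) h.le, ?_⟩
  have e : ∑ t, post π σ τ z t = (∑ t, Wt π σ τ z t) / Pz π σ τ z := by
    rw [sum_div]
    rfl
  rw [e]
  exact div_self h.ne'

theorem sum_cv (π : Θ → Equiv.Perm V) (σ : V → ℝ) (τ : Θ → ℝ) (φ : V → ℝ) :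
    ∑ y, cv π σ τ y * φ y = ∑ t, τ t * ∑ x, σ x * φ (π t x) := by
  unfold cv
  simp only [sum_mul]
  rw [sum_comm]
  refine sum_congr rfl fun t _ => ?_
  rw [mul_sum, ← Equiv.sum_comp (π t) (fun y => σ ((π t).symm y) * τ t * φ y)]
  refine sum_congr rfl fun x _ => ?_
  rw [Equiv.symm_apply_apply]
  ring

theorem cv_isP (π : Θ → Equiv.Perm V) {σ : V → ℝ} {τ : Θ → ℝ} (hσ : IsP σ) (hτ : IsP τ) :
    IsP (cv π σ τ) := by
  refine ⟨fun y => sum_nonneg fun t _ => mul_nonneg (hσ.1 _) (hτ.1 _), ?_⟩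
  have h := sum_cv π σ τ (fun _ => 1)
  simp only [mul_one] at h
  rw [h, hσ.2]
  simpa using hτ.2

theorem ex_ne {α : Type} [Fintype α] {p : α → ℝ} (hp : IsP p) : ∃ x, p x ≠ 0 := by
  by_contra h
  push Not at h
  have := hp.2
  simp [h] at this

/-- the function inside the expectation -/
noncomputable def F {m : ℕ} (q : ℝ) (ρ : V → ℝ) (B : Finset (V × V)) (R' : Finset V)
    (s : Fin m → V) : ℝ :=
  -(q * ∑ x, ρ x * em B s x) + Real.log (∑ x ∈ R', Real.exp (q * em B s x))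

theorem key (gib : GIB) {m : ℕ} (q : ℝ) (π : Θ → Equiv.Perm V) {σ ρ : V → ℝ} {p τ : Θ → ℝ}
    (hρ : IsP ρ) (hp : IsP p) (hpτ : ∀ t, p t ≠ 0 → τ t ≠ 0)
    (B : Finset (V × V)) (R R' : Finset V)
    (heq : ∀ t, τ t ≠ 0 → ∀ x ∈ R', ∀ s, σ s ≠ 0 → ((π t x, π t s) ∈ B ↔ (x, s) ∈ B))
    (hR : ∀ x t, ρ x ≠ 0 → τ t ≠ 0 → π t x ∈ R)
    (hR' : ∀ y t, y ∈ R → τ t ≠ 0 → (π t).symm y ∈ R') (z : Fin m → V)
    (hz : ∀ t, p t ≠ 0 → ∀ i, σ ((π t).symm (z i)) ≠ 0) :
    H (cv π ρ p) ≤ ∑ t, p t * F q ρ B R' (fun i => (π t).symm (z i)) := by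
  have hRne : R.Nonempty := by
    obtain ⟨x, hx⟩ := ex_ne hρ
    obtain ⟨t, ht⟩ := ex_ne hp
    exact ⟨π t x, hR x t hx (hpτ t ht)⟩
  set Z : ℝ := ∑ y ∈ R, Real.exp (q * em B z y) with hZdef
  have hZ : 0 < Z := sum_pos (fun y _ => Real.exp_pos _) hRne
  set ω : V → ℝ := fun y => if y ∈ R then Real.exp (q * em B z y) / Z else 0 with hωdef
  have hω0 : ∀ y, 0 ≤ ω y := by
    intro y
    simp only [hωdef]
    split_ifs
    · exact div_nonneg (Real.exp_pos _).le hZ.le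
    · exact le_rfl
  have hω1 : ∑ y, ω y = 1 := by
    simp only [hωdef]
    rw [sum_ite_mem, univ_inter, ← sum_div]
    exact div_self hZ.ne'
  have hsupp : ∀ y, cv π ρ p y ≠ 0 → y ∈ R := by
    intro y hy
    obtain ⟨t, -, ht⟩ := exists_ne_zero_of_sum_ne_zero hy
    have h1 : ρ ((π t).symm y) ≠ 0 := left_ne_zero_of_mul ht
    have h2 : p t ≠ 0 := right_ne_zero_of_mul ht
    have h3 := hR ((π t).symm y) t h1 (hpτ t h2)
    rwa [Equiv.apply_symm_apply] at h3
  have g := gib V (cv π ρ p) ω (cv_isP π hρ hp) hω0 hω1.le (fun y hy => by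
    simp only [hωdef, if_pos (hsupp y hy)]
    exact div_pos (Real.exp_pos _) hZ)
  have e1 : -∑ y, cv π ρ p y * Real.log (ω y) =
      ∑ y, cv π ρ p y * (-(q * em B z y) + Real.log Z) := by
    rw [← sum_neg_distrib]
    refine sum_congr rfl fun y _ => ?_
    by_cases hy : cv π ρ p y = 0
    · rw [hy]; simp
    · have h1 : ω y = Real.exp (q * em B z y) / Z := by simp only [hωdef, if_pos (hsupp y hy)]
      rw [h1, Real.log_div (Real.exp_pos _).ne' hZ.ne', Real.log_exp]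
      ring
  rw [e1, sum_cv] at g
  refine g.trans (sum_le_sum fun t _ => ?_)
  by_cases ht : p t = 0
  · rw [ht, zero_mul, zero_mul]
  refine mul_le_mul_of_nonneg_left ?_ (hp.1 t)
  have e2 : ∑ x, ρ x * (-(q * em B z (π t x)) + Real.log Z) =
      -(q * ∑ x, ρ x * em B z (π t x)) + Real.log Z := by
    have e3 : ∀ x, ρ x * (-(q * em B z (π t x)) + Real.log Z) =
        -(q * (ρ x * em B z (π t x))) + ρ x * Real.log Z := fun x => by ring
    simp only [e3]
    rw [sum_add_distrib, sum_neg_distrib, ← mul_sum, ← sum_mul, hρ.2, one_mul]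
  rw [e2]
  have hem : ∀ x ∈ R', em B z (π t x) = em B (fun i => (π t).symm (z i)) x := by
    intro x hx
    unfold em
    congr 1
    refine sum_congr rfl fun i _ => ?_
    have h1 := heq t (hpτ t ht) x hx ((π t).symm (z i)) (hz t ht i)
    rw [Equiv.apply_symm_apply] at h1
    by_cases h2 : (π t x, z i) ∈ B
    · rw [if_pos h2, if_pos (h1.1 h2)]
    · rw [if_neg h2, if_neg (fun h3 => h2 (h1.2 h3))]
  have e4 : ∑ x, ρ x * em B z (π t x) =
      ∑ x, ρ x * em B (fun i => (π t).symm (z i)) x := by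
    refine sum_congr rfl fun x _ => ?_
    by_cases hx : ρ x = 0
    · rw [hx, zero_mul, zero_mul]
    · have h1 := hR' _ t (hR x t hx (hpτ t ht)) (hpτ t ht)
      rw [Equiv.symm_apply_apply] at h1
      rw [hem x h1]
  rw [e4]
  unfold F
  have e5 : Z ≤ ∑ x ∈ R', Real.exp (q * em B (fun i => (π t).symm (z i)) x) := by
    have e7 : Z = ∑ x ∈ R.image (fun y => (π t).symm y),
        Real.exp (q * em B (fun i => (π t).symm (z i)) x) := by
      rw [sum_image (fun a _ b _ h => (π t).symm.injective h)]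
      refine sum_congr rfl fun y hy => ?_
      rw [← hem _ (hR' y t hy (hpτ t ht)), Equiv.apply_symm_apply]
    rw [e7]
    refine sum_le_sum_of_subset_of_nonneg ?_ fun x _ _ => (Real.exp_pos _).le
    intro x hx
    obtain ⟨y, hy, rfl⟩ := mem_image.1 hx
    exact hR' y t hy (hpτ t ht)
  have e6 := Real.log_le_log hZ e5
  linarith

end NSL

open NSL in
theorem ns (gib : GIB) (mgf : MGF) : NS := by
  intro V Θ _ _ _ m q π σ ρ τ B R R' hσ hτ hρ hm hq hqm heq hR hR'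
  have hmr : (0 : ℝ) < m := by exact_mod_cast hm
  have h1 : ∀ z : Fin m → V, Pz π σ τ z * H (cv π ρ (post π σ τ z)) ≤
      ∑ t, Wt π σ τ z t * F q ρ B R' (fun i => (π t).symm (z i)) := by
    intro z
    rcases (Pz_nonneg π hσ hτ z).eq_or_lt with h0 | h0
    · have h2 : ∀ t, Wt π σ τ z t = 0 := by
        intro t
        have := (sum_eq_zero_iff_of_nonneg (fun t _ => Wt_nonneg π hσ hτ z t)).1 h0.symm
        exact this t (mem_univ t)
      rw [← h0]
      simp [h2]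
    · have h2 := key gib q π (σ := σ) (τ := τ) hρ (post_isP π hσ hτ z h0) (fun t ht => by
        intro h
        apply ht
        unfold post Wt
        rw [h]
        simp) B R R' heq hR hR' z (fun t ht i => by
        intro h
        apply ht
        unfold post Wt
        rw [prod_eq_zero (mem_univ i) h]
        simp)
      calc Pz π σ τ z * H (cv π ρ (post π σ τ z))
          ≤ Pz π σ τ z * ∑ t, post π σ τ z t * F q ρ B R' (fun i => (π t).symm (z i)) :=
            mul_le_mul_of_nonneg_left h2 h0.le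
        _ = ∑ t, Wt π σ τ z t * F q ρ B R' (fun i => (π t).symm (z i)) := by
            rw [mul_sum]
            refine sum_congr rfl fun t _ => ?_
            unfold post
            field_simp
  refine (sum_le_sum fun z _ => h1 z).trans ?_
  rw [sum_comm]
  have h3 : ∀ t, ∑ z : Fin m → V, Wt π σ τ z t * F q ρ B R' (fun i => (π t).symm (z i)) =
      τ t * Ex σ (F q ρ B R' : (Fin m → V) → ℝ) := by
    intro t
    unfold Ex
    rw [mul_sum, ← (Equiv.piCongrRight (fun _ : Fin m => (π t).symm)).sum_comp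
      (fun s : Fin m → V => τ t * ((∏ i, σ (s i)) * F q ρ B R' s))]
    refine sum_congr rfl fun z _ => ?_
    have e : (Equiv.piCongrRight (fun _ : Fin m => (π t).symm)) z = fun i => (π t).symm (z i) := by
      funext i
      rfl
    rw [e]
    unfold Wt
    ring
  simp only [h3]
  rw [← sum_mul, hτ.2, one_mul]
  -- the expectation
  have hR'ne : R'.Nonempty := by
    obtain ⟨x, hx⟩ := ex_ne hρ
    obtain ⟨t, ht⟩ := ex_ne hτ
    exact ⟨_, hR' _ t (hR x t hx ht) ht⟩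
  set S : ℝ := ∑ x ∈ R', Real.exp (q * pr σ B x) with hSdef
  have hS : 0 < S := sum_pos (fun y _ => Real.exp_pos _) hR'ne
  set M : ℝ := Real.exp (q ^ 2 / m) * S with hMdef
  have hM : 0 < M := mul_pos (Real.exp_pos _) hS
  have hEY : Ex σ (fun s : Fin m → V => ∑ x ∈ R', Real.exp (q * em B s x)) ≤ M := by
    rw [Ex_sum σ R' (fun x (s : Fin m → V) => Real.exp (q * em B s x)), hMdef, hSdef, mul_sum]
    refine sum_le_sum fun x _ => ?_
    refine (mgf V m q σ B x hσ hm hq hqm).trans (le_of_eq ?_)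
    rw [← Real.exp_add]
    congr 1
    ring
  have hpt : ∀ s : Fin m → V, F q ρ B R' s ≤
      (-q) * (∑ x, ρ x * em B s x) + ((Real.log M - 1) +
        (1 / M) * ∑ x ∈ R', Real.exp (q * em B s x)) := by
    intro s
    unfold F
    have hY : 0 < ∑ x ∈ R', Real.exp (q * em B s x) := sum_pos (fun y _ => Real.exp_pos _) hR'ne
    have a := Real.log_le_sub_one_of_pos (div_pos hY hM)
    rw [Real.log_div hY.ne' hM.ne'] at a
    have b : (1 / M) * ∑ x ∈ R', Real.exp (q * em B s x) =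
        (∑ x ∈ R', Real.exp (q * em B s x)) / M := by ring
    rw [b]
    linarith
  have h4 := Ex_mono σ hσ.1 _ _ hpt
  refine h4.trans ?_
  rw [Ex_add, Ex_smul, Ex_sum σ univ (fun x (s : Fin m → V) => ρ x * em B s x),
    Ex_add, Ex_const σ hσ.2, Ex_smul]
  have h5 : ∀ x, Ex σ (fun s : Fin m → V => ρ x * em B s x) = ρ x * pr σ B x := by
    intro x
    rw [Ex_smul, Ex_em σ hσ B x hm]
  simp only [h5]
  have h8 : (1 / M) * Ex σ (fun s : Fin m → V => ∑ x ∈ R', Real.exp (q * em B s x)) ≤ 1 := by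
    have := mul_le_mul_of_nonneg_left hEY (by positivity : (0 : ℝ) ≤ 1 / M)
    rwa [one_div_mul_cancel hM.ne'] at this
  have h9 : Real.log M = q ^ 2 / m + Real.log S := by
    rw [hMdef, Real.log_mul (Real.exp_pos _).ne' hS.ne', Real.log_exp]
  rw [h9]
  linarith

end Pool.Agent.H952.NA
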