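import Pool.Agent.H952.NA.Stm

/-!
# The normalising factors are large
-/

set_option autoImplicit false

namespace Pool.Agent.H952.NA

open Finset
open Pool.Agent.H98.BG (IsP H GIB)
open scoped Pointwise

namespace SEQL

section

variable {V : Type} [Fintype V] [DecidableEq V]

theorem un_isP (A : Finset V) (hA : A.Nonempty) : IsP (un A) := by
  have h : (0 : ℝ) < A.card := by exact_mod_cast hA.card_pos
  constructor
  · intro x
    unfold un
    split_ifs <;> positivity
  · unfold un
    rw [Finset.sum_ite_mem, univ_inter, sum_const, nsmul_eq_mul, mul_inv_cancel₀ h.ne']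

omit [Fintype V] in
theorem un_supp (A : Finset V) (x : V) (h : un A x ≠ 0) : x ∈ A := by
  by_contra hx
  exact h (if_neg hx)

theorem un_H (A : Finset V) (hA : A.Nonempty) : H (un A) = Real.log A.card := by
  have h : (0 : ℝ) < A.card := by exact_mod_cast hA.card_pos
  have h1 : ∀ x, Real.negMulLog (un A x) = if x ∈ A then (A.card : ℝ)⁻¹ * Real.log A.card else 0 := by
    intro x
    unfold un
    split_ifs
    · rw [Real.negMulLog, Real.log_inv]
      ring
    · rw [Real.negMulLog_zero]
  unfold H
  simp only [h1]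
  rw [Finset.sum_ite_mem, univ_inter, sum_const, nsmul_eq_mul, ← mul_assoc, mul_inv_cancel₀ h.ne',
    one_mul]

/-- the entropy of a law on `Q` -/
theorem H_le (gib : GIB) (σ : V → ℝ) (Q : Finset V) (hσ : IsP σ) (hs : ∀ x, σ x ≠ 0 → x ∈ Q) :
    H σ ≤ Real.log Q.card := by
  have hQ : Q.Nonempty := by
    rw [Finset.nonempty_iff_ne_empty]
    rintro rfl
    have h1 : ∑ x, σ x = 0 := Finset.sum_eq_zero fun x _ => by
      by_contra hx
      exact absurd (hs x hx) (Finset.notMem_empty x)
    rw [hσ.2] at h1
    exact one_ne_zero h1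
  have h : (0 : ℝ) < Q.card := by exact_mod_cast hQ.card_pos
  have hu := un_isP Q hQ
  have h1 := gib V σ (un Q) hσ hu.1 hu.2.le fun x hx => by
    unfold un
    rw [if_pos (hs x hx)]
    positivity
  have h2 : -∑ x, σ x * Real.log (un Q x) = Real.log Q.card := by
    have h3 : ∀ x, σ x * Real.log (un Q x) = σ x * -Real.log Q.card := by
      intro x
      by_cases hx : σ x = 0
      · rw [hx, zero_mul, zero_mul]
      · unfold un
        rw [if_pos (hs x hx), Real.log_inv]
    simp only [h3]
    rw [← Finset.sum_mul, hσ.2, one_mul, neg_neg]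
  rw [h2] at h1
  exact h1

theorem sg_zero (A : Finset V) (B : Finset (V × V)) (E : ℕ → Finset V) (q : ℝ) :
    sg A B E q 0 = un A := rfl

theorem sg_succ (A : Finset V) (B : Finset (V × V)) (E : ℕ → Finset V) (q : ℝ) (i : ℕ) :
    sg A B E q (i + 1) = WL q B (E (i + 1)) (sg A B E q i) := rfl

theorem WL_supp (q : ℝ) (B : Finset (V × V)) (X : Finset V) (σ : V → ℝ) (x : V)
    (h : WL q B X σ x ≠ 0) : x ∈ X := by
  by_contra hx
  exact h (if_neg hx)

theorem pr_un (A : Finset V) (B : Finset (V × V)) (hf : ∀ x ∈ A, ∀ y ∈ A, (x, y) ∈ B)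
    (hA : A.Nonempty) {x : V} (hx : x ∈ A) : pr (un A) B x = 1 := by
  rw [← (un_isP A hA).2]
  unfold pr
  refine Finset.sum_congr rfl fun s _ => ?_
  split_ifs with h
  · rfl
  · by_contra hne
    exact h (hf x hx s (un_supp A s fun h0 => hne h0.symm))

end

end SEQL

open SEQL

theorem sq (gib : GIB) (vr : VAR) : SEQ := by
  intro V Θ _ _ _ π A B E lam q n hA hq hD
  have hA0 : (0 : ℝ) < A.card := by exact_mod_cast hA.card_pos
  have hmono := hD.mono
  have hne : ∀ i, (E i).Nonempty := by
    intro i
    induction i with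
    | zero => exact hA.mono hD.base
    | succ i ih => exact ih.mono (hmono i)
  have hP : ∀ i, IsP (sg A B E q i) := by
    intro i
    induction i with
    | zero => exact un_isP A hA
    | succ i ih => exact (vr V q B (E (i + 1)) (sg A B E q i) hD.symm ih (hne (i + 1))).2.1
  have hvr := fun i => vr V q B (E (i + 1)) (sg A B E q i) hD.symm (hP i) (hne (i + 1))
  have hsupp : ∀ i x, sg A B E q i x ≠ 0 → x ∈ E i := by
    intro i x h
    cases i with
    | zero => exact hD.base (un_supp A x h)
    | succ i => exact WL_supp _ _ _ _ x h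
  have hpr : ∀ i x, pr (sg A B E q i) B x ≠ 0 → x ∈ E (i + 1) := by
    intro i x h
    unfold pr at h
    obtain ⟨s, -, hs⟩ := Finset.exists_ne_zero_of_sum_ne_zero h
    have h1 : (x, s) ∈ B := by
      by_contra hn
      exact hs (if_neg hn)
    rw [if_pos h1] at hs
    exact hD.nbr i s (hsupp i s hs) x h1
  have hpot : ∀ i, 2 * Real.log A.card + q ≤
      Real.log (ZZ q B (E (i + 1)) (sg A B E q i)) + H (sg A B E q i) := by
    intro i
    induction i with
    | zero =>
      have h1 : (A.card : ℝ) * Real.exp q ≤ ZZ q B (E (0 + 1)) (sg A B E q 0) := by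
        have h2 : (A.card : ℝ) * Real.exp q =
            ∑ x ∈ A, Real.exp (q * pr (sg A B E q 0) B x) := by
          rw [← nsmul_eq_mul, ← Finset.sum_const]
          refine Finset.sum_congr rfl fun x hx => ?_
          rw [sg_zero, pr_un A B hD.full hA hx, mul_one]
        rw [h2]
        unfold ZZ
        exact Finset.sum_le_sum_of_subset_of_nonneg (hD.base.trans (hmono 0))
          fun x _ _ => (Real.exp_pos _).le
      have h3 : Real.log A.card + q ≤ Real.log (ZZ q B (E (0 + 1)) (sg A B E q 0)) := by
        have h4 := Real.log_le_log (by positivity) h1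
        rw [Real.log_mul hA0.ne' (Real.exp_pos q).ne', Real.log_exp] at h4
        exact h4
      have h5 : H (sg A B E q 0) = Real.log A.card := by
        rw [sg_zero, un_H A hA]
      rw [h5]
      linarith
    | succ i ih =>
      have h1 := (hvr i).2.2.1
      have h2 := (hvr (i + 1)).2.2.2.1 (sg A B E q i) (hP i)
        fun x hx => hmono (i + 1) (hmono i (hsupp i x hx))
      have h3 := (hvr (i + 1)).2.2.2.2 (sg A B E q i)
      rw [← sg_succ] at h1
      rw [h3] at h2
      linarith
  intro i
  refine ⟨hP i, hsupp i, hpr i, (hvr i).1, fun hi => ?_⟩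
  have h1 := hpot i
  have h2 : H (sg A B E q i) ≤ Real.log (E i).card := H_le gib _ _ (hP i) (hsupp i)
  have h3 : Real.log (E i).card ≤ lam + Real.log A.card := by
    have h4 : (0 : ℝ) < (E i).card := by exact_mod_cast (hne i).card_pos
    have h5 := Real.log_le_log h4 (hD.card i (by omega))
    rw [Real.log_mul (Real.exp_pos _).ne' hA0.ne', Real.log_exp] at h5
    exact h5
  linarith

end Pool.Agent.H952.NA
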