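import Pool.Agent.H952.NA.Stm

/-!
# Large sets `S` with `S ^ M ⊆ A ^ 4` in arbitrary groups: one step (NA4, helper538)

Adaptation of `Pool/Agent/H98/BQ/STQ.lean` (helper370).
-/

set_option autoImplicit false
set_option linter.unusedSectionVars false

namespace Pool.Agent.H952.NA

open Finset
open Pool.Agent.H98.BG (IsP H GIB)
open scoped Pointwise

namespace STQL

/-- some point of positive weight is at most the mean -/
theorem exists_le {α : Type} [Fintype α] (P f : α → ℝ) (R : ℝ) (hP : IsP P)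
    (h : ∑ z, P z * f z ≤ R) : ∃ z, 0 < P z ∧ f z ≤ R := by
  by_contra hcon
  push Not at hcon
  have h1 : ∃ z, 0 < P z := by
    by_contra h2
    push Not at h2
    have h3 : ∀ z, P z = 0 := fun z => le_antisymm (h2 z) (hP.1 z)
    have h4 := hP.2
    simp only [h3, Finset.sum_const_zero] at h4
    exact zero_ne_one h4
  obtain ⟨z₀, hz₀⟩ := h1
  have h5 : ∑ z, P z * R < ∑ z, P z * f z := by
    refine Finset.sum_lt_sum (fun z _ => ?_) ⟨z₀, Finset.mem_univ _, ?_⟩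
    · rcases (hP.1 z).eq_or_lt with h6 | h6
      · rw [← h6, zero_mul, zero_mul]
      · exact mul_le_mul_of_nonneg_left (hcon z h6).le h6.le
    · exact mul_lt_mul_of_pos_left (hcon z₀ hz₀) hz₀
  rw [← Finset.sum_mul, hP.2, one_mul] at h5
  linarith

variable {V Θ : Type} [Fintype V] [DecidableEq V] [Fintype Θ]

theorem wt_nonneg {m : ℕ} {π : Θ → Equiv.Perm V} {σ : V → ℝ} {τ : Θ → ℝ} (hσ : IsP σ)
    (hτ : IsP τ) (z : Fin m → V) (t : Θ) : 0 ≤ Wt π σ τ z t :=
  mul_nonneg (hτ.1 t) (Finset.prod_nonneg fun _ _ => hσ.1 _)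

/-- the law of the samples is a probability law -/
theorem pz_isP (m : ℕ) (π : Θ → Equiv.Perm V) (σ : V → ℝ) (τ : Θ → ℝ) (hσ : IsP σ)
    (hτ : IsP τ) : IsP (Pz π σ τ : (Fin m → V) → ℝ) := by
  refine ⟨fun z => Finset.sum_nonneg fun t _ => wt_nonneg hσ hτ z t, ?_⟩
  unfold Pz
  rw [Finset.sum_comm]
  have h1 : ∀ t, ∑ z : Fin m → V, Wt π σ τ z t = τ t := by
    intro t
    unfold Wt
    rw [← Finset.mul_sum]
    have h2 := Fintype.sum_pow (fun x : V => σ ((π t).symm x)) m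
    rw [← h2, Equiv.sum_comp (π t).symm σ, hσ.2, one_pow, mul_one]
  simp only [h1]
  exact hτ.2

/-- the law of `T` given the samples is a probability law -/
theorem post_isP (m : ℕ) (π : Θ → Equiv.Perm V) (σ : V → ℝ) (τ : Θ → ℝ) (z : Fin m → V)
    (hσ : IsP σ) (hτ : IsP τ) (hz : 0 < Pz π σ τ z) : IsP (post π σ τ z) := by
  refine ⟨fun t => div_nonneg (wt_nonneg hσ hτ z t) hz.le, ?_⟩
  unfold post
  rw [← Finset.sum_div]
  exact div_self hz.ne'

theorem post_supp {m : ℕ} (π : Θ → Equiv.Perm V) (σ : V → ℝ) (τ : Θ → ℝ) (z : Fin m → V)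
    (t : Θ) (h : post π σ τ z t ≠ 0) : τ t ≠ 0 := by
  intro h0
  apply h
  unfold post Wt
  rw [h0, zero_mul, zero_div]

end STQL

theorem stq (t1 : T1) (ns : NS) : STQ := by
  intro V Θ _ _ _ m q w c e L π σ ρ τ B R R' hσ hτ hρ hm hq hqm hw hc h0 h1 h2 h3
  have hP : IsP (Pz π σ τ : (Fin m → V) → ℝ) := STQL.pz_isP m π σ τ hσ hτ
  have e1 := t1 V Θ m π σ τ c L hσ hτ hc
  have e2 := ns V Θ m q π σ ρ τ B R R' hσ hτ hρ hm hq hqm h0 h1 h2
  have e3 : ∑ z : Fin m → V, Pz π σ τ z * H (cv π ρ (post π σ τ z)) ≤ H ρ + e + q ^ 2 / m := by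
    linarith
  have e4 : ∑ z : Fin m → V, Pz π σ τ z *
      ((L - H (post π σ τ z)) + w * (H (cv π ρ (post π σ τ z)) - H ρ)) ≤
      (L - H τ) + m * c + w * (e + q ^ 2 / m) := by
    have e5 : ∑ z : Fin m → V, Pz π σ τ z *
        ((L - H (post π σ τ z)) + w * (H (cv π ρ (post π σ τ z)) - H ρ)) =
        ∑ z : Fin m → V, Pz π σ τ z * (L - H (post π σ τ z)) +
          w * (∑ z : Fin m → V, Pz π σ τ z * H (cv π ρ (post π σ τ z)) -
            (∑ z : Fin m → V, Pz π σ τ z) * H ρ) := by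
      rw [Finset.sum_mul, ← Finset.sum_sub_distrib, Finset.mul_sum, ← Finset.sum_add_distrib]
      refine Finset.sum_congr rfl fun z _ => ?_
      ring
    rw [e5, hP.2, one_mul]
    have e6 : w * (∑ z : Fin m → V, Pz π σ τ z * H (cv π ρ (post π σ τ z)) - H ρ) ≤
        w * (e + q ^ 2 / m) := mul_le_mul_of_nonneg_left (by linarith) hw
    linarith
  obtain ⟨z, hz, hz2⟩ := STQL.exists_le _ _ _ hP e4
  exact ⟨post π σ τ z, STQL.post_isP m π σ τ z hσ hτ hz,
    fun t ht => STQL.post_supp π σ τ z t ht, hz2⟩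

end Pool.Agent.H952.NA
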