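import Pool.Agent.H952.NA.Stm

/-!
# Gibbs' variational principle (NA5, helper299, after BQ-VAR of helper345)
-/

set_option autoImplicit false

namespace Pool.Agent.H952.NA

open Finset
open Pool.Agent.H98.BG (IsP H GIB)
open scoped Pointwise

namespace VARL

variable {V : Type} [Fintype V] [DecidableEq V]

theorem ZZ_pos (q : ℝ) (B : Finset (V × V)) (X : Finset V) (σ : V → ℝ) (hX : X.Nonempty) : 0 < ZZ q B X σ :=
  Finset.sum_pos (fun _ _ => Real.exp_pos _) hX

theorem sum_WL (q : ℝ) (B : Finset (V × V)) (X : Finset V) (σ : V → ℝ) (hX : X.Nonempty) :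
    ∑ x, WL q B X σ x = 1 := by
  have hZ := ZZ_pos q B X σ hX
  unfold WL
  rw [Finset.sum_ite_mem, univ_inter, ← Finset.sum_div]
  exact div_self hZ.ne'

theorem WL_isP (q : ℝ) (B : Finset (V × V)) (X : Finset V) (σ : V → ℝ) (hX : X.Nonempty) : IsP (WL q B X σ) := by
  refine ⟨fun x => ?_, sum_WL q B X σ hX⟩
  have hZ := ZZ_pos q B X σ hX
  unfold WL
  split_ifs
  · positivity
  · exact le_rfl

theorem log_WL (q : ℝ) (B : Finset (V × V)) (X : Finset V) (σ : V → ℝ) (x : V) (hx : x ∈ X) :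
    Real.log (WL q B X σ x) = q * pr σ B x - Real.log (ZZ q B X σ) := by
  have hZ := ZZ_pos q B X σ ⟨x, hx⟩
  unfold WL
  rw [if_pos hx, Real.log_div (Real.exp_pos _).ne' hZ.ne', Real.log_exp]

theorem WL_pos (q : ℝ) (B : Finset (V × V)) (X : Finset V) (σ : V → ℝ) (x : V) (hx : x ∈ X) :
    0 < WL q B X σ x := by
  have hZ := ZZ_pos q B X σ ⟨x, hx⟩
  unfold WL
  rw [if_pos hx]
  positivity

theorem H_WL (q : ℝ) (B : Finset (V × V)) (X : Finset V) (σ : V → ℝ) (hX : X.Nonempty) :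
    H (WL q B X σ) + q * ∑ x, WL q B X σ x * pr σ B x = Real.log (ZZ q B X σ) := by
  have h1 : ∀ x, Real.negMulLog (WL q B X σ x) =
      WL q B X σ x * Real.log (ZZ q B X σ) - q * (WL q B X σ x * pr σ B x) := by
    intro x
    by_cases hx : x ∈ X
    · rw [Real.negMulLog, log_WL q B X σ x hx]
      ring
    · have : WL q B X σ x = 0 := if_neg hx
      rw [this, Real.negMulLog_zero]
      ring
  unfold H
  rw [Finset.sum_congr rfl fun x _ => h1 x, Finset.sum_sub_distrib, ← Finset.sum_mul,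
    ← Finset.mul_sum, sum_WL q B X σ hX]
  ring

theorem gibbs (gib : GIB) (q : ℝ) (B : Finset (V × V)) (X : Finset V) (σ : V → ℝ) (hX : X.Nonempty) (ρ : V → ℝ)
    (hρ : IsP ρ) (hs : ∀ x, ρ x ≠ 0 → x ∈ X) :
    H ρ + q * ∑ x, ρ x * pr σ B x ≤ Real.log (ZZ q B X σ) := by
  have h1 := gib V ρ (WL q B X σ) hρ (WL_isP q B X σ hX).1 (sum_WL q B X σ hX).le
    (fun x hx => WL_pos q B X σ x (hs x hx))
  have h2 : ∀ x, ρ x * Real.log (WL q B X σ x) =
      q * (ρ x * pr σ B x) - ρ x * Real.log (ZZ q B X σ) := by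
    intro x
    by_cases hx : ρ x = 0
    · rw [hx]
      ring
    · rw [log_WL q B X σ x (hs x hx)]
      ring
  rw [Finset.sum_congr rfl fun x _ => h2 x, Finset.sum_sub_distrib, ← Finset.sum_mul,
    ← Finset.mul_sum, hρ.2] at h1
  linarith

theorem sym (B : Finset (V × V)) (hB : ∀ x y, (x, y) ∈ B ↔ (y, x) ∈ B) (σ ρ : V → ℝ) :
    ∑ x, ρ x * pr σ B x = ∑ s, σ s * pr ρ B s := by
  unfold pr
  simp only [Finset.mul_sum]
  rw [Finset.sum_comm]
  refine Finset.sum_congr rfl fun s _ => Finset.sum_congr rfl fun x _ => ?_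
  by_cases h : (x, s) ∈ B
  · rw [if_pos h, if_pos ((hB x s).1 h)]
    exact mul_comm _ _
  · rw [if_neg h, if_neg fun h' => h ((hB x s).2 h'), mul_zero, mul_zero]

end VARL

theorem vr (gib : GIB) : VAR := by
  intro V _ _ q B X σ hB _ hX
  exact ⟨VARL.ZZ_pos q B X σ hX, VARL.WL_isP q B X σ hX, VARL.H_WL q B X σ hX,
    fun ρ hρ hs => VARL.gibbs gib q B X σ hX ρ hρ hs, fun ρ => VARL.sym B hB σ ρ⟩

end Pool.Agent.H952.NA
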