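import Pool.Agent.H952.NA.Pow
import Pool.Agent.H952.NA.Mgf
import Pool.Agent.H952.NA.T1
import Pool.Agent.H952.NA.NS
import Pool.Agent.H952.NA.STQ
import Pool.Agent.H952.NA.VAR
import Pool.Agent.H952.NA.SEQ
import Pool.Agent.H952.NA.LOS
import Pool.Agent.H952.NA.CORE
import Pool.Agent.H952.NA.FINS
import Pool.Agent.H952.NA.Ball
import Pool.Agent.H98.BG.GIB

/-!
# Assembly
-/

set_option autoImplicit false

namespace Pool.Agent.H952.NA

open Pool.Agent.H98.BG (gib)

theorem core_main : CORE :=
  core gib (stq (t1 gib) (ns gib mgf)) (sq gib (vr gib)) (los gib (vr gib) (sq gib (vr gib)))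

theorem pow_main : POW := pow ball core_main (fins gib)

theorem comm_main : COMM := comm pow_main

end Pool.Agent.H952.NA
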