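import Pool.Agent.H952.NA.Stm2

/-!
# Moments of `(k + 1) / (m + 1)`, `k` binomial (`MOM2`)
-/

set_option autoImplicit false

namespace Pool.Agent.H952.NA

open Finset
open Pool.Agent.H98.BG (IsP H GIB)
open scoped Pointwise

namespace NB1L

theorem exp_le {u : ℝ} (h0 : 0 ≤ u) (h1 : u ≤ 1) : Real.exp u - 1 ≤ u + u ^ 2 := by
  have h := Real.abs_exp_sub_one_sub_id_le (x := u) (by rw [abs_of_nonneg h0]; exact h1)
  have := (abs_le.1 h).2
  linarith

theorem pr_nonneg {V : Type} [Fintype V] [DecidableEq V] {σ : V → ℝ} (hσ : IsP σ)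
    (B : Finset (V × V)) (x : V) : 0 ≤ pr σ B x := by
  unfold pr
  refine sum_nonneg fun s _ => ?_
  split_ifs
  · exact hσ.1 s
  · exact le_rfl

theorem mgfk {V : Type} [Fintype V] [DecidableEq V] (m : ℕ) (u : ℝ) {σ : V → ℝ} (hσ : IsP σ)
    (B : Finset (V × V)) (x : V) :
    Ex σ (fun s : Fin m → V => Real.exp (u * ∑ i, if (x, s i) ∈ B then (1 : ℝ) else 0)) =
      (1 + pr σ B x * (Real.exp u - 1)) ^ m := by
  have h1 : ∀ s : Fin m → V, (∏ i, σ (s i)) *
      Real.exp (u * ∑ i, if (x, s i) ∈ B then (1 : ℝ) else 0) =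
      ∏ i, (σ (s i) * Real.exp (u * if (x, s i) ∈ B then 1 else 0)) := by
    intro s
    rw [prod_mul_distrib, ← Real.exp_sum, ← mul_sum]
  unfold Ex
  simp_rw [h1]
  have hsp : ∑ s : Fin m → V, ∏ i, (σ (s i) * Real.exp (u * if (x, s i) ∈ B then 1 else 0)) =
      ∏ _i : Fin m, ∑ g : V, σ g * Real.exp (u * if (x, g) ∈ B then 1 else 0) := by
    rw [prod_univ_sum]
    simp only [Fintype.piFinset_univ]
  rw [hsp, prod_const, card_univ, Fintype.card_fin]
  congr 1
  have h3 : ∀ g, σ g * Real.exp (u * if (x, g) ∈ B then 1 else 0) =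
      σ g + (if (x, g) ∈ B then σ g else 0) * (Real.exp u - 1) := by
    intro g
    split_ifs
    · rw [mul_one]; ring
    · simp
  simp_rw [h3]
  rw [sum_add_distrib, hσ.2, ← sum_mul]
  rfl

theorem pointwise {m q : ℕ} (hm : 0 < m) {k P : ℝ} (hk : 0 ≤ k) (hP : 0 < P) :
    ((k + 1) / (m + 1)) ^ q ≤
      P ^ q * Real.exp (-(q : ℝ) + q / (m * P)) * Real.exp (q / (m * P) * k) := by
  have hmr : (0 : ℝ) < m := by exact_mod_cast hm
  have h1 : (k + 1) / (m + 1) ≤ P * Real.exp ((k + 1) / (m * P) - 1) := by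
    have h2 : (k + 1) / (m + 1) ≤ (k + 1) / m := by
      apply div_le_div_of_nonneg_left (by linarith) hmr (by linarith)
    have h3 := Real.add_one_le_exp ((k + 1) / (m * P) - 1)
    have h4 : (k + 1) / m = P * ((k + 1) / (m * P)) := by
      field_simp
    have h5 : (k + 1) / (m * P) ≤ Real.exp ((k + 1) / (m * P) - 1) := by linarith
    calc (k + 1) / (m + 1) ≤ (k + 1) / m := h2
      _ = P * ((k + 1) / (m * P)) := h4
      _ ≤ _ := mul_le_mul_of_nonneg_left h5 hP.le
  refine (pow_le_pow_left₀ (by positivity) h1 q).trans (le_of_eq ?_)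
  rw [mul_pow, mul_assoc, ← Real.exp_add, ← Real.exp_nat_mul]
  congr 2
  field_simp
  ring

theorem bound {V : Type} [Fintype V] [DecidableEq V] {m q : ℕ} {σ : V → ℝ} (hσ : IsP σ)
    (B : Finset (V × V)) (x : V) (hm : 0 < m) {P : ℝ} (hP : 0 < P) :
    Ex σ (fun s : Fin m → V => ems B s x ^ q) ≤
      P ^ q * Real.exp (-(q : ℝ) + q / (m * P)) *
        (1 + pr σ B x * (Real.exp (q / (m * P)) - 1)) ^ m := by
  rw [← mgfk m _ hσ B x]
  unfold Ex
  rw [mul_sum]
  refine sum_le_sum fun s _ => ?_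
  have h0 : 0 ≤ ∏ i, σ (s i) := prod_nonneg fun i _ => hσ.1 _
  have hk : (0 : ℝ) ≤ ∑ i, if (x, s i) ∈ B then (1 : ℝ) else 0 := by
    refine sum_nonneg fun i _ => ?_
    split_ifs
    · exact zero_le_one
    · exact le_rfl
  have h1 := mul_le_mul_of_nonneg_left (pointwise (q := q) hm hk hP) h0
  refine h1.trans (le_of_eq ?_)
  ring

end NB1L

open NB1L in
theorem mom2 : MOM2 := by
  intro V _ _ m q σ B x hσ hm hq hqm
  have hmr : (0 : ℝ) < m := by exact_mod_cast hm
  have hqr : (1 : ℝ) ≤ q := by exact_mod_cast hq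
  have hq0 : (0 : ℝ) < q := by linarith
  have hp := pr_nonneg hσ B x
  set p := pr σ B x with hpd
  constructor
  · intro hpq
    have hpp : 0 < p := lt_of_lt_of_le (div_pos hq0 hmr) hpq
    refine (bound hσ B x hm hpp).trans ?_
    rw [← hpd]
    set u : ℝ := q / (m * p) with hu
    have hu0 : 0 ≤ u := by positivity
    have hu1 : u ≤ 1 := by
      rw [hu, div_le_one (by positivity)]
      rw [div_le_iff₀ hmr] at hpq
      linarith
    have hmpu : (m : ℝ) * p * u = q := by
      rw [hu]; field_simp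
    have h1 : 1 + p * (Real.exp u - 1) ≤ Real.exp (p * (u + u ^ 2)) := by
      have h5 := exp_le hu0 hu1
      have h6 := Real.add_one_le_exp (p * (u + u ^ 2))
      have h7 := mul_le_mul_of_nonneg_left h5 hp
      linarith
    have h2 : 0 ≤ 1 + p * (Real.exp u - 1) := by
      have h6 : 1 ≤ Real.exp u := Real.one_le_exp hu0
      have h7 := mul_nonneg hp (sub_nonneg.2 h6)
      linarith
    have h3 : (1 + p * (Real.exp u - 1)) ^ m ≤ Real.exp (q + q * u) := by
      refine (pow_le_pow_left₀ h2 h1 m).trans (le_of_eq ?_)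
      rw [← Real.exp_nat_mul]
      congr 1
      calc (m : ℝ) * (p * (u + u ^ 2)) = (m * p * u) + (m * p * u) * u := by ring
        _ = q + q * u := by rw [hmpu]
    have h4 : 2 * (q : ℝ) ^ 2 / (m * p) = 2 * q * u := by
      rw [hu]; ring
    rw [h4, mul_assoc]
    refine mul_le_mul_of_nonneg_left ?_ (by positivity)
    refine (mul_le_mul_of_nonneg_left h3 (Real.exp_nonneg _)).trans ?_
    rw [← Real.exp_add]
    apply Real.exp_le_exp.2
    nlinarith
  · intro hpq
    have hP : (0 : ℝ) < q / m := div_pos hq0 hmr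
    refine (bound hσ B x hm hP).trans ?_
    rw [← hpd]
    have hu : (q : ℝ) / (m * (q / m)) = 1 := by
      field_simp
    rw [hu]
    have he : Real.exp 1 - 1 ≤ 2 := by
      have := Real.exp_one_lt_d9
      linarith
    have he0 : 0 ≤ Real.exp 1 - 1 := by
      have := Real.one_le_exp (zero_le_one' ℝ)
      linarith
    have hmp : (m : ℝ) * p ≤ q := by
      have := (lt_div_iff₀ hmr).1 hpq
      linarith
    have h2 : 0 ≤ 1 + p * (Real.exp 1 - 1) := by
      have h7 := mul_nonneg hp he0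
      linarith
    have h1 : 1 + p * (Real.exp 1 - 1) ≤ Real.exp (p * 2) := by
      have h6 := Real.add_one_le_exp (p * 2)
      have h7 := mul_le_mul_of_nonneg_left he hp
      linarith
    have h3 : (1 + p * (Real.exp 1 - 1)) ^ m ≤ Real.exp (2 * q) := by
      refine (pow_le_pow_left₀ h2 h1 m).trans ?_
      rw [← Real.exp_nat_mul]
      apply Real.exp_le_exp.2
      nlinarith
    refine (mul_le_mul_of_nonneg_left h3 (by positivity)).trans (le_of_eq ?_)
    have e1 : (Real.exp 1 * (q : ℝ) / m) ^ q = Real.exp q * ((q : ℝ) / m) ^ q := by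
      rw [mul_div_assoc, mul_pow, ← Real.exp_nat_mul, mul_one]
    have e2 : Real.exp (-(q : ℝ) + 1) * Real.exp (2 * q) = Real.exp 1 * Real.exp q := by
      rw [← Real.exp_add, ← Real.exp_add]
      congr 1
      ring
    rw [e1, mul_assoc, e2]
    ring

end Pool.Agent.H952.NA
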