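import Pool.Agent.H952.NA.Stm2
import Pool.Agent.H952.NA.NS

/-!
# The mean entropy (`NS2`), by helper740
-/

set_option autoImplicit false
set_option linter.unusedSectionVars false

namespace Pool.Agent.H952.NA

open Finset
open Pool.Agent.H98.BG (IsP H GIB)
open scoped Pointwise

namespace NB3L

open NSL

variable {V Θ : Type} [Fintype V] [DecidableEq V] [Fintype Θ]

theorem ems_ge {m : ℕ} (B : Finset (V × V)) (z : Fin m → V) (x : V) :
    1 / ((m : ℝ) + 1) ≤ ems B z x := by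
  unfold ems
  apply div_le_div_of_nonneg_right _ (by positivity)
  have : (0 : ℝ) ≤ ∑ i, if (x, z i) ∈ B then (1 : ℝ) else 0 :=
    sum_nonneg fun i _ => by split_ifs <;> norm_num
  linarith

theorem ems_pos {m : ℕ} (B : Finset (V × V)) (z : Fin m → V) (x : V) : 0 < ems B z x :=
  lt_of_lt_of_le (by positivity) (ems_ge B z x)

/-- the function inside the expectation -/
noncomputable def F {m : ℕ} (q : ℕ) (ρ : V → ℝ) (B : Finset (V × V)) (R' : Finset V)
    (s : Fin m → V) : ℝ :=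
  -(q * ∑ x, ρ x * Real.log (ems B s x)) + Real.log (∑ x ∈ R', ems B s x ^ q)

theorem key (gib : GIB) {m : ℕ} (q : ℕ) (π : Θ → Equiv.Perm V) {σ ρ : V → ℝ} {p τ : Θ → ℝ}
    (hρ : IsP ρ) (hp : IsP p) (hpτ : ∀ t, p t ≠ 0 → τ t ≠ 0)
    (B : Finset (V × V)) (R R' : Finset V)
    (heq : ∀ t, τ t ≠ 0 → ∀ x ∈ R', ∀ s, σ s ≠ 0 → ((π t x, π t s) ∈ B ↔ (x, s) ∈ B))
    (hR : ∀ x t, ρ x ≠ 0 → τ t ≠ 0 → π t x ∈ R)
    (hR' : ∀ y t, y ∈ R → τ t ≠ 0 → (π t).symm y ∈ R') (z : Fin m → V)
    (hz : ∀ t, p t ≠ 0 → ∀ i, σ ((π t).symm (z i)) ≠ 0) :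
    H (cv π ρ p) ≤ ∑ t, p t * F q ρ B R' (fun i => (π t).symm (z i)) := by
  have hRne : R.Nonempty := by
    obtain ⟨x, hx⟩ := ex_ne hρ
    obtain ⟨t, ht⟩ := ex_ne hp
    exact ⟨π t x, hR x t hx (hpτ t ht)⟩
  set Z : ℝ := ∑ y ∈ R, ems B z y ^ q with hZdef
  have hZ : 0 < Z := sum_pos (fun y _ => pow_pos (ems_pos B z y) q) hRne
  set ω : V → ℝ := fun y => if y ∈ R then ems B z y ^ q / Z else 0 with hωdef
  have hω0 : ∀ y, 0 ≤ ω y := by
    intro y
    simp only [hωdef]
    split_ifs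
    · exact div_nonneg (pow_pos (ems_pos B z y) q).le hZ.le
    · exact le_rfl
  have hω1 : ∑ y, ω y = 1 := by
    simp only [hωdef]
    rw [sum_ite_mem, univ_inter, ← sum_div]
    exact div_self hZ.ne'
  have hsupp : ∀ y, cv π ρ p y ≠ 0 → y ∈ R := by
    intro y hy
    obtain ⟨t, -, ht⟩ := exists_ne_zero_of_sum_ne_zero hy
    have h1 : ρ ((π t).symm y) ≠ 0 := left_ne_zero_of_mul ht
    have h2 : p t ≠ 0 := right_ne_zero_of_mul ht
    have h3 := hR ((π t).symm y) t h1 (hpτ t h2)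
    rwa [Equiv.apply_symm_apply] at h3
  have g := gib V (cv π ρ p) ω (cv_isP π hρ hp) hω0 hω1.le (fun y hy => by
    simp only [hωdef, if_pos (hsupp y hy)]
    exact div_pos (pow_pos (ems_pos B z y) q) hZ)
  have e1 : -∑ y, cv π ρ p y * Real.log (ω y) =
      ∑ y, cv π ρ p y * (-(q * Real.log (ems B z y)) + Real.log Z) := by
    rw [← sum_neg_distrib]
    refine sum_congr rfl fun y _ => ?_
    by_cases hy : cv π ρ p y = 0
    · rw [hy]; simp
    · have h1 : ω y = ems B z y ^ q / Z := by simp only [hωdef, if_pos (hsupp y hy)]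
      rw [h1, Real.log_div (pow_pos (ems_pos B z y) q).ne' hZ.ne', Real.log_pow]
      ring
  rw [e1, sum_cv] at g
  refine g.trans (sum_le_sum fun t _ => ?_)
  by_cases ht : p t = 0
  · rw [ht, zero_mul, zero_mul]
  refine mul_le_mul_of_nonneg_left ?_ (hp.1 t)
  have e2 : ∑ x, ρ x * (-(q * Real.log (ems B z (π t x))) + Real.log Z) =
      -(q * ∑ x, ρ x * Real.log (ems B z (π t x))) + Real.log Z := by
    have e3 : ∀ x, ρ x * (-(q * Real.log (ems B z (π t x))) + Real.log Z) =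
        -(q * (ρ x * Real.log (ems B z (π t x)))) + ρ x * Real.log Z := fun x => by ring
    simp only [e3]
    rw [sum_add_distrib, sum_neg_distrib, ← mul_sum, ← sum_mul, hρ.2, one_mul]
  rw [e2]
  have hem : ∀ x ∈ R', ems B z (π t x) = ems B (fun i => (π t).symm (z i)) x := by
    intro x hx
    unfold ems
    congr 2
    refine sum_congr rfl fun i _ => ?_
    have h1 := heq t (hpτ t ht) x hx ((π t).symm (z i)) (hz t ht i)
    rw [Equiv.apply_symm_apply] at h1
    by_cases h2 : (π t x, z i) ∈ B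
    · rw [if_pos h2, if_pos (h1.1 h2)]
    · rw [if_neg h2, if_neg (fun h3 => h2 (h1.2 h3))]
  have e4 : ∑ x, ρ x * Real.log (ems B z (π t x)) =
      ∑ x, ρ x * Real.log (ems B (fun i => (π t).symm (z i)) x) := by
    refine sum_congr rfl fun x _ => ?_
    by_cases hx : ρ x = 0
    · rw [hx, zero_mul, zero_mul]
    · have h1 := hR' _ t (hR x t hx (hpτ t ht)) (hpτ t ht)
      rw [Equiv.symm_apply_apply] at h1
      rw [hem x h1]
  rw [e4]
  unfold F
  have e5 : Z ≤ ∑ x ∈ R', ems B (fun i => (π t).symm (z i)) x ^ q := by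
    have e7 : Z = ∑ x ∈ R.image (fun y => (π t).symm y),
        ems B (fun i => (π t).symm (z i)) x ^ q := by
      rw [sum_image (fun a _ b _ h => (π t).symm.injective h)]
      refine sum_congr rfl fun y hy => ?_
      rw [← hem _ (hR' y t hy (hpτ t ht)), Equiv.apply_symm_apply]
    rw [e7]
    refine sum_le_sum_of_subset_of_nonneg ?_ fun x _ _ => (pow_pos (ems_pos _ _ x) q).le
    intro x hx
    obtain ⟨y, hy, rfl⟩ := mem_image.1 hx
    exact hR' y t hy (hpτ t ht)
  have e6 := Real.log_le_log hZ e5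
  linarith

end NB3L

open NSL NB3L in
theorem ns2 (gib : GIB) (log2 : LOG2) : NS2 := by
  intro V Θ _ _ _ m q π σ ρ τ B R R' hσ hτ hρ hm heq hR hR' hpr
  have h1 : ∀ z : Fin m → V, Pz π σ τ z * H (cv π ρ (post π σ τ z)) ≤
      ∑ t, Wt π σ τ z t * NB3L.F q ρ B R' (fun i => (π t).symm (z i)) := by
    intro z
    rcases (Pz_nonneg π hσ hτ z).eq_or_lt with h0 | h0
    · have h2 : ∀ t, Wt π σ τ z t = 0 := by
        intro t
        have := (sum_eq_zero_iff_of_nonneg (fun t _ => Wt_nonneg π hσ hτ z t)).1 h0.symm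
        exact this t (mem_univ t)
      rw [← h0]
      simp [h2]
    · have h2 := NB3L.key gib q π (σ := σ) (τ := τ) hρ (post_isP π hσ hτ z h0) (fun t ht => by
        intro h
        apply ht
        unfold post Wt
        rw [h]
        simp) B R R' heq hR hR' z (fun t ht i => by
        intro h
        apply ht
        unfold post Wt
        rw [prod_eq_zero (mem_univ i) h]
        simp)
      calc Pz π σ τ z * H (cv π ρ (post π σ τ z))
          ≤ Pz π σ τ z * ∑ t, post π σ τ z t * NB3L.F q ρ B R' (fun i => (π t).symm (z i)) :=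
            mul_le_mul_of_nonneg_left h2 h0.le
        _ = ∑ t, Wt π σ τ z t * NB3L.F q ρ B R' (fun i => (π t).symm (z i)) := by
            rw [mul_sum]
            refine sum_congr rfl fun t _ => ?_
            unfold post
            field_simp
  refine (sum_le_sum fun z _ => h1 z).trans ?_
  rw [sum_comm]
  have h3 : ∀ t, ∑ z : Fin m → V, Wt π σ τ z t * NB3L.F q ρ B R' (fun i => (π t).symm (z i)) =
      τ t * Ex σ (NB3L.F q ρ B R' : (Fin m → V) → ℝ) := by
    intro t
    unfold Ex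
    rw [mul_sum, ← (Equiv.piCongrRight (fun _ : Fin m => (π t).symm)).sum_comp
      (fun s : Fin m → V => τ t * ((∏ i, σ (s i)) * NB3L.F q ρ B R' s))]
    refine sum_congr rfl fun z _ => ?_
    have e : (Equiv.piCongrRight (fun _ : Fin m => (π t).symm)) z = fun i => (π t).symm (z i) := by
      funext i
      rfl
    rw [e]
    unfold Wt
    ring
  simp only [h3]
  rw [← sum_mul, hτ.2, one_mul]
  -- the expectation
  have hR'ne : R'.Nonempty := by
    obtain ⟨x, hx⟩ := ex_ne hρ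
    obtain ⟨t, ht⟩ := ex_ne hτ
    exact ⟨_, hR' _ t (hR x t hx ht) ht⟩
  set M : ℝ := ∑ x ∈ R', Ex σ (fun s : Fin m → V => ems B s x ^ q) with hMdef
  have hM : 0 < M := by
    refine sum_pos (fun x _ => ?_) hR'ne
    have h4 := Ex_mono (m := m) σ hσ.1 (fun _ => (1 / ((m : ℝ) + 1)) ^ q)
      (fun s => ems B s x ^ q) (fun s => pow_le_pow_left₀ (by positivity) (ems_ge B s x) q)
    rw [Ex_const σ hσ.2] at h4
    exact lt_of_lt_of_le (by positivity) h4
  have hEY : Ex σ (fun s : Fin m → V => ∑ x ∈ R', ems B s x ^ q) = M :=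
    Ex_sum σ R' (fun x (s : Fin m → V) => ems B s x ^ q)
  have hpt : ∀ s : Fin m → V, NB3L.F q ρ B R' s ≤
      (q : ℝ) * (∑ x, ρ x * -Real.log (ems B s x)) + ((Real.log M - 1) +
        (1 / M) * ∑ x ∈ R', ems B s x ^ q) := by
    intro s
    unfold NB3L.F
    have hY : 0 < ∑ x ∈ R', ems B s x ^ q := sum_pos (fun y _ => pow_pos (ems_pos B s y) q) hR'ne
    have a := Real.log_le_sub_one_of_pos (div_pos hY hM)
    rw [Real.log_div hY.ne' hM.ne'] at a
    have b : (1 / M) * ∑ x ∈ R', ems B s x ^ q = (∑ x ∈ R', ems B s x ^ q) / M := by ring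
    have b2 : ∑ x, ρ x * -Real.log (ems B s x) = -∑ x, ρ x * Real.log (ems B s x) := by
      rw [← sum_neg_distrib]
      exact sum_congr rfl fun x _ => by ring
    rw [b, b2]
    linarith
  have h4 := Ex_mono σ hσ.1 _ _ hpt
  refine h4.trans ?_
  rw [Ex_add, Ex_smul, Ex_sum σ univ (fun x (s : Fin m → V) => ρ x * -Real.log (ems B s x)),
    Ex_add, Ex_const σ hσ.2, Ex_smul, hEY]
  have h5 : ∑ x, Ex σ (fun s : Fin m → V => ρ x * -Real.log (ems B s x)) ≤
      -∑ x, ρ x * Real.log (pr σ B x) := by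
    rw [← sum_neg_distrib]
    refine sum_le_sum fun x _ => ?_
    rw [Ex_smul]
    by_cases hx : ρ x = 0
    · rw [hx]
      simp
    · have h6 := log2 V m σ B x hσ hm (hpr x hx)
      have h7 := mul_le_mul_of_nonneg_left h6 (hρ.1 x)
      linarith
  have h8 : (1 / M) * M = 1 := one_div_mul_cancel hM.ne'
  rw [h8]
  have h9 := mul_le_mul_of_nonneg_left h5 (Nat.cast_nonneg (α := ℝ) q)
  linarith

end Pool.Agent.H952.NA
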