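import Pool.Agent.H952.NA.Stm2
import Pool.Agent.H952.NA.SEQ

/-!
# The normalising factors are large
-/

set_option autoImplicit false

namespace Pool.Agent.H952.NA

open Finset
open Pool.Agent.H98.BG (IsP H GIB)
open scoped Pointwise

namespace NB6L

section

variable {V : Type} [Fintype V] [DecidableEq V]

theorem pr_nonneg (σ : V → ℝ) (B : Finset (V × V)) (hσ : IsP σ) (x : V) : 0 ≤ pr σ B x := by
  unfold pr
  refine Finset.sum_nonneg fun s _ => ?_
  split_ifs
  · exact hσ.1 s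
  · exact le_rfl

theorem pr_le_one (σ : V → ℝ) (B : Finset (V × V)) (hσ : IsP σ) (x : V) : pr σ B x ≤ 1 := by
  rw [← hσ.2]
  unfold pr
  refine Finset.sum_le_sum fun s _ => ?_
  split_ifs
  · exact le_rfl
  · exact hσ.1 s

theorem pr_symm (σ τ : V → ℝ) (B : Finset (V × V)) (hB : ∀ x y, (x, y) ∈ B ↔ (y, x) ∈ B) :
    ∑ x, σ x * pr τ B x = ∑ x, τ x * pr σ B x := by
  unfold pr
  simp only [Finset.mul_sum]
  rw [Finset.sum_comm]
  refine Finset.sum_congr rfl fun s _ => Finset.sum_congr rfl fun x _ => ?_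
  by_cases h : (x, s) ∈ B
  · rw [if_pos h, if_pos ((hB x s).1 h)]
    ring
  · rw [if_neg h, if_neg fun h' => h ((hB x s).2 h')]
    ring

theorem pr_sum_le (σ : V → ℝ) (B : Finset (V × V)) (hσ : IsP σ) (C : ℝ)
    (hC : ∀ s, ((univ.filter fun x => (x, s) ∈ B).card : ℝ) ≤ C) : ∑ x, pr σ B x ≤ C := by
  unfold pr
  rw [Finset.sum_comm]
  calc ∑ s, ∑ x, (if (x, s) ∈ B then σ s else 0)
      = ∑ s, ((univ.filter fun x => (x, s) ∈ B).card : ℝ) * σ s := by
        refine Finset.sum_congr rfl fun s _ => ?_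
        rw [← Finset.sum_filter, Finset.sum_const, nsmul_eq_mul]
    _ ≤ ∑ s, C * σ s := Finset.sum_le_sum fun s _ => mul_le_mul_of_nonneg_right (hC s) (hσ.1 s)
    _ = C := by rw [← Finset.mul_sum, hσ.2, mul_one]

theorem Z2_eq (q : ℕ) (hq : q ≠ 0) (B : Finset (V × V)) (X : Finset V) (σ : V → ℝ)
    (h : ∀ x, pr σ B x ≠ 0 → x ∈ X) : Z2 q B X σ = ∑ x, pr σ B x ^ q := by
  unfold Z2
  refine Finset.sum_subset (Finset.subset_univ X) fun x _ hx => ?_
  have h0 : pr σ B x = 0 := by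
    by_contra hn
    exact hx (h x hn)
  rw [h0, zero_pow hq]

theorem W2_eq (q : ℕ) (hq : q ≠ 0) (B : Finset (V × V)) (X : Finset V) (σ : V → ℝ)
    (h : ∀ x, pr σ B x ≠ 0 → x ∈ X) (x : V) :
    W2 q B X σ x = pr σ B x ^ q / ∑ y, pr σ B y ^ q := by
  unfold W2
  rw [Z2_eq q hq B X σ h]
  split_ifs with hx
  · rfl
  · have h0 : pr σ B x = 0 := by
      by_contra hn
      exact hx (h x hn)
    rw [h0, zero_pow hq, zero_div]

omit [DecidableEq V] in
/-- one step, once `exp (-H σ) |A|^2 ≤ ∑ p ^ (q + 1)` is known -/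
theorem step (gib : GIB) (q : ℕ) (hq : 3 ≤ q) (σ p σ' : V → ℝ) (lam a : ℝ) (ha : 0 < a)
    (hp0 : ∀ x, 0 ≤ p x) (hp1 : ∀ x, p x ≤ 1) (hs : ∑ x, p x ≤ Real.exp lam * a)
    (hZ : a ^ 2 * Real.exp (-H σ) ≤ ∑ x, p x ^ (q + 1)) (hH : H σ ≤ Real.log a + 3 * lam)
    (hσ' : ∀ x, σ' x = p x ^ q / ∑ y, p y ^ q) :
    0 < ∑ x, p x ^ q ∧ IsP σ' ∧ (∀ x, σ' x ≠ 0 → 0 < p x) ∧
    Real.log a - 3 * lam ≤ Real.log (∑ x, p x ^ q) ∧
    H σ' = Real.log (∑ x, p x ^ q) - q * ∑ x, σ' x * Real.log (p x) ∧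
    ((q : ℝ) - 1) * -(∑ x, σ' x * Real.log (p x)) ≤ 4 * lam ∧
    H σ' ≤ Real.log a + 3 * lam := by
  have hq0 : q ≠ 0 := by omega
  have hq3 : (3 : ℝ) ≤ q := by exact_mod_cast hq
  have h1 : ∑ x, p x ^ (q + 1) ≤ ∑ x, p x ^ q := Finset.sum_le_sum fun x _ =>
    pow_le_pow_of_le_one (hp0 x) (hp1 x) (Nat.le_succ q)
  have h2 : 0 < a ^ 2 * Real.exp (-H σ) := by positivity
  have hZ0 : 0 < ∑ x, p x ^ q := by linarith
  have h3 : 2 * Real.log a - H σ ≤ Real.log (∑ x, p x ^ q) := by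
    have h4 := Real.log_le_log h2 (hZ.trans h1)
    rw [Real.log_mul (by positivity) (Real.exp_pos _).ne', Real.log_exp, Real.log_pow] at h4
    push_cast at h4
    linarith
  have hP' : IsP σ' := by
    constructor
    · intro x
      rw [hσ' x]
      have := hp0 x
      positivity
    · simp only [hσ']
      rw [← Finset.sum_div, div_self hZ0.ne']
  have hpos : ∀ x, σ' x ≠ 0 → 0 < p x := by
    intro x hx
    rcases (hp0 x).lt_or_eq with h | h
    · exact h
    · exfalso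
      apply hx
      rw [hσ' x, ← h, zero_pow hq0, zero_div]
  have hlog : ∀ x, Real.negMulLog (σ' x) =
      σ' x * Real.log (∑ y, p y ^ q) - q * (σ' x * Real.log (p x)) := by
    intro x
    by_cases hx : σ' x = 0
    · rw [hx, Real.negMulLog_zero]
      ring
    · have h5 := hpos x hx
      have h6 : Real.log (σ' x) = q * Real.log (p x) - Real.log (∑ y, p y ^ q) := by
        rw [hσ' x, Real.log_div (by positivity) hZ0.ne', Real.log_pow]
      rw [Real.negMulLog, h6]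
      ring
  have hHe : H σ' = Real.log (∑ x, p x ^ q) - q * ∑ x, σ' x * Real.log (p x) := by
    unfold H
    simp only [hlog]
    rw [Finset.sum_sub_distrib, ← Finset.sum_mul, hP'.2, one_mul, ← Finset.mul_sum]
  have hg := gib V σ' (fun x => p x / (Real.exp lam * a)) hP'
    (fun x => div_nonneg (hp0 x) (by positivity))
    (by rw [← Finset.sum_div]; exact (div_le_one (by positivity)).2 hs)
    (fun x hx => div_pos (hpos x hx) (by positivity))
  have hg2 : ∀ x, σ' x * Real.log (p x / (Real.exp lam * a)) =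
      σ' x * Real.log (p x) - σ' x * (lam + Real.log a) := by
    intro x
    by_cases hx : σ' x = 0
    · rw [hx]
      ring
    · have h5 := hpos x hx
      rw [Real.log_div h5.ne' (by positivity), Real.log_mul (Real.exp_pos _).ne' ha.ne',
        Real.log_exp]
      ring
  simp only [hg2] at hg
  rw [Finset.sum_sub_distrib, ← Finset.sum_mul, hP'.2, one_mul] at hg
  set S := ∑ x, σ' x * Real.log (p x) with hS
  set L := Real.log (∑ x, p x ^ q) with hL
  have h7 : ((q : ℝ) - 1) * -S ≤ 4 * lam := by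
    nlinarith [hHe, hg, h3, hH]
  have hSn : S ≤ 0 := by
    rw [hS]
    refine Finset.sum_nonpos fun x _ => ?_
    exact mul_nonpos_of_nonneg_of_nonpos (hP'.1 x) (Real.log_nonpos (hp0 x) (hp1 x))
  have h8 : 2 * -S ≤ 4 * lam := by
    have : 2 * -S ≤ ((q : ℝ) - 1) * -S := mul_le_mul_of_nonneg_right (by linarith) (by linarith)
    linarith
  refine ⟨hZ0, hP', hpos, by linarith, hHe, h7, by linarith⟩

end

end NB6L

open NB6L

theorem sq2 (gib : GIB) (hol2 : HOL2) : SEQ2 := by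
  intro V Θ _ _ _ π A B E lam q n hA hlam hq hD
  have hA0 : (0 : ℝ) < A.card := by exact_mod_cast hA.card_pos
  have hq0 : q ≠ 0 := by omega
  have hq1 : 1 ≤ q := by omega
  have hqr : (0 : ℝ) < q := by
    have : (3 : ℝ) ≤ q := by exact_mod_cast hq
    linarith
  -- everything from the support, the law, the entropy and the potential
  have key : ∀ i, IsP (sg2 A B E q i) → (∀ x, sg2 A B E q i x ≠ 0 → x ∈ E i) →
      H (sg2 A B E q i) ≤ Real.log A.card + 3 * lam →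
      (A.card : ℝ) ^ 2 * (∑ x, sg2 A B E q i x ^ (1 + 1 / (q : ℝ))) ^ q ≤
        ∑ x, pr (sg2 A B E q i) B x ^ (q + 1) →
      ((∀ x, pr (sg2 A B E q i) B x ≠ 0 → x ∈ E (i + 1)) ∧
      (∀ x, sg2 A B E q (i + 1) x ≠ 0 → 0 < pr (sg2 A B E q i) B x) ∧
      0 < Z2 q B (E (i + 1)) (sg2 A B E q i) ∧
      Real.log A.card - 3 * lam ≤ Real.log (Z2 q B (E (i + 1)) (sg2 A B E q i)) ∧
      H (sg2 A B E q (i + 1)) = Real.log (Z2 q B (E (i + 1)) (sg2 A B E q i)) -
        q * ∑ x, sg2 A B E q (i + 1) x * Real.log (pr (sg2 A B E q i) B x) ∧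
      ((q : ℝ) - 1) * -(∑ x, sg2 A B E q (i + 1) x * Real.log (pr (sg2 A B E q i) B x)) ≤
        4 * lam ∧
      ∑ x, pr (sg2 A B E q i) B x ≤ Real.exp lam * A.card) ∧
      (IsP (sg2 A B E q (i + 1)) ∧ (∀ x, sg2 A B E q (i + 1) x ≠ 0 → x ∈ E (i + 1)) ∧
      H (sg2 A B E q (i + 1)) ≤ Real.log A.card + 3 * lam ∧
      (A.card : ℝ) ^ 2 * (∑ x, sg2 A B E q (i + 1) x ^ (1 + 1 / (q : ℝ))) ^ q ≤
        ∑ x, pr (sg2 A B E q (i + 1)) B x ^ (q + 1)) := by
    intro i hP hsu hH hpot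
    have hpr : ∀ x, pr (sg2 A B E q i) B x ≠ 0 → x ∈ E (i + 1) := by
      intro x h
      unfold pr at h
      obtain ⟨s, -, hs⟩ := Finset.exists_ne_zero_of_sum_ne_zero h
      have h1 : (x, s) ∈ B := by
        by_contra hn
        exact hs (if_neg hn)
      rw [if_pos h1] at hs
      exact hD.nbr i s (hsu s hs) x h1
    have hsum := pr_sum_le (sg2 A B E q i) B hP _ hD.deg
    have hZe := Z2_eq q hq0 B (E (i + 1)) (sg2 A B E q i) hpr
    have hW : ∀ x, sg2 A B E q (i + 1) x =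
        pr (sg2 A B E q i) B x ^ q / ∑ y, pr (sg2 A B E q i) B y ^ q := fun x =>
      W2_eq q hq0 B (E (i + 1)) (sg2 A B E q i) hpr x
    have hsy := pr_symm (sg2 A B E q i) (sg2 A B E q (i + 1)) B hD.symm
    -- positivity of the sum of the powers
    have hfin : 0 < ∑ x, sg2 A B E q i x ^ (1 + 1 / (q : ℝ)) := by
      obtain ⟨x, hx⟩ : ∃ x, sg2 A B E q i x ≠ 0 := by
        by_contra hn
        push Not at hn
        have := hP.2
        simp only [hn, Finset.sum_const_zero] at this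
        exact zero_ne_one this
      refine Finset.sum_pos' (fun y _ => Real.rpow_nonneg (hP.1 y) _)
        ⟨x, Finset.mem_univ x, Real.rpow_pos_of_pos (lt_of_le_of_ne (hP.1 x) (Ne.symm hx)) _⟩
    have hZ1 : 0 < ∑ x, pr (sg2 A B E q i) B x ^ q := by
      have h1 : ∑ x, pr (sg2 A B E q i) B x ^ (q + 1) ≤ ∑ x, pr (sg2 A B E q i) B x ^ q :=
        Finset.sum_le_sum fun x _ => pow_le_pow_of_le_one (pr_nonneg _ B hP x)
          (pr_le_one _ B hP x) (Nat.le_succ q)
      have h2 : 0 < (A.card : ℝ) ^ 2 * (∑ x, sg2 A B E q i x ^ (1 + 1 / (q : ℝ))) ^ q := by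
        positivity
      linarith
    have hh : 0 < ∑ x, pr (sg2 A B E q i) B x ^ q →
        (∀ x, 0 ≤ pr (sg2 A B E q (i + 1)) B x) → _ := fun h1 h2 =>
      hol2 V q (sg2 A B E q i) (pr (sg2 A B E q i) B) (pr (sg2 A B E q (i + 1)) B)
        (sg2 A B E q (i + 1)) ((A.card : ℝ) ^ 2) hq1 hP (pr_nonneg _ B hP) h2 h1
        (by positivity) hW hsy
    have hP' : IsP (sg2 A B E q (i + 1)) := by
      constructor
      · intro x
        rw [hW x]
        have := pr_nonneg _ B hP x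
        positivity
      · simp only [hW]
        rw [← Finset.sum_div, div_self hZ1.ne']
    have hh' := hh hZ1 (pr_nonneg _ B hP')
    have hst := step gib q hq (sg2 A B E q i) (pr (sg2 A B E q i) B) (sg2 A B E q (i + 1)) lam
      A.card hA0 (pr_nonneg _ B hP) (pr_le_one _ B hP) hsum
      ((mul_le_mul_of_nonneg_left hh'.2 (by positivity)).trans hpot) hH hW
    obtain ⟨s1, s2, s3, s4, s5, s6, s7⟩ := hst
    rw [hZe]
    refine ⟨⟨hpr, s3, s1, s4, s5, s6, hsum⟩, s2, fun x hx => hpr x (s3 x hx).ne', s7, ?_⟩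
    exact hh'.1 hpot
  have base : IsP (sg2 A B E q 0) ∧ (∀ x, sg2 A B E q 0 x ≠ 0 → x ∈ E 0) ∧
      H (sg2 A B E q 0) ≤ Real.log A.card + 3 * lam ∧
      (A.card : ℝ) ^ 2 * (∑ x, sg2 A B E q 0 x ^ (1 + 1 / (q : ℝ))) ^ q ≤
        ∑ x, pr (sg2 A B E q 0) B x ^ (q + 1) := by
    have hz : sg2 A B E q 0 = un A := rfl
    rw [hz]
    refine ⟨SEQL.un_isP A hA, fun x hx => hD.base (SEQL.un_supp A x hx), ?_, ?_⟩
    · rw [SEQL.un_H A hA]
      linarith
    · have h1 : ∑ x, un A x ^ (1 + 1 / (q : ℝ)) = (A.card : ℝ) * (A.card : ℝ)⁻¹ ^ (1 + 1 / (q : ℝ)) := by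
        have h2 : ∀ x, un A x ^ (1 + 1 / (q : ℝ)) =
            if x ∈ A then (A.card : ℝ)⁻¹ ^ (1 + 1 / (q : ℝ)) else 0 := by
          intro x
          unfold un
          split_ifs
          · rfl
          · exact Real.zero_rpow (by positivity)
        simp only [h2]
        rw [Finset.sum_ite_mem, univ_inter, sum_const, nsmul_eq_mul]
      have h3 : (A.card : ℝ) ^ 2 * (∑ x, un A x ^ (1 + 1 / (q : ℝ))) ^ q = A.card := by
        have h5 : ((A.card : ℝ)⁻¹ ^ (1 / (q : ℝ))) ^ q = (A.card : ℝ)⁻¹ := by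
          rw [← Real.rpow_natCast, ← Real.rpow_mul (by positivity), one_div,
            inv_mul_cancel₀ hqr.ne', Real.rpow_one]
        rw [h1, Real.rpow_add (by positivity), Real.rpow_one, ← mul_assoc,
          mul_inv_cancel₀ hA0.ne', one_mul, h5]
        field_simp
      rw [h3]
      have h4 : (A.card : ℝ) = ∑ x ∈ A, pr (un A) B x ^ (q + 1) := by
        rw [Finset.sum_congr rfl fun x hx => by
          rw [SEQL.pr_un A B hD.full hA hx, one_pow], Finset.sum_const, nsmul_eq_mul, mul_one]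
      calc (A.card : ℝ) = ∑ x ∈ A, pr (un A) B x ^ (q + 1) := h4
        _ ≤ ∑ x, pr (un A) B x ^ (q + 1) :=
          Finset.sum_le_sum_of_subset_of_nonneg (Finset.subset_univ A) fun x _ _ =>
            pow_nonneg (pr_nonneg _ B (SEQL.un_isP A hA) x) _
  have main : ∀ i, IsP (sg2 A B E q i) ∧ (∀ x, sg2 A B E q i x ≠ 0 → x ∈ E i) ∧
      H (sg2 A B E q i) ≤ Real.log A.card + 3 * lam ∧
      (A.card : ℝ) ^ 2 * (∑ x, sg2 A B E q i x ^ (1 + 1 / (q : ℝ))) ^ q ≤
        ∑ x, pr (sg2 A B E q i) B x ^ (q + 1) := by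
    intro i
    induction i with
    | zero => exact base
    | succ i ih => exact (key i ih.1 ih.2.1 ih.2.2.1 ih.2.2.2).2
  intro i
  obtain ⟨m1, m2, m3, m4⟩ := main i
  exact ⟨m1, m2, (key i m1 m2 m3 m4).1⟩

end Pool.Agent.H952.NA
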