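import Pool.Agent.H952.NA.Stm2
import Pool.Agent.H952.NA.STQ

/-!
# Polynomial dependence on `M`: one step (NB4, helper163)

Adaptation of `Pool/Agent/H952/NA/STQ.lean` (helper538).
-/

set_option autoImplicit false
set_option linter.unusedSectionVars false

namespace Pool.Agent.H952.NA

open Finset
open Pool.Agent.H98.BG (IsP H GIB)
open scoped Pointwise

theorem stq2 (t1 : T1) (ns2 : NS2) : STQ2 := by
  intro V Θ _ _ _ m q w c e L π σ ρ τ B R R' hσ hτ hρ hm hw hc h0 h1 h2 hpos h3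
  have hP : IsP (Pz π σ τ : (Fin m → V) → ℝ) := STQL.pz_isP m π σ τ hσ hτ
  have e1 := t1 V Θ m π σ τ c L hσ hτ hc
  have e2 := ns2 V Θ m q π σ ρ τ B R R' hσ hτ hρ hm h0 h1 h2 hpos
  have e3 : ∑ z : Fin m → V, Pz π σ τ z * H (cv π ρ (post π σ τ z)) ≤ H ρ + e := by
    linarith
  have e4 : ∑ z : Fin m → V, Pz π σ τ z *
      ((L - H (post π σ τ z)) + w * (H (cv π ρ (post π σ τ z)) - H ρ)) ≤
      (L - H τ) + m * c + w * e := by
    have e5 : ∑ z : Fin m → V, Pz π σ τ z *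
        ((L - H (post π σ τ z)) + w * (H (cv π ρ (post π σ τ z)) - H ρ)) =
        ∑ z : Fin m → V, Pz π σ τ z * (L - H (post π σ τ z)) +
          w * (∑ z : Fin m → V, Pz π σ τ z * H (cv π ρ (post π σ τ z)) -
            (∑ z : Fin m → V, Pz π σ τ z) * H ρ) := by
      rw [Finset.sum_mul, ← Finset.sum_sub_distrib, Finset.mul_sum, ← Finset.sum_add_distrib]
      refine Finset.sum_congr rfl fun z _ => ?_
      ring
    rw [e5, hP.2, one_mul]
    have e6 : w * (∑ z : Fin m → V, Pz π σ τ z * H (cv π ρ (post π σ τ z)) - H ρ) ≤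
        w * e := mul_le_mul_of_nonneg_left (by linarith) hw
    linarith
  obtain ⟨z, hz, hz2⟩ := STQL.exists_le _ _ _ hP e4
  exact ⟨post π σ τ z, STQL.post_isP m π σ τ z hσ hτ hz,
    fun t ht => STQL.post_supp π σ τ z t ht, hz2⟩

end Pool.Agent.H952.NA
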