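import Pool.Agent.H952.NA.Grp2

/-!
# All universes
-/

set_option autoImplicit false
set_option linter.unusedSectionVars false

namespace Pool.Agent.H952.NA

open Finset
open scoped Pointwise

universe u

/-- a finite subset of a group is in the image of a group of universe 0 -/
theorem transfer {G : Type u} [Group G] (A : Finset G) : ∃ (Γ : Type) (_ : Group Γ)
    (ψ : Γ →* G), Function.Injective ψ ∧ ∀ a ∈ A, ∃ x, ψ x = a := by
  let φ : FreeGroup (Fin A.card) →* G := FreeGroup.lift fun i => ((A.equivFin.symm i : A) : G)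
  refine ⟨FreeGroup (Fin A.card) ⧸ φ.ker, inferInstance, QuotientGroup.kerLift φ,
    QuotientGroup.kerLift_injective φ, ?_⟩
  intro a ha
  refine ⟨QuotientGroup.mk (FreeGroup.of (A.equivFin ⟨a, ha⟩)), ?_⟩
  change φ (FreeGroup.of (A.equivFin ⟨a, ha⟩)) = a
  simp [φ]

section

variable {G : Type u} [Group G] [DecidableEq G] {Γ : Type} [Group Γ] [DecidableEq Γ]

theorem pull (ψ : Γ →* G) (hψ : Function.Injective ψ) (A : Finset G)
    (hA : ∀ a ∈ A, ∃ x, ψ x = a) (K : ℝ) (hne : A.Nonempty) (hs : A⁻¹ = A)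
    (h3 : ((A ^ 3).card : ℝ) ≤ K * A.card) :
    ∃ A' : Finset Γ, A'.image ψ = A ∧ A'.card = A.card ∧ A'.Nonempty ∧ A'⁻¹ = A' ∧
      ((A' ^ 3).card : ℝ) ≤ K * A'.card := by
  classical
  set A' : Finset Γ := A.preimage ψ hψ.injOn with hA'
  have him : A'.image ψ = A := by
    ext a
    rw [mem_image]
    constructor
    · rintro ⟨x, hx, rfl⟩
      exact Finset.mem_preimage.1 hx
    · intro ha
      obtain ⟨x, rfl⟩ := hA a ha
      exact ⟨x, Finset.mem_preimage.2 ha, rfl⟩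
  have hcard : A'.card = A.card := by
    conv_rhs => rw [← him]
    rw [card_image_of_injective _ hψ]
  have h4 : (A' ^ 3).card = (A ^ 3).card := by
    conv_rhs => rw [← him, ← Finset.image_pow]
    rw [card_image_of_injective _ hψ]
  refine ⟨A', him, hcard, ?_, ?_, ?_⟩
  · rw [← Finset.card_pos, hcard]
    exact hne.card_pos
  · ext x
    rw [Finset.mem_inv']
    constructor
    · intro hx
      have h5 := Finset.mem_preimage.1 hx
      rw [map_inv] at h5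
      rw [hA', Finset.mem_preimage, ← hs]
      exact Finset.mem_inv'.2 h5
    · intro hx
      have h5 := Finset.mem_preimage.1 hx
      rw [hA', Finset.mem_preimage, map_inv, ← hs]
      exact Finset.inv_mem_inv h5
  · rw [h4, hcard]
    exact h3

end

theorem pow_u (C : ℝ) (f : ℕ → ℝ → ℝ)
    (h : ∀ (G : Type) [Group G] [DecidableEq G] (A : Finset G) (K : ℝ) (M : ℕ), A.Nonempty →
      A⁻¹ = A → 1 ≤ K → ((A ^ 3).card : ℝ) ≤ K * A.card → 1 ≤ M →
      ∃ S : Finset G, 1 ∈ S ∧ S⁻¹ = S ∧ S ^ M ⊆ A ^ 4 ∧ (A.card : ℝ) * f M K ≤ S.card)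
    (G : Type u) [Group G] [DecidableEq G] (A : Finset G) (K : ℝ) (M : ℕ) (hA : A.Nonempty)
    (hs : A⁻¹ = A) (hK : 1 ≤ K) (h3 : ((A ^ 3).card : ℝ) ≤ K * A.card) (hM : 1 ≤ M) :
    ∃ S : Finset G, 1 ∈ S ∧ S⁻¹ = S ∧ S ^ M ⊆ A ^ 4 ∧ (A.card : ℝ) * f M K ≤ S.card := by
  classical
  obtain ⟨Γ, _, ψ, hψ, hr⟩ := transfer A
  obtain ⟨A', him, hcard, hne, hs', h3'⟩ := pull ψ hψ A hr K hA hs h3
  obtain ⟨S, h1, h2, h4, h5⟩ := h Γ A' K M hne hs' hK h3' hM
  refine ⟨S.image ψ, ?_, ?_, ?_, ?_⟩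
  · exact mem_image.2 ⟨1, h1, map_one ψ⟩
  · rw [← Finset.image_inv, h2]
  · rw [← Finset.image_pow, ← him, ← Finset.image_pow]
    exact Finset.image_subset_image h4
  · rw [card_image_of_injective _ hψ, ← hcard]
    exact h5

theorem comm_u (f : ℝ → ℝ → ℝ)
    (h : ∀ (G : Type) [Group G] [DecidableEq G] (A : Finset G) (K : ℝ), A.Nonempty → A⁻¹ = A →
      1 ≤ K → ((A ^ 3).card : ℝ) ≤ K * A.card →
      (∀ g ∈ A ^ 4, g ≠ 1 → ∀ i : ℕ, 0 < i → (i : ℝ) < f A.card K → g ^ i ≠ 1) →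
      ∃ T : Finset G, T ⊆ A ^ 4 ∧ (∀ x ∈ T, ∀ y ∈ T, x * y = y * x) ∧ f A.card K ≤ T.card)
    (G : Type u) [Group G] [DecidableEq G] (A : Finset G) (K : ℝ) (hA : A.Nonempty)
    (hs : A⁻¹ = A) (hK : 1 ≤ K) (h3 : ((A ^ 3).card : ℝ) ≤ K * A.card)
    (hord : ∀ g ∈ A ^ 4, g ≠ 1 → ∀ i : ℕ, 0 < i → (i : ℝ) < f A.card K → g ^ i ≠ 1) :
    ∃ T : Finset G, T ⊆ A ^ 4 ∧ (∀ x ∈ T, ∀ y ∈ T, x * y = y * x) ∧ f A.card K ≤ T.card := by
  classical
  obtain ⟨Γ, _, ψ, hψ, hr⟩ := transfer A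
  obtain ⟨A', him, hcard, hne, hs', h3'⟩ := pull ψ hψ A hr K hA hs h3
  obtain ⟨T, h1, h2, h4⟩ := h Γ A' K hne hs' hK h3' (by
    intro g hg4 hg i hi hif hgi
    rw [hcard] at hif
    refine hord (ψ g) ?_ ?_ i hi hif ?_
    · rw [← him, ← Finset.image_pow]
      exact mem_image_of_mem ψ hg4
    · intro h0
      exact hg (hψ (by rw [h0, map_one]))
    · rw [← map_pow, hgi, map_one])
  refine ⟨T.image ψ, ?_, ?_, ?_⟩
  · rw [← him, ← Finset.image_pow]
    exact Finset.image_subset_image h1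
  · intro x hx y hy
    obtain ⟨x', hx', rfl⟩ := mem_image.1 hx
    obtain ⟨y', hy', rfl⟩ := mem_image.1 hy
    rw [← map_mul, ← map_mul, h2 x' hx' y' hy']
  · rw [card_image_of_injective _ hψ, ← hcard]
    exact h4

end Pool.Agent.H952.NA
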