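import Pool.Agent.H952.NA.Main
import Pool.Agent.H952.NA.Uni
import Pool.Agent.H952.NA.Mom2
import Pool.Agent.H952.NA.Log2
import Pool.Agent.H952.NA.NS2
import Pool.Agent.H952.NA.STQ2
import Pool.Agent.H952.NA.Hol2
import Pool.Agent.H952.NA.SEQ2
import Pool.Agent.H952.NA.LOS2
import Pool.Agent.H952.NA.CORE2

/-!
# Assembly, second version
-/

set_option autoImplicit false

namespace Pool.Agent.H952.NA

open Pool.Agent.H98.BG (gib)

theorem core2_main : CORE2 :=
  core2 gib (stq2 (t1 gib) (ns2 gib log2)) (sq2 gib hol2) (los2 mom2 (sq2 gib hol2))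

theorem pow2_main : POW2 := pow2 ball core2_main (fins gib)

theorem comm2_main : COMM2 := comm2 pow2_main

end Pool.Agent.H952.NA
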