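import Pool.Agent.H98.BG.Stmt

/-!
# Large sets `S` with `S ^ M ⊆ A ^ 4` in arbitrary groups: statements

The arguments of `Pool.Agent.H98.BQ` for permutations `π t` of a finite set `V` in place of the
translations of a finite abelian group (`V` will be a large ball `A ^ N` of an arbitrary group, and
`π t` will be left multiplication by `t` in the interior of the ball). The set `B` of pairs will be
`{(x, s) : x⁻¹ s ∈ A ^ 2}`.
-/

set_option autoImplicit false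

namespace Pool.Agent.H952.NA

open Finset
open Pool.Agent.H98.BG (IsP H GIB)
open scoped Pointwise

section

variable {V Θ : Type} [Fintype V] [DecidableEq V] [Fintype Θ]

/-- the law of `π_T S` for independent `S`, `T` with laws `σ`, `τ` -/
noncomputable def cv (π : Θ → Equiv.Perm V) (σ : V → ℝ) (τ : Θ → ℝ) (y : V) : ℝ :=
  ∑ t, σ ((π t).symm y) * τ t

/-- the probability that `(x, S)` is in `B` -/
noncomputable def pr (σ : V → ℝ) (B : Finset (V × V)) (x : V) : ℝ :=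
  ∑ s, if (x, s) ∈ B then σ s else 0

/-- the proportion of the indices `i` with `(x, z i) ∈ B` -/
noncomputable def em {m : ℕ} (B : Finset (V × V)) (z : Fin m → V) (x : V) : ℝ :=
  (∑ i, if (x, z i) ∈ B then (1 : ℝ) else 0) / m

/-- the expectation over `m` independent samples with law `σ` -/
noncomputable def Ex {m : ℕ} (σ : V → ℝ) (φ : (Fin m → V) → ℝ) : ℝ :=
  ∑ s : Fin m → V, (∏ i, σ (s i)) * φ s

/-- the joint weight of `z = (π_T S_i)_i` and of `t = T` -/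
noncomputable def Wt {m : ℕ} (π : Θ → Equiv.Perm V) (σ : V → ℝ) (τ : Θ → ℝ) (z : Fin m → V)
    (t : Θ) : ℝ :=
  τ t * ∏ i, σ ((π t).symm (z i))

/-- the law of `z = (π_T S_i)_i` -/
noncomputable def Pz {m : ℕ} (π : Θ → Equiv.Perm V) (σ : V → ℝ) (τ : Θ → ℝ) (z : Fin m → V) : ℝ :=
  ∑ t, Wt π σ τ z t

/-- the law of `T` given `z` -/
noncomputable def post {m : ℕ} (π : Θ → Equiv.Perm V) (σ : V → ℝ) (τ : Θ → ℝ) (z : Fin m → V)
    (t : Θ) : ℝ :=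
  Wt π σ τ z t / Pz π σ τ z

/-- the normalising factor -/
noncomputable def ZZ (q : ℝ) (B : Finset (V × V)) (X : Finset V) (σ : V → ℝ) : ℝ :=
  ∑ x ∈ X, Real.exp (q * pr σ B x)

/-- the law on `X` with weights proportional to `exp (q * pr σ B x)` -/
noncomputable def WL (q : ℝ) (B : Finset (V × V)) (X : Finset V) (σ : V → ℝ) (x : V) : ℝ :=
  if x ∈ X then Real.exp (q * pr σ B x) / ZZ q B X σ else 0

/-- the uniform weights on `A` -/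
noncomputable def un (A : Finset V) (x : V) : ℝ := if x ∈ A then (A.card : ℝ)⁻¹ else 0

/-- the laws of the variables -/
noncomputable def sg (A : Finset V) (B : Finset (V × V)) (E : ℕ → Finset V) (q : ℝ) :
    ℕ → V → ℝ
  | 0 => un A
  | i + 1 => WL q B (E (i + 1)) (sg A B E q i)

end

/-- NA1: the moment generating function of the empirical frequency.
Model: `mgf` in `Pool/Agent/H98/BQ/NS.lean` (the lemmas `LGML.*` on `Ex` are in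
`Pool/Agent/H98/BG/LGM.lean`); replace `x + s ∈ B` by `(x, s) ∈ B`. -/
def MGF : Prop := ∀ (V : Type) [Fintype V] [DecidableEq V] (m : ℕ) (q : ℝ)
  (σ : V → ℝ) (B : Finset (V × V)) (x : V), IsP σ → 0 < m → 0 ≤ q → q ≤ m →
  Ex σ (fun s : Fin m → V => Real.exp (q * em B s x)) ≤ Real.exp (q * pr σ B x + q ^ 2 / m)

/-- NA2: the law of `T` given `m` samples. Model: `Pool/Agent/H98/BG/T1.lean` with
`(π t).symm (z i)` in place of `z i - t`. -/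
def T1 : Prop := ∀ (V Θ : Type) [Fintype V] [DecidableEq V] [Fintype Θ] (m : ℕ)
  (π : Θ → Equiv.Perm V) (σ : V → ℝ) (τ : Θ → ℝ) (c L : ℝ), IsP σ → IsP τ →
  H (cv π σ τ) - H σ ≤ c →
  ∑ z : Fin m → V, Pz π σ τ z * (L - H (post π σ τ z)) ≤ (L - H τ) + m * c

/-- NA3: the mean entropy of `π_T X` given `m` samples `π_T S_i`. Model: `ns` in
`Pool/Agent/H98/BQ/NS.lean`. Paper proof: given `z` with `Pz z > 0`, apply Gibbs' inequality to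
`Y = π_T X` (`T` with law `post z`, `X` with law `ρ`, `Y ∈ R`) and the weights
`exp (q * em B z y)` on `R`. If `post z t ≠ 0` and `s_i = (π t).symm (z i)` then `σ (s_i) ≠ 0`,
`em B z (π t x) = em B s x` for `x ∈ R'` by the hypothesis of equivariance, and
`∑ y ∈ R, exp (q em B z y) ≤ ∑ x ∈ R', exp (q em B s x)`. Then average (`MGF` and Jensen). -/
def NS : Prop := ∀ (V Θ : Type) [Fintype V] [DecidableEq V] [Fintype Θ] (m : ℕ) (q : ℝ)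
  (π : Θ → Equiv.Perm V) (σ ρ : V → ℝ) (τ : Θ → ℝ) (B : Finset (V × V)) (R R' : Finset V),
  IsP σ → IsP τ → IsP ρ → 0 < m → 0 ≤ q → q ≤ m →
  (∀ t, τ t ≠ 0 → ∀ x ∈ R', ∀ s, σ s ≠ 0 → ((π t x, π t s) ∈ B ↔ (x, s) ∈ B)) →
  (∀ x t, ρ x ≠ 0 → τ t ≠ 0 → π t x ∈ R) → (∀ y t, y ∈ R → τ t ≠ 0 → (π t).symm y ∈ R') →
  ∑ z : Fin m → V, Pz π σ τ z * H (cv π ρ (post π σ τ z)) ≤
    -(q * ∑ x, ρ x * pr σ B x) + Real.log (∑ x ∈ R', Real.exp (q * pr σ B x)) + q ^ 2 / m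

/-- NA4: one step. Model: `Pool/Agent/H98/BQ/STQ.lean`. -/
def STQ : Prop := ∀ (V Θ : Type) [Fintype V] [DecidableEq V] [Fintype Θ] (m : ℕ)
  (q w c e L : ℝ) (π : Θ → Equiv.Perm V) (σ ρ : V → ℝ) (τ : Θ → ℝ) (B : Finset (V × V))
  (R R' : Finset V), IsP σ → IsP τ → IsP ρ → 0 < m → 0 ≤ q →
  q ≤ m → 0 ≤ w → H (cv π σ τ) - H σ ≤ c →
  (∀ t, τ t ≠ 0 → ∀ x ∈ R', ∀ s, σ s ≠ 0 → ((π t x, π t s) ∈ B ↔ (x, s) ∈ B)) →
  (∀ x t, ρ x ≠ 0 → τ t ≠ 0 → π t x ∈ R) → (∀ y t, y ∈ R → τ t ≠ 0 → (π t).symm y ∈ R') →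
  -(q * ∑ x, ρ x * pr σ B x) + Real.log (∑ x ∈ R', Real.exp (q * pr σ B x)) ≤ H ρ + e →
  ∃ τ' : Θ → ℝ, IsP τ' ∧ (∀ t, τ' t ≠ 0 → τ t ≠ 0) ∧
    (L - H τ') + w * (H (cv π ρ τ') - H ρ) ≤ (L - H τ) + m * c + w * (e + q ^ 2 / m)

/-- NA5: Gibbs' variational principle. Model: `Pool/Agent/H98/BQ/VAR.lean`. -/
def VAR : Prop := ∀ (V : Type) [Fintype V] [DecidableEq V] (q : ℝ)
  (B : Finset (V × V)) (X : Finset V) (σ : V → ℝ), (∀ x y, (x, y) ∈ B ↔ (y, x) ∈ B) → IsP σ →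
  X.Nonempty →
  0 < ZZ q B X σ ∧ IsP (WL q B X σ) ∧
  H (WL q B X σ) + q * ∑ x, WL q B X σ x * pr σ B x = Real.log (ZZ q B X σ) ∧
  (∀ ρ : V → ℝ, IsP ρ → (∀ x, ρ x ≠ 0 → x ∈ X) →
    H ρ + q * ∑ x, ρ x * pr σ B x ≤ Real.log (ZZ q B X σ)) ∧
  (∀ ρ : V → ℝ, ∑ x, ρ x * pr σ B x = ∑ s, σ s * pr ρ B s)

/-- the domains: `E i` contains the support of the law of the `i`-th variable -/
structure Dom {V Θ : Type} [Fintype V] [DecidableEq V] [Fintype Θ] (π : Θ → Equiv.Perm V)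
    (A : Finset V) (B : Finset (V × V)) (E : ℕ → Finset V) (lam : ℝ) (n : ℕ) : Prop where
  base : A ⊆ E 0
  mono : ∀ i, E i ⊆ E (i + 1)
  full : ∀ x ∈ A, ∀ y ∈ A, (x, y) ∈ B
  symm : ∀ x y, (x, y) ∈ B ↔ (y, x) ∈ B
  nbr : ∀ i, ∀ s ∈ E i, ∀ x, (x, s) ∈ B → x ∈ E (i + 1)
  act : ∀ i ≤ n, ∀ t t', ∀ x ∈ E (i + 1), (π t').symm (π t x) ∈ E (i + 2)
  eqv : ∀ i ≤ n, ∀ t, ∀ x ∈ E (i + 2), ∀ s ∈ E i, ((π t x, π t s) ∈ B ↔ (x, s) ∈ B)
  prod : ∃ P : Finset V, (∀ t, ∀ a ∈ A, π t a ∈ P) ∧ (P.card : ℝ) ≤ Real.exp lam * A.card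
  card : ∀ i ≤ n + 2, ((E i).card : ℝ) ≤ Real.exp lam * A.card

/-- NA6: the normalising factors are large. Model: `Pool/Agent/H98/BQ/SEQ.lean`. -/
def SEQ : Prop := ∀ (V Θ : Type) [Fintype V] [DecidableEq V] [Fintype Θ] (π : Θ → Equiv.Perm V)
  (A : Finset V) (B : Finset (V × V)) (E : ℕ → Finset V) (lam q : ℝ) (n : ℕ), A.Nonempty →
  0 ≤ q → Dom π A B E lam n → ∀ i,
  IsP (sg A B E q i) ∧ (∀ x, sg A B E q i x ≠ 0 → x ∈ E i) ∧
  (∀ x, pr (sg A B E q i) B x ≠ 0 → x ∈ E (i + 1)) ∧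
  0 < ZZ q B (E (i + 1)) (sg A B E q i) ∧
  (i ≤ n → Real.log A.card + q - lam ≤ Real.log (ZZ q B (E (i + 1)) (sg A B E q i)))

/-- NA7: the losses are small. Model: `Pool/Agent/H98/BQ/LOS.lean` (first half); the points of
`E (i + 2)` outside of `E (i + 1)` have weight `exp 0 = 1`, there are at most
`exp lam * |A| ≤ exp (2 lam - q) Z` of them. Second part: the mean of `pr` is
`≥ (log Z - H (sg (i+1))) / q ≥ 1 - 2 lam / q ≥ 3 / 4`, as `H (sg (i+1)) ≤ log |E (i+1)|`; and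
by symmetry it is `∑ s, sg i s * pr (sg (i+1)) B s`, so some `s₀` with `sg i s₀ ≠ 0` has
`pr (sg (i+1)) B s₀ ≥ 3/4`. -/
def LOS : Prop := ∀ (V Θ : Type) [Fintype V] [DecidableEq V] [Fintype Θ] (π : Θ → Equiv.Perm V)
  (A : Finset V) (B : Finset (V × V)) (E : ℕ → Finset V) (lam q : ℝ) (n : ℕ), A.Nonempty →
  0 ≤ lam → 8 * lam + 1 ≤ q → Dom π A B E lam n → ∀ i ≤ n,
  (-(q * ∑ x, sg A B E q (i + 1) x * pr (sg A B E q i) B x) +
    Real.log (∑ x ∈ E (i + 2), Real.exp (q * pr (sg A B E q i) B x)) ≤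
      H (sg A B E q (i + 1)) + Real.exp (2 * lam - q)) ∧
  ∃ s₀ : V, sg A B E q i s₀ ≠ 0 ∧ 3 / 4 ≤ pr (sg A B E q (i + 1)) B s₀

/-- NA8: the main step. Model: `claim` in `Pool/Agent/H98/BQ/CORE.lean`. Induction on `j ≤ n`:
some `τ_j` has `(log |Θ| - H τ_j) + 2^j q (H (cv π (sg j) τ_j) - H (sg j)) ≤ q lam + 3 j q^2`;
start: uniform weights on `Θ` and `prod`; step `j → j + 1`: `STQ` with `m = 2^j q`,
`w = 2^(j+1) q`, `e = exp (2 lam - q) ≤ 2^(-n)`, `R = {π t x : x ∈ E (j+1)}`, `R' = E (j + 2)`.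
At the end use `H (cv π σ τ) ≥ H σ` and `H τ ≤ log |Θ|`. -/
def CORE : Prop := ∀ (V Θ : Type) [Fintype V] [DecidableEq V] [Fintype Θ]
  (π : Θ → Equiv.Perm V) (A : Finset V) (B : Finset (V × V)) (E : ℕ → Finset V) (lam : ℝ)
  (q n : ℕ), Nonempty Θ → A.Nonempty → 0 ≤ lam → 8 * lam + n + 1 ≤ q → Dom π A B E lam n →
  1 ≤ n →
  ∃ (σ : V → ℝ) (τ : Θ → ℝ) (s₀ : V), IsP σ ∧ IsP τ ∧ (∀ x, σ x ≠ 0 → x ∈ E n) ∧ s₀ ∈ E n ∧
    3 / 4 ≤ pr σ B s₀ ∧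
    Real.log (Fintype.card Θ) - H τ ≤ (3 * n + 1) * (q : ℝ) ^ 2 ∧
    H (cv π σ τ) - H σ ≤ (3 * n + 1) * (q : ℝ) / 2 ^ n

/-- NA9: many nearly invariant translations. Paper proof. For probability weights `p, r` with
`p > 0 → r > 0`: `∑ p log (p / r) ≥ 2 (1 - ∑ √p √r) = ∑ (√p - √r)^2` (`log x ≤ x - 1`). With
`κ = cv π σ τ`, `σ_t = σ ∘ (π t).symm`:
`H κ - H σ = ∑ t, τ t * ∑ y, σ_t y log (σ_t y / κ y) ≥ ∑ t, τ t * ‖√σ_t - √κ‖²`. Let `T` be the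
set of the `t` with `‖√σ_t - √κ‖² ≤ 2 δ`; by Markov `p := ∑ t ∈ T, τ t ≥ 1/2` (if `δ = 0` use
that then all `t` with `τ t ≠ 0` are in `T`; `δ < 0` is impossible, or contradiction). Entropy:
`H τ ≤ log 2 + p log |T| + (1 - p) log |Θ|`, so `log |Θ| - log |T| ≤ 2 (log |Θ| - H τ) + 2 log 2`.
For `t, t' ∈ T` put `f = √σ` in `ℓ²(V)`: `‖f ∘ (π t).symm - f ∘ (π t').symm‖ ≤ 2 √(2 δ)`, so each
`g i` moves `f` by at most `2 √(2 δ)`, the product by at most `2 M √(2 δ) ≤ 1/4`. So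
`∑ {x | g x ∈ F} σ x ≥ (√(3/4) - 1/4)² > 1/4`, and some `x` with `σ x ≠ 0` has `x ∈ F`,
`g x ∈ F`. -/
def FINS : Prop := ∀ (V Θ : Type) [Fintype V] [DecidableEq V] [Fintype Θ] [DecidableEq Θ]
  (π : Θ → Equiv.Perm V) (σ : V → ℝ) (τ : Θ → ℝ) (δ : ℝ), IsP σ → IsP τ →
  H (cv π σ τ) - H σ ≤ δ →
  ∃ T : Finset Θ, T.Nonempty ∧
    Real.log (Fintype.card Θ) - Real.log T.card ≤
      2 * (Real.log (Fintype.card Θ) - H τ) + 2 ∧
    ∀ (M : ℕ) (g : Fin M → Equiv.Perm V), 128 * (M : ℝ) ^ 2 * δ ≤ 1 →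
      (∀ i, ∃ t ∈ T, ∃ t' ∈ T, g i = (π t')⁻¹ * π t) →
      ∀ F : Finset V, 3 / 4 ≤ ∑ x ∈ F, σ x →
        ∃ x, σ x ≠ 0 ∧ x ∈ F ∧ (List.ofFn g).prod x ∈ F

/-- NA10: the ball of radius `N` in an arbitrary group. Paper proof: `V` is the set of the
elements of `A ^ k`, `k ≤ N + 2` (as a subtype); for `t ∈ A` the map `v ↦ t v` is injective on
the elements of `A ^ k`, `k ≤ N + 1`, extend it to a permutation of the finite set `V`
(e.g. `Equiv.extendSubtype` / `Function.Embedding`...: an injection of a subset of a finite type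
into the type extends to a permutation). -/
def BALL : Prop := ∀ (G : Type) [Group G] [DecidableEq G] (A : Finset G) (N : ℕ),
  ∃ (V : Type) (_ : Fintype V) (_ : DecidableEq V) (ι : V → G) (π : {t // t ∈ A} → Equiv.Perm V),
    Function.Injective ι ∧ (∀ x : G, (∃ k ≤ N + 2, x ∈ A ^ k) ↔ x ∈ Set.range ι) ∧
    ∀ (t : {t // t ∈ A}) (v : V), (∃ k ≤ N + 1, ι v ∈ A ^ k) → ι (π t v) = t.1 * ι v

end Pool.Agent.H952.NA
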