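import Pool.Agent.H952.NA.Stm

/-!
# Polynomial dependence on `M`: statements

The weights `exp (q P ((x, S) ∈ B))` are replaced by `P ((x, S) ∈ B) ^ q`.
-/

set_option autoImplicit false

namespace Pool.Agent.H952.NA

open Finset
open Pool.Agent.H98.BG (IsP H GIB)
open scoped Pointwise

section

variable {V Θ : Type} [Fintype V] [DecidableEq V] [Fintype Θ]

/-- the smoothed proportion of the indices `i` with `(x, z i) ∈ B` -/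
noncomputable def ems {m : ℕ} (B : Finset (V × V)) (z : Fin m → V) (x : V) : ℝ :=
  ((∑ i, if (x, z i) ∈ B then (1 : ℝ) else 0) + 1) / (m + 1)

/-- the normalising factor -/
noncomputable def Z2 (q : ℕ) (B : Finset (V × V)) (X : Finset V) (σ : V → ℝ) : ℝ :=
  ∑ x ∈ X, pr σ B x ^ q

/-- the law on `X` with weights proportional to `pr σ B x ^ q` -/
noncomputable def W2 (q : ℕ) (B : Finset (V × V)) (X : Finset V) (σ : V → ℝ) (x : V) : ℝ :=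
  if x ∈ X then pr σ B x ^ q / Z2 q B X σ else 0

/-- the laws of the variables -/
noncomputable def sg2 (A : Finset V) (B : Finset (V × V)) (E : ℕ → Finset V) (q : ℕ) :
    ℕ → V → ℝ
  | 0 => un A
  | i + 1 => W2 q B (E (i + 1)) (sg2 A B E q i)

end

/-- NB1: moments of `ems = (k + 1) / (m + 1)`, `k` binomial with parameters `m`, `p = pr σ B x`.
Proof: for every `P > 0`, `y ^ q ≤ P ^ q exp (q (y / P - 1))` (`log t ≤ t - 1`); with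
`y = (k + 1) / m` and `u = q / (m P) ≤ 1` the mean is at most
`P ^ q exp (-q + u) (1 + p (e^u - 1)) ^ m`. First part: `P = p`, `e^u - 1 ≤ u + u²`.
Second part: `P = q / m`, `u = 1`, `(1 + p (e - 1)) ^ m ≤ exp (2 m p) ≤ exp (2 q)`.
The product formula for the mean of `exp (u k)` is in `mgf` (`Pool/Agent/H952/NA/Mgf.lean`). -/
def MOM2 : Prop := ∀ (V : Type) [Fintype V] [DecidableEq V] (m q : ℕ)
  (σ : V → ℝ) (B : Finset (V × V)) (x : V), IsP σ → 0 < m → 1 ≤ q → q ≤ m →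
  ((q : ℝ) / m ≤ pr σ B x → Ex σ (fun s : Fin m → V => ems B s x ^ q) ≤
    pr σ B x ^ q * Real.exp (2 * (q : ℝ) ^ 2 / (m * pr σ B x))) ∧
  (pr σ B x < (q : ℝ) / m → Ex σ (fun s : Fin m → V => ems B s x ^ q) ≤
    Real.exp 1 * (Real.exp 1 * (q : ℝ) / m) ^ q)

/-- NB2: the mean of `-log ems`. Proof: with `p = pr σ B x` and `k` binomial,
`p E[1 / (k + 1)] ≤ 1 / (m + 1)`: for `m + 1` samples `s_0, …, s_m` with `k'` hits,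
`∑ i, 1{s_i hits} / k' ≤ 1`, and by symmetry (swap the coordinates `0` and `i`) all `m + 1` terms
have the same mean, which is `p E[1 / (k + 1)]`. (Or: `1 / (k + 1) = ∫ x in 0..1, x ^ k` and
`E x ^ k = (1 - p + p x) ^ m`; or `E f(k)` as a binomial sum.) So `E[1 / ems] ≤ 1 / p`, and by
`-log t ≤ 1 / (p⁻¹ t)... `: `-log ems = log (p / ems) - log p ≤ p / ems - 1 - log p`. -/
def LOG2 : Prop := ∀ (V : Type) [Fintype V] [DecidableEq V] (m : ℕ)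
  (σ : V → ℝ) (B : Finset (V × V)) (x : V), IsP σ → 0 < m → 0 < pr σ B x →
  Ex σ (fun s : Fin m → V => -Real.log (ems B s x)) ≤ -Real.log (pr σ B x)

/-- NB3: the mean entropy. Adapt `ns` in `Pool/Agent/H952/NA/NS.lean`: weights
`ems B z y ^ q > 0` on `R` in place of `exp (q * em B z y)`; `LOG2` for the first term and Jensen
(`log t ≤ t / s - 1 + log s`) for the second one. -/
def NS2 : Prop := ∀ (V Θ : Type) [Fintype V] [DecidableEq V] [Fintype Θ] (m q : ℕ)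
  (π : Θ → Equiv.Perm V) (σ ρ : V → ℝ) (τ : Θ → ℝ) (B : Finset (V × V)) (R R' : Finset V),
  IsP σ → IsP τ → IsP ρ → 0 < m →
  (∀ t, τ t ≠ 0 → ∀ x ∈ R', ∀ s, σ s ≠ 0 → ((π t x, π t s) ∈ B ↔ (x, s) ∈ B)) →
  (∀ x t, ρ x ≠ 0 → τ t ≠ 0 → π t x ∈ R) → (∀ y t, y ∈ R → τ t ≠ 0 → (π t).symm y ∈ R') →
  (∀ x, ρ x ≠ 0 → 0 < pr σ B x) →
  ∑ z : Fin m → V, Pz π σ τ z * H (cv π ρ (post π σ τ z)) ≤
    -(q * ∑ x, ρ x * Real.log (pr σ B x)) +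
      Real.log (∑ x ∈ R', Ex σ (fun s : Fin m → V => ems B s x ^ q))

/-- NB4: one step. Adapt `Pool/Agent/H952/NA/STQ.lean`. -/
def STQ2 : Prop := ∀ (V Θ : Type) [Fintype V] [DecidableEq V] [Fintype Θ] (m q : ℕ)
  (w c e L : ℝ) (π : Θ → Equiv.Perm V) (σ ρ : V → ℝ) (τ : Θ → ℝ) (B : Finset (V × V))
  (R R' : Finset V), IsP σ → IsP τ → IsP ρ → 0 < m → 0 ≤ w → H (cv π σ τ) - H σ ≤ c →
  (∀ t, τ t ≠ 0 → ∀ x ∈ R', ∀ s, σ s ≠ 0 → ((π t x, π t s) ∈ B ↔ (x, s) ∈ B)) →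
  (∀ x t, ρ x ≠ 0 → τ t ≠ 0 → π t x ∈ R) → (∀ y t, y ∈ R → τ t ≠ 0 → (π t).symm y ∈ R') →
  (∀ x, ρ x ≠ 0 → 0 < pr σ B x) →
  -(q * ∑ x, ρ x * Real.log (pr σ B x)) +
      Real.log (∑ x ∈ R', Ex σ (fun s : Fin m → V => ems B s x ^ q)) ≤ H ρ + e →
  ∃ τ' : Θ → ℝ, IsP τ' ∧ (∀ t, τ' t ≠ 0 → τ t ≠ 0) ∧
    (L - H τ') + w * (H (cv π ρ τ') - H ρ) ≤ (L - H τ) + m * c + w * e

/-- the domains -/
structure Dom2 {V Θ : Type} [Fintype V] [DecidableEq V] [Fintype Θ] (π : Θ → Equiv.Perm V)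
    (A : Finset V) (B : Finset (V × V)) (E : ℕ → Finset V) (lam : ℝ) (n : ℕ) : Prop where
  base : A ⊆ E 0
  mono : ∀ i, E i ⊆ E (i + 1)
  full : ∀ x ∈ A, ∀ y ∈ A, (x, y) ∈ B
  symm : ∀ x y, (x, y) ∈ B ↔ (y, x) ∈ B
  nbr : ∀ i, ∀ s ∈ E i, ∀ x, (x, s) ∈ B → x ∈ E (i + 1)
  act : ∀ i ≤ n, ∀ t t', ∀ x ∈ E (i + 1), (π t').symm (π t x) ∈ E (i + 2)
  eqv : ∀ i ≤ n, ∀ t, ∀ x ∈ E (i + 2), ∀ s ∈ E i, ((π t x, π t s) ∈ B ↔ (x, s) ∈ B)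
  prod : ∃ P : Finset V, (∀ t, ∀ a ∈ A, π t a ∈ P) ∧ (P.card : ℝ) ≤ Real.exp lam * A.card
  deg : ∀ s, ((univ.filter fun x => (x, s) ∈ B).card : ℝ) ≤ Real.exp lam * A.card
  card : ∀ i ≤ n + 2, ((E i).card : ℝ) ≤ Real.exp ((2 * i + 1) * lam) * A.card

/-- NB5: Hölder. `f, σ ≥ 0` with `σ' = f ^ q / ∑ f ^ q`; here `f = pr σ B`, `g = pr σ' B`.
If `a (∑ σ ^ (1+1/q)) ^ q ≤ ∑ f ^ (q+1)` then `a (∑ σ' ^ (1+1/q)) ^ q ≤ ∑ g ^ (q+1)`, where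
`∑ σ g = ∑ σ' f` (symmetry of `B`). Proof: `∑ σ' f = ∑ f ^ (q+1) / Z`, `Z = ∑ f ^ q`, and by Hölder
`∑ σ g ≤ (∑ σ ^ (1+1/q)) ^ (q/(q+1)) (∑ g ^ (q+1)) ^ (1/(q+1))`, so
`∑ g ^ (q+1) ≥ (∑ f ^ (q+1)) ^ (q+1) / (Z ^ (q+1) (∑ σ ^ (1+1/q)) ^ q)
 ≥ a (∑ f ^ (q+1)) ^ q / Z ^ (q+1) = a (∑ σ' ^ (1+1/q)) ^ q`.
Second part: Jensen, `log ∑ σ ^ (1+1/q) ≥ ∑ σ log (σ ^ (1/q)) = - H σ / q`. -/
def HOL2 : Prop := ∀ (V : Type) [Fintype V] (q : ℕ) (σ f g σ' : V → ℝ) (a : ℝ), 1 ≤ q →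
  IsP σ → (∀ x, 0 ≤ f x) → (∀ x, 0 ≤ g x) → 0 < ∑ x, f x ^ q → 0 ≤ a →
  (∀ x, σ' x = f x ^ q / ∑ y, f y ^ q) → ∑ x, σ x * g x = ∑ x, σ' x * f x →
  (a * (∑ x, σ x ^ (1 + 1 / (q : ℝ))) ^ q ≤ ∑ x, f x ^ (q + 1) →
    a * (∑ x, σ' x ^ (1 + 1 / (q : ℝ))) ^ q ≤ ∑ x, g x ^ (q + 1)) ∧
  Real.exp (-H σ) ≤ (∑ x, σ x ^ (1 + 1 / (q : ℝ))) ^ q

/-- NB6: the normalising factors are large. Proof. `p_i = pr (sg2 i) B`; `0 ≤ p_i ≤ 1`, `p_i = 0`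
outside of `E (i + 1)`, `∑ p_i = ∑ s, sg2 i s * deg s ≤ exp lam * |A|`. By `HOL2` and induction
`|A|^2 (∑ (sg2 i) ^ (1+1/q)) ^ q ≤ ∑ p_i ^ (q+1)` (`i = 0`: the left side is `|A|`, and `p_0 = 1` on
`A`). So `Z_i ≥ ∑ p_i ^ (q+1) ≥ |A|^2 exp (-H (sg2 i))`. Moreover
`H (sg2 (i+1)) = log Z_i + q D`, `D = -∑ sg2 (i+1) log p_i`, and by Gibbs with the weights `p_i`
`H (sg2 (i+1)) ≤ lam + log |A| + D`. So, if `H (sg2 i) ≤ log |A| + 3 lam`,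
`(q - 1) D ≤ lam + log |A| - log Z_i ≤ 4 lam`, `D ≤ 2 lam` and `H (sg2 (i+1)) ≤ log |A| + 3 lam`. -/
def SEQ2 : Prop := ∀ (V Θ : Type) [Fintype V] [DecidableEq V] [Fintype Θ] (π : Θ → Equiv.Perm V)
  (A : Finset V) (B : Finset (V × V)) (E : ℕ → Finset V) (lam : ℝ) (q n : ℕ), A.Nonempty →
  0 ≤ lam → 3 ≤ q → Dom2 π A B E lam n → ∀ i,
  IsP (sg2 A B E q i) ∧ (∀ x, sg2 A B E q i x ≠ 0 → x ∈ E i) ∧
  (∀ x, pr (sg2 A B E q i) B x ≠ 0 → x ∈ E (i + 1)) ∧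
  (∀ x, sg2 A B E q (i + 1) x ≠ 0 → 0 < pr (sg2 A B E q i) B x) ∧
  0 < Z2 q B (E (i + 1)) (sg2 A B E q i) ∧
  Real.log A.card - 3 * lam ≤ Real.log (Z2 q B (E (i + 1)) (sg2 A B E q i)) ∧
  H (sg2 A B E q (i + 1)) = Real.log (Z2 q B (E (i + 1)) (sg2 A B E q i)) -
    q * ∑ x, sg2 A B E q (i + 1) x * Real.log (pr (sg2 A B E q i) B x) ∧
  ((q : ℝ) - 1) * -(∑ x, sg2 A B E q (i + 1) x * Real.log (pr (sg2 A B E q i) B x)) ≤ 4 * lam ∧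
  ∑ x, pr (sg2 A B E q i) B x ≤ Real.exp lam * A.card

/-- NB7: the losses are small. `m = 2^(i+6) q`, `a = q^2/m`, `p = pr (sg2 i) B x`,
`Z = Z2 …`. For `x ∈ E (i+2)`, by `MOM2`: if `p ≥ 1/32` the mean is `≤ p^q exp (64 a)`;
if `q/m ≤ p < 1/32` it is `≤ p^q exp (2 q²/(m p)) ≤ p^q + (2 q²/m) p^(q-1) e^(2q)`
`≤ p^q + 2048 a p 4^(-q)` (`e² / 32 ≤ 1/4`); if `p < q/m` it is `≤ e (e q/m)^q ≤ e (16 * 2^i)^(-q)`.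
Sum: `≤ Z exp (64 a) + 2048 a 4^(-q) exp lam |A| + exp ((2i+5) lam) |A| e (16 * 2^i)^(-q)`
`≤ Z (exp (64 a) + a + a) ≤ Z exp (66 a)`, as `|A| ≤ exp (3 lam) Z` and `q ≥ 16 lam + 16`.
Second part: `∑ sg2 (i+1) p ≥ exp (∑ sg2 (i+1) log p) ≥ exp (-4 lam/(q-1)) ≥ exp (-1/4) ≥ 3/4`
(Jensen), and by symmetry of `B` this is `∑ s, sg2 i s * pr (sg2 (i+1)) B s`. -/
def LOS2 : Prop := ∀ (V Θ : Type) [Fintype V] [DecidableEq V] [Fintype Θ] (π : Θ → Equiv.Perm V)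
  (A : Finset V) (B : Finset (V × V)) (E : ℕ → Finset V) (lam : ℝ) (q n : ℕ), A.Nonempty →
  0 ≤ lam → 16 * lam + 16 ≤ q → Dom2 π A B E lam n → ∀ i ≤ n,
  (-(q * ∑ x, sg2 A B E q (i + 1) x * Real.log (pr (sg2 A B E q i) B x)) +
    Real.log (∑ x ∈ E (i + 2),
      Ex (sg2 A B E q i) (fun s : Fin (2 ^ (i + 6) * q) → V => ems B s x ^ q)) ≤
      H (sg2 A B E q (i + 1)) + 66 * (q : ℝ) / 2 ^ (i + 6)) ∧
  ∃ s₀ : V, sg2 A B E q i s₀ ≠ 0 ∧ 3 / 4 ≤ pr (sg2 A B E q (i + 1)) B s₀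

/-- NB8: the main step. Adapt `Pool/Agent/H952/NA/CORE.lean`. Induction on `j ≤ n`: some `τ_j` has
`(log |Θ| - H τ_j) + 2^(j+6) q (H (cv π (sg2 j) τ_j) - H (sg2 j)) ≤ 64 q lam + 132 j q^2`;
step `j → j + 1`: `STQ2` with `m = 2^(j+6) q`, `w = 2^(j+7) q`, `e = 66 q / 2^(j+6)`,
`w e = 132 q^2`. At the end `64 q lam ≤ 4 q^2`. -/
def CORE2 : Prop := ∀ (V Θ : Type) [Fintype V] [DecidableEq V] [Fintype Θ]
  (π : Θ → Equiv.Perm V) (A : Finset V) (B : Finset (V × V)) (E : ℕ → Finset V) (lam : ℝ)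
  (q n : ℕ), Nonempty Θ → A.Nonempty → 0 ≤ lam → 16 * lam + 16 ≤ q → Dom2 π A B E lam n →
  1 ≤ n →
  ∃ (σ : V → ℝ) (τ : Θ → ℝ) (s₀ : V), IsP σ ∧ IsP τ ∧ (∀ x, σ x ≠ 0 → x ∈ E n) ∧ s₀ ∈ E n ∧
    3 / 4 ≤ pr σ B s₀ ∧
    Real.log (Fintype.card Θ) - H τ ≤ 140 * n * (q : ℝ) ^ 2 ∧
    H (cv π σ τ) - H σ ≤ 3 * n * (q : ℝ) / 2 ^ n

end Pool.Agent.H952.NA
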